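import Mathlib

/-!
# The state inequality

`Rm Rh Rl` etc. are the possible states of the four sides; `dR` etc. tell whether the neighbouring window is good;
`ju` (`jd`) is true if there is a jump upwards (downwards).
-/

namespace Prc24

/-- the boolean core of the vertex inequality -/
lemma bool_vertex {Rm Rh Rl Lm Lh Ll Tm Th Tl Bm Bh Bl dR dL dT dB NE NW SE SW jne jnw jse jsw : Prop}
    [Decidable dR] [Decidable dL] [Decidable dT] [Decidable dB]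
    [Decidable NE] [Decidable NW] [Decidable SE] [Decidable SW]
    [Decidable (jne ∨ jnw)] [Decidable (jse ∨ jsw)]
    (hR : Rm ∨ Rh ∨ Rl) (hL : Lm ∨ Lh ∨ Ll) (hT : Tm ∨ Th ∨ Tl) (hB : Bm ∨ Bh ∨ Bl)
    (eR : dR → Rm) (eL : dL → Lm) (eT : dT → Tm) (eB : dB → Bm)
    (f1 : Rm → NE) (f2 : Rm → SE) (f3 : Lm → NW) (f4 : Lm → SW)
    (f5 : Tm → NE) (f6 : Tm → NW) (f7 : Bm → SE) (f8 : Bm → SW)
    (g1 : Rh → Th → NE) (g2 : Rl → Bh → SE) (g3 : Lh → Tl → NW) (g4 : Ll → Bl → SW)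
    (a1 : jne → ¬ dR ∧ ¬ dT ∧ ¬ Rh ∧ ¬ Th) (a2 : jnw → ¬ dL ∧ ¬ dT ∧ ¬ Lh ∧ ¬ Tl)
    (a3 : jse → ¬ dR ∧ ¬ dB ∧ ¬ Rl ∧ ¬ Bh) (a4 : jsw → ¬ dL ∧ ¬ dB ∧ ¬ Ll ∧ ¬ Bl) :
    (if dR then 1 else 0) + (if dL then 1 else 0) + (if dT then 1 else 0) + (if dB then 1 else 0) +
      (if jne ∨ jnw then 1 else 0) + (if jse ∨ jsw then 1 else 0) ≤
    (if NE then 1 else 0) + (if NW then 1 else 0) + (if SE then 1 else 0) + (if SW then 1 else 0) := by
  by_cases hdR : dR <;> by_cases hdL : dL <;> by_cases hdT : dT <;> by_cases hdB : dB <;>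
    simp only [hdR, hdL, hdT, hdB, if_true, if_false] <;> split_ifs <;> first | omega | (exfalso; grind)

end Prc24
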