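import Pool.Agent.Prc24.Chain

/-!
# At most `m - 1` points of a good window are shared

The point of `ct z` in column slot `0` has `p.1 < z.1 + K`, so it does not belong to a window with abscissa
`z.1 + K`; the point in the last column slot has `p.1 ≥ z.1 + (m - 1) K + A`, so it does not belong to a window with
abscissa `z.1 - K`; the same for rows (and for windows with ordinate `z.2 + j K`, `1 ≤ j`).  Since `ct z` has `m`
elements, at most `m - 1` of them satisfy the property.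
-/

namespace Prc24

open Finset Classical

variable {P : Set Z2} {K A B : ℤ} {m : ℕ}

private lemma mem_ct' {z p : Z2} : p ∈ ct P K A B m z ↔
    ((z.1 ≤ p.1 ∧ p.1 < z.1 + (m * K + A)) ∧ z.2 ≤ p.2 ∧ p.2 < z.2 + (m * K + B)) ∧ p ∈ P := by
  rw [ct, bx, mem_filter, mem_product, mem_Ico, mem_Ico]

private lemma mK_ge (h : Prc P K A B m) : 2 * K ≤ m * K := by
  have h1 : (2 : ℤ) ≤ m := by exact_mod_cast h.m2
  have h2 : 0 ≤ K := by have := h.A0; have := h.AK; omega
  nlinarith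

private lemma card_aux (h : Prc P K A B m) {z : Z2} (hz : Gd P K A B m z) (Q : Z2 → Prop) [DecidablePred Q]
    (hQ : ∃ p ∈ ct P K A B m z, ¬ Q p) : ((ct P K A B m z).filter Q).card ≤ m - 1 := by
  have h1 : ((ct P K A B m z).filter Q).card < (ct P K A B m z).card :=
    card_lt_card (filter_ssubset.2 hQ)
  have h2 : (ct P K A B m z).card = m := hz
  have := h.m2
  omega

private lemma first_col (h : Prc P K A B m) (z : Z2) :
    ∃ p ∈ ct P K A B m z, p.1 < z.1 + K := by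
  obtain ⟨p, hp, h1, h2, h3, h4⟩ := h.ver z.1 z.2
  have h5 := mK_ge h
  have h6 := h.A0
  have h7 := h.AK
  exact ⟨p, mem_ct'.2 ⟨⟨⟨h1, by linarith⟩, h3, h4⟩, hp⟩, h2⟩

private lemma last_col (h : Prc P K A B m) (z : Z2) :
    ∃ p ∈ ct P K A B m z, z.1 + (m * K + A) - K ≤ p.1 := by
  obtain ⟨p, hp, h1, h2, h3, h4⟩ := h.ver (z.1 + (m * K + A) - K) z.2
  have h5 := mK_ge h
  have h6 := h.A0
  have h7 := h.AK
  exact ⟨p, mem_ct'.2 ⟨⟨⟨by linarith, by linarith⟩, h3, h4⟩, hp⟩, h1⟩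

private lemma first_row (h : Prc P K A B m) (z : Z2) :
    ∃ p ∈ ct P K A B m z, p.2 < z.2 + K := by
  obtain ⟨p, hp, h1, h2, h3, h4⟩ := h.hor z.1 z.2
  have h5 := mK_ge h
  have h6 := h.B0
  have h7 := h.BK
  exact ⟨p, mem_ct'.2 ⟨⟨⟨h1, h2⟩, h3, by linarith⟩, hp⟩, h4⟩

private lemma last_row (h : Prc P K A B m) (z : Z2) :
    ∃ p ∈ ct P K A B m z, z.2 + (m * K + B) - K ≤ p.2 := by
  obtain ⟨p, hp, h1, h2, h3, h4⟩ := h.hor z.1 (z.2 + (m * K + B) - K)
  have h5 := mK_ge h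
  have h6 := h.B0
  have h7 := h.BK
  exact ⟨p, mem_ct'.2 ⟨⟨⟨h1, h2⟩, by linarith, by linarith⟩, hp⟩, h3⟩

private lemma jK_ge (h : Prc P K A B m) {j : ℕ} (hj : 1 ≤ j) : K ≤ j * K := by
  have h1 : (1 : ℤ) ≤ j := by exact_mod_cast hj
  have h2 : 0 ≤ K := by have := h.A0; have := h.AK; omega
  nlinarith

lemma card_R (h : Prc P K A B m) {z : Z2} (hz : Gd P K A B m z) :
    ((ct P K A B m z).filter (fun p => GI P K A B m (z.1 + K, z.2) p)).card ≤ m - 1 := by
  obtain ⟨p, hp, h1⟩ := first_col h z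
  refine card_aux h hz _ ⟨p, hp, fun h2 => ?_⟩
  have h3 := (mem_ct'.1 h2.2).1.1.1
  simp only at h3
  linarith

lemma card_L (h : Prc P K A B m) {z : Z2} (hz : Gd P K A B m z) :
    ((ct P K A B m z).filter (fun p => GI P K A B m (z.1 - K, z.2) p)).card ≤ m - 1 := by
  obtain ⟨p, hp, h1⟩ := last_col h z
  refine card_aux h hz _ ⟨p, hp, fun h2 => ?_⟩
  have h3 := (mem_ct'.1 h2.2).1.1.2
  simp only at h3
  linarith

lemma card_T (h : Prc P K A B m) {z : Z2} (hz : Gd P K A B m z) :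
    ((ct P K A B m z).filter (fun p => GI P K A B m (z.1, z.2 + K) p)).card ≤ m - 1 := by
  obtain ⟨p, hp, h1⟩ := first_row h z
  refine card_aux h hz _ ⟨p, hp, fun h2 => ?_⟩
  have h3 := (mem_ct'.1 h2.2).1.2.1
  simp only at h3
  linarith

lemma card_B (h : Prc P K A B m) {z : Z2} (hz : Gd P K A B m z) :
    ((ct P K A B m z).filter (fun p => GI P K A B m (z.1, z.2 - K) p)).card ≤ m - 1 := by
  obtain ⟨p, hp, h1⟩ := last_row h z
  refine card_aux h hz _ ⟨p, hp, fun h2 => ?_⟩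
  have h3 := (mem_ct'.1 h2.2).1.2.2
  simp only at h3
  linarith

lemma card_up (h : Prc P K A B m) {z : Z2} (hz : Gd P K A B m z) :
    ((ct P K A B m z).filter (fun p => jNE P K A B m z p ∨ jNW P K A B m z p)).card ≤ m - 1 := by
  obtain ⟨p, hp, h1⟩ := first_row h z
  refine card_aux h hz _ ⟨p, hp, fun h2 => ?_⟩
  rcases h2 with ⟨_, _, i, j, _, hj, h2⟩ | ⟨_, _, i, j, _, hj, h2⟩
  all_goals
    have h3 := (mem_ct'.1 h2.2).1.2.1
    have h4 := jK_ge h hj
    simp only at h3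
    linarith

lemma card_dn (h : Prc P K A B m) {z : Z2} (hz : Gd P K A B m z) :
    ((ct P K A B m z).filter (fun p => jSE P K A B m z p ∨ jSW P K A B m z p)).card ≤ m - 1 := by
  obtain ⟨p, hp, h1⟩ := last_row h z
  refine card_aux h hz _ ⟨p, hp, fun h2 => ?_⟩
  rcases h2 with ⟨_, _, i, j, _, hj, h2⟩ | ⟨_, _, i, j, _, hj, h2⟩
  all_goals
    have h3 := (mem_ct'.1 h2.2).1.2.2
    have h4 := jK_ge h hj
    simp only at h3
    linarith

end Prc24
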