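import Pool.Agent.Prc24.Chain

/-!
# Adjacent good windows

`Rm_of_edge`: `z` and `z' = (z.1 + K, z.2)` are good.  Let `q` be the point of `ct z'` in the last column slot
(`col_ex`, `i = m - 1`), so `z.1 + K + (m-1) K + A ≤ q.1 < z.1 + K + (m - 1) K + K`.  Let `p ∈ ct z` with column slot `i`,
row slot `k` (same rows for `z` and `z'`).  `p.1 < z.1 + m K + A ≤ q.1`.  If `1 ≤ i` then `p ∈ ct z'` and all three
inequalities follow from `col_ext`, `row_ext` for `z'`.  If `i = 0`: let `p'` be the point of `ct z` in column slot `1`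
(`m ≥ 2`); `p'.1 ≤ p.1 + K` (`col_chain`) and `q.1 ≤ p'.1 + (m - 1) K` (`p' ∈ ct z'`).  For the rows: the point of
`ct z'` in the row slot `k` is `q`: if it is another point `e`, then `e.1 < z.1 + m K + A` (the points of `ct z'` in the
column slots `< m - 1` of `z'`), hence `e ∈ ct z` and `e = p` by `row_inj` (for `z`), but `p.1 < z.1 + K`, so
`p ∉ ct z'`.  So `p` and `q` lie in the same row slot and `|p.2 - q.2| < K ≤ (m - 1) K`.

`card_R`: the point of `ct z` in the column slot `0` is not in `z'`, so at most `m - 1` points belong to both.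
`card_up`: the point of `ct z` in the row slot `0` does not belong to a window `(x, z.2 + j K)` with `1 ≤ j`.
-/

namespace Prc24

open Finset Classical

variable {P : Set Z2} {K A B : ℤ} {m : ℕ}

private lemma slot_up {K : ℤ} (hK : 0 < K) {a b : ℕ} (hab : a ≤ b) : (a : ℤ) * K ≤ (b : ℤ) * K :=
  mul_le_mul_of_nonneg_right (by exact_mod_cast hab) hK.le

private lemma K_le {K : ℤ} (hK : 0 < K) {m : ℕ} (hm : 2 ≤ m) : K ≤ ((m : ℤ) - 1) * K := by
  have h1 : (1 : ℤ) ≤ (m : ℤ) - 1 := by
    have : (2 : ℤ) ≤ m := by exact_mod_cast hm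
    linarith
  calc K = 1 * K := (one_mul K).symm
    _ ≤ ((m : ℤ) - 1) * K := mul_le_mul_of_nonneg_right h1 hK.le

lemma Rm_of_edge (h : Prc P K A B m) {z : Z2} (hz : Gd P K A B m z)
    (hz' : Gd P K A B m (z.1 + K, z.2)) : Rm P K A B m z := by
  have hK : 0 < K := lt_trans h.A0 h.AK
  have hA := h.A0
  have hB := h.B0
  have hm := h.m2
  have hK1 := K_le hK hm
  have hm1 : (m : ℤ) * K = ((m : ℤ) - 1) * K + K := by ring
  obtain ⟨q, hq, hq1, hq2⟩ := col_ex h hz' (i := m - 1) (by omega)
  have hcast : (((m - 1 : ℕ) : ℤ)) = (m : ℤ) - 1 := by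
    rw [Nat.cast_sub (by omega), Nat.cast_one]
  rw [hcast] at hq1 hq2
  have hqc := mem_ct.1 hq
  dsimp only at hq1 hq2 hqc
  refine ⟨q, hqc.1, fun p hp => ?_⟩
  have hpc := mem_ct.1 hp
  obtain ⟨i, him, hi1, hi2⟩ := col_slot h hz hp
  rcases Nat.eq_zero_or_pos i with hi0 | hi0
  · subst hi0
    simp only [Nat.cast_zero, zero_mul, add_zero] at hi1 hi2
    obtain ⟨p', hp', h1, h2⟩ := col_ex h hz (i := 1) (by omega)
    have hpc' := mem_ct.1 hp'
    have h3 := col_chain h hz hp hp' (i := 0) (j := 1) (by omega)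
      (by simp only [Nat.cast_zero, zero_mul, add_zero]; linarith)
      (by simp only [Nat.cast_zero, zero_mul, add_zero]; linarith) (by linarith) h2
    simp only [Nat.cast_one, Nat.cast_zero, one_mul, sub_zero] at h1 h2 h3
    have hp'' : p' ∈ ct P K A B m (z.1 + K, z.2) := by
      rw [mem_ct]
      refine ⟨hpc'.1, ?_, ?_, hpc'.2.2.2.1, hpc'.2.2.2.2⟩
      · show z.1 + K ≤ p'.1
        linarith
      · show p'.1 < z.1 + K + (m * K + A)
        linarith
    have h4 := col_ext h hz' hp'' hq
    obtain ⟨k, hkm, hk1, hk2⟩ := row_slot h hz hp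
    obtain ⟨e, he, he1, he2⟩ := row_ex h hz' (i := k) hkm
    dsimp only at he1 he2
    have heq : e = q := by
      obtain ⟨j, hjm, hj1, hj2⟩ := col_slot h hz' he
      have hec := mem_ct.1 he
      dsimp only at hj1 hj2 hec
      rcases Nat.lt_or_ge j (m - 1) with hlt | hge
      · exfalso
        have h5 : ((j : ℤ) + 1) * K ≤ ((m : ℤ) - 1) * K := by
          apply mul_le_mul_of_nonneg_right _ hK.le
          have : j + 1 ≤ m - 1 := hlt
          have h6 : ((j + 1 : ℕ) : ℤ) ≤ ((m - 1 : ℕ) : ℤ) := by exact_mod_cast this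
          rw [hcast] at h6
          push_cast at h6
          linarith
        have h7 : ((j : ℤ) + 1) * K = j * K + K := by ring
        have hez : e ∈ ct P K A B m z := by
          rw [mem_ct]
          exact ⟨hec.1, by linarith, by linarith, hec.2.2.2.1, hec.2.2.2.2⟩
        have h8 := row_inj h hz (i := k) hez hp (by linarith) he2 (by linarith) hk2
        rw [h8] at hec
        linarith [hec.2.1]
      · have hj : j = m - 1 := by omega
        subst hj
        rw [hcast] at hj1 hj2
        exact col_inj h hz' (i := m - 1) he hq (by rw [hcast]; show z.1 + K + _ ≤ _; linarith)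
          (by rw [hcast]; show _ < z.1 + K + _ + K; linarith)
          (by rw [hcast]; show z.1 + K + _ ≤ _; linarith)
          (by rw [hcast]; show _ < z.1 + K + _ + K; linarith)
    rw [heq] at he1 he2
    exact ⟨by linarith, by linarith, by linarith, by linarith⟩
  · have h5 := slot_up hK (a := 1) (b := i) hi0
    simp only [Nat.cast_one, one_mul] at h5
    have hp'' : p ∈ ct P K A B m (z.1 + K, z.2) := by
      rw [mem_ct]
      refine ⟨hpc.1, ?_, ?_, hpc.2.2.2.1, hpc.2.2.2.2⟩
      · show z.1 + K ≤ p.1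
        linarith
      · show p.1 < z.1 + K + (m * K + A)
        linarith
    have h4 := col_ext h hz' hp'' hq
    exact ⟨by linarith [hpc.2.2.1], by linarith, row_ext h hz' hq hp'', row_ext h hz' hp'' hq⟩

lemma Lm_of_edge (h : Prc P K A B m) {z : Z2} (hz : Gd P K A B m z)
    (hz' : Gd P K A B m (z.1 - K, z.2)) : Lm P K A B m z := by
  have hK : 0 < K := lt_trans h.A0 h.AK
  have hA := h.A0
  have hAK := h.AK
  have hB := h.B0
  have hm := h.m2
  have hK1 := K_le hK hm
  have hm1 : (m : ℤ) * K = ((m : ℤ) - 1) * K + K := by ring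
  obtain ⟨q, hq, hq1, hq2⟩ := col_ex h hz' (i := 0) (by omega)
  simp only [Nat.cast_zero, zero_mul, add_zero] at hq1 hq2
  have hcast : (((m - 1 : ℕ) : ℤ)) = (m : ℤ) - 1 := by
    rw [Nat.cast_sub (by omega), Nat.cast_one]
  have hcast2 : (((m - 2 : ℕ) : ℤ)) = (m : ℤ) - 2 := by
    rw [Nat.cast_sub hm, Nat.cast_ofNat]
  have hqc := mem_ct.1 hq
  dsimp only at hq1 hq2 hqc
  refine ⟨q, hqc.1, fun p hp => ?_⟩
  have hpc := mem_ct.1 hp
  obtain ⟨i, him, hi1, hi2⟩ := col_slot h hz hp
  rcases Nat.lt_or_ge i (m - 1) with hi0 | hi0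
  · have h5 : ((i : ℤ) + 1) * K ≤ ((m : ℤ) - 1) * K := by
      apply mul_le_mul_of_nonneg_right _ hK.le
      have h6 : ((i + 1 : ℕ) : ℤ) ≤ ((m - 1 : ℕ) : ℤ) := by exact_mod_cast hi0
      rw [hcast] at h6
      push_cast at h6
      linarith
    have h7 : ((i : ℤ) + 1) * K = i * K + K := by ring
    have hp'' : p ∈ ct P K A B m (z.1 - K, z.2) := by
      rw [mem_ct]
      refine ⟨hpc.1, ?_, ?_, hpc.2.2.2.1, hpc.2.2.2.2⟩
      · show z.1 - K ≤ p.1
        linarith [hpc.2.1]
      · show p.1 < z.1 - K + (m * K + A)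
        linarith
    have h4 := col_ext h hz' hq hp''
    exact ⟨by linarith [hpc.2.1], by linarith, row_ext h hz' hq hp'', row_ext h hz' hp'' hq⟩
  · have hi : i = m - 1 := by omega
    subst hi
    rw [hcast] at hi1 hi2
    obtain ⟨p', hp', h1, h2⟩ := col_ex h hz (i := m - 2) (by omega)
    have hpc' := mem_ct.1 hp'
    have h3 := col_chain h hz hp' hp (i := m - 2) (j := m - 1) (by omega) (by linarith) h2
      (by rw [hcast]; linarith) (by rw [hcast]; linarith)
    rw [hcast2] at h1 h2
    rw [hcast, hcast2] at h3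
    have h6 : ((m : ℤ) - 1 - (m - 2)) * K = K := by ring
    have h7 : ((m : ℤ) - 1) * K = ((m : ℤ) - 2) * K + K := by ring
    have hp'' : p' ∈ ct P K A B m (z.1 - K, z.2) := by
      rw [mem_ct]
      refine ⟨hpc'.1, ?_, ?_, hpc'.2.2.2.1, hpc'.2.2.2.2⟩
      · show z.1 - K ≤ p'.1
        linarith [hpc'.2.1]
      · show p'.1 < z.1 - K + (m * K + A)
        linarith
    have h4 := col_ext h hz' hq hp''
    obtain ⟨k, hkm, hk1, hk2⟩ := row_slot h hz hp
    obtain ⟨e, he, he1, he2⟩ := row_ex h hz' (i := k) hkm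
    dsimp only at he1 he2
    have heq : e = q := by
      obtain ⟨j, hjm, hj1, hj2⟩ := col_slot h hz' he
      have hec := mem_ct.1 he
      dsimp only at hj1 hj2 hec
      rcases Nat.eq_zero_or_pos j with hj | hj
      · subst hj
        simp only [Nat.cast_zero, zero_mul, add_zero] at hj1 hj2
        exact col_inj h hz' (i := 0) he hq
          (by simp only [Nat.cast_zero, zero_mul, add_zero]; linarith)
          (by simp only [Nat.cast_zero, zero_mul, add_zero]; linarith)
          (by simp only [Nat.cast_zero, zero_mul, add_zero]; linarith)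
          (by simp only [Nat.cast_zero, zero_mul, add_zero]; linarith)
      · exfalso
        have h5 := slot_up hK (a := 1) (b := j) hj
        simp only [Nat.cast_one, one_mul] at h5
        have hez : e ∈ ct P K A B m z := by
          rw [mem_ct]
          exact ⟨hec.1, by linarith, by linarith [hec.2.2.1], hec.2.2.2.1, hec.2.2.2.2⟩
        have h8 := row_inj h hz (i := k) hez hp (by linarith) he2 (by linarith) hk2
        rw [h8] at hec
        linarith [hec.2.2.1]
    rw [heq] at he1 he2
    exact ⟨by linarith, by linarith, by linarith, by linarith⟩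

lemma Tm_of_edge (h : Prc P K A B m) {z : Z2} (hz : Gd P K A B m z)
    (hz' : Gd P K A B m (z.1, z.2 + K)) : Tm P K A B m z := by
  have hK : 0 < K := lt_trans h.A0 h.AK
  have hA := h.A0
  have hB := h.B0
  have hm := h.m2
  have hK1 := K_le hK hm
  have hm1 : (m : ℤ) * K = ((m : ℤ) - 1) * K + K := by ring
  obtain ⟨q, hq, hq1, hq2⟩ := row_ex h hz' (i := m - 1) (by omega)
  have hcast : (((m - 1 : ℕ) : ℤ)) = (m : ℤ) - 1 := by
    rw [Nat.cast_sub (by omega), Nat.cast_one]
  rw [hcast] at hq1 hq2
  have hqc := mem_ct.1 hq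
  dsimp only at hq1 hq2 hqc
  refine ⟨q, hqc.1, fun p hp => ?_⟩
  have hpc := mem_ct.1 hp
  obtain ⟨i, him, hi1, hi2⟩ := row_slot h hz hp
  rcases Nat.eq_zero_or_pos i with hi0 | hi0
  · subst hi0
    simp only [Nat.cast_zero, zero_mul, add_zero] at hi1 hi2
    obtain ⟨p', hp', h1, h2⟩ := row_ex h hz (i := 1) (by omega)
    have hpc' := mem_ct.1 hp'
    have h3 := row_chain h hz hp hp' (i := 0) (j := 1) (by omega)
      (by simp only [Nat.cast_zero, zero_mul, add_zero]; linarith)
      (by simp only [Nat.cast_zero, zero_mul, add_zero]; linarith) (by linarith) h2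
    simp only [Nat.cast_one, Nat.cast_zero, one_mul, sub_zero] at h1 h2 h3
    have hp'' : p' ∈ ct P K A B m (z.1, z.2 + K) := by
      rw [mem_ct]
      refine ⟨hpc'.1, hpc'.2.1, hpc'.2.2.1, ?_, ?_⟩
      · show z.2 + K ≤ p'.2
        linarith
      · show p'.2 < z.2 + K + (m * K + B)
        linarith
    have h4 := row_ext h hz' hp'' hq
    obtain ⟨k, hkm, hk1, hk2⟩ := col_slot h hz hp
    obtain ⟨e, he, he1, he2⟩ := col_ex h hz' (i := k) hkm
    dsimp only at he1 he2
    have heq : e = q := by
      obtain ⟨j, hjm, hj1, hj2⟩ := row_slot h hz' he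
      have hec := mem_ct.1 he
      dsimp only at hj1 hj2 hec
      rcases Nat.lt_or_ge j (m - 1) with hlt | hge
      · exfalso
        have h5 : ((j : ℤ) + 1) * K ≤ ((m : ℤ) - 1) * K := by
          apply mul_le_mul_of_nonneg_right _ hK.le
          have : j + 1 ≤ m - 1 := hlt
          have h6 : ((j + 1 : ℕ) : ℤ) ≤ ((m - 1 : ℕ) : ℤ) := by exact_mod_cast this
          rw [hcast] at h6
          push_cast at h6
          linarith
        have h7 : ((j : ℤ) + 1) * K = j * K + K := by ring
        have hez : e ∈ ct P K A B m z := by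
          rw [mem_ct]
          exact ⟨hec.1, hec.2.1, hec.2.2.1, by linarith, by linarith⟩
        have h8 := col_inj h hz (i := k) hez hp (by linarith) he2 (by linarith) hk2
        rw [h8] at hec
        linarith [hec.2.2.2.1]
      · have hj : j = m - 1 := by omega
        subst hj
        rw [hcast] at hj1 hj2
        exact row_inj h hz' (i := m - 1) he hq (by rw [hcast]; show z.2 + K + _ ≤ _; linarith)
          (by rw [hcast]; show _ < z.2 + K + _ + K; linarith)
          (by rw [hcast]; show z.2 + K + _ ≤ _; linarith)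
          (by rw [hcast]; show _ < z.2 + K + _ + K; linarith)
    rw [heq] at he1 he2
    exact ⟨by linarith, by linarith, by linarith, by linarith⟩
  · have h5 := slot_up hK (a := 1) (b := i) hi0
    simp only [Nat.cast_one, one_mul] at h5
    have hp'' : p ∈ ct P K A B m (z.1, z.2 + K) := by
      rw [mem_ct]
      refine ⟨hpc.1, hpc.2.1, hpc.2.2.1, ?_, ?_⟩
      · show z.2 + K ≤ p.2
        linarith
      · show p.2 < z.2 + K + (m * K + B)
        linarith
    have h4 := row_ext h hz' hp'' hq
    exact ⟨by linarith [hpc.2.2.2.2], by linarith, col_ext h hz' hq hp'', col_ext h hz' hp'' hq⟩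

lemma Bm_of_edge (h : Prc P K A B m) {z : Z2} (hz : Gd P K A B m z)
    (hz' : Gd P K A B m (z.1, z.2 - K)) : Bm P K A B m z := by
  have hK : 0 < K := lt_trans h.A0 h.AK
  have hA := h.A0
  have hB := h.B0
  have hBK := h.BK
  have hm := h.m2
  have hK1 := K_le hK hm
  have hm1 : (m : ℤ) * K = ((m : ℤ) - 1) * K + K := by ring
  obtain ⟨q, hq, hq1, hq2⟩ := row_ex h hz' (i := 0) (by omega)
  simp only [Nat.cast_zero, zero_mul, add_zero] at hq1 hq2
  have hcast : (((m - 1 : ℕ) : ℤ)) = (m : ℤ) - 1 := by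
    rw [Nat.cast_sub (by omega), Nat.cast_one]
  have hcast2 : (((m - 2 : ℕ) : ℤ)) = (m : ℤ) - 2 := by
    rw [Nat.cast_sub hm, Nat.cast_ofNat]
  have hqc := mem_ct.1 hq
  dsimp only at hq1 hq2 hqc
  refine ⟨q, hqc.1, fun p hp => ?_⟩
  have hpc := mem_ct.1 hp
  obtain ⟨i, him, hi1, hi2⟩ := row_slot h hz hp
  rcases Nat.lt_or_ge i (m - 1) with hi0 | hi0
  · have h5 : ((i : ℤ) + 1) * K ≤ ((m : ℤ) - 1) * K := by
      apply mul_le_mul_of_nonneg_right _ hK.le
      have h6 : ((i + 1 : ℕ) : ℤ) ≤ ((m - 1 : ℕ) : ℤ) := by exact_mod_cast hi0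
      rw [hcast] at h6
      push_cast at h6
      linarith
    have h7 : ((i : ℤ) + 1) * K = i * K + K := by ring
    have hp'' : p ∈ ct P K A B m (z.1, z.2 - K) := by
      rw [mem_ct]
      refine ⟨hpc.1, hpc.2.1, hpc.2.2.1, ?_, ?_⟩
      · show z.2 - K ≤ p.2
        linarith [hpc.2.2.2.1]
      · show p.2 < z.2 - K + (m * K + B)
        linarith
    have h4 := row_ext h hz' hq hp''
    exact ⟨by linarith [hpc.2.2.2.1], by linarith, col_ext h hz' hq hp'', col_ext h hz' hp'' hq⟩
  · have hi : i = m - 1 := by omega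
    subst hi
    rw [hcast] at hi1 hi2
    obtain ⟨p', hp', h1, h2⟩ := row_ex h hz (i := m - 2) (by omega)
    have hpc' := mem_ct.1 hp'
    have h3 := row_chain h hz hp' hp (i := m - 2) (j := m - 1) (by omega) (by linarith) h2
      (by rw [hcast]; linarith) (by rw [hcast]; linarith)
    rw [hcast2] at h1 h2
    rw [hcast, hcast2] at h3
    have h6 : ((m : ℤ) - 1 - (m - 2)) * K = K := by ring
    have h7 : ((m : ℤ) - 1) * K = ((m : ℤ) - 2) * K + K := by ring
    have hp'' : p' ∈ ct P K A B m (z.1, z.2 - K) := by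
      rw [mem_ct]
      refine ⟨hpc'.1, hpc'.2.1, hpc'.2.2.1, ?_, ?_⟩
      · show z.2 - K ≤ p'.2
        linarith [hpc'.2.2.2.1]
      · show p'.2 < z.2 - K + (m * K + B)
        linarith
    have h4 := row_ext h hz' hq hp''
    obtain ⟨k, hkm, hk1, hk2⟩ := col_slot h hz hp
    obtain ⟨e, he, he1, he2⟩ := col_ex h hz' (i := k) hkm
    dsimp only at he1 he2
    have heq : e = q := by
      obtain ⟨j, hjm, hj1, hj2⟩ := row_slot h hz' he
      have hec := mem_ct.1 he
      dsimp only at hj1 hj2 hec
      rcases Nat.eq_zero_or_pos j with hj | hj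
      · subst hj
        simp only [Nat.cast_zero, zero_mul, add_zero] at hj1 hj2
        exact row_inj h hz' (i := 0) he hq
          (by simp only [Nat.cast_zero, zero_mul, add_zero]; linarith)
          (by simp only [Nat.cast_zero, zero_mul, add_zero]; linarith)
          (by simp only [Nat.cast_zero, zero_mul, add_zero]; linarith)
          (by simp only [Nat.cast_zero, zero_mul, add_zero]; linarith)
      · exfalso
        have h5 := slot_up hK (a := 1) (b := j) hj
        simp only [Nat.cast_one, one_mul] at h5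
        have hez : e ∈ ct P K A B m z := by
          rw [mem_ct]
          exact ⟨hec.1, hec.2.1, hec.2.2.1, by linarith, by linarith [hec.2.2.2.2]⟩
        have h8 := col_inj h hz (i := k) hez hp (by linarith) he2 (by linarith) hk2
        rw [h8] at hec
        linarith [hec.2.2.2.2]
    rw [heq] at he1 he2
    exact ⟨by linarith, by linarith, by linarith, by linarith⟩

end Prc24
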