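import Pool.Agent.Prc24.Chain

/-!
# Full corners from two neighbours

`NE_of_RhTh`: let `r`, `t` be the two neighbours, `ξ` and `η` the smallest abscissa and ordinate of `M = ct z`.
By `row_slot` all ordinates of `M` are `≥ z.2 + B`, so `η ≥ z.2 + B` and
`r.2 < z.2 + (m K + B) ≤ η + m K`; `r.2 > p.2 + (m - 1) K ≥ η` for some `p ∈ M`; `ξ ≤ z.1 + .. < r.1 ≤ ξ + m K`.
Similarly `ξ < t.1 ≤ ξ + m K`, `η < t.2 ≤ η + m K`.  `r ≠ t` since `t.1 < z.1 + (m K + A) ≤ r.1`; both are not in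
`M`.  So `M`, `r`, `t` are `m + 2` points of the window `(x, y)` for `ξ - A < x ≤ ξ`, `η - B < y ≤ η`.
The others are obtained by reflection (for `SE`: `η` is the largest ordinate of `M`,
`r.2 ≥ z.2 ≥ η - m K` since all ordinates of `M` are `< z.2 + m K`).
-/

namespace Prc24

open Finset Classical

variable {P : Set Z2} {K A B : ℤ} {m : ℕ}

/-- the window contains the content and two more points -/
private lemma two_more {z : Z2} (hz : Gd P K A B m z) {x y : ℤ} {r t : Z2}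
    (hr : r ∈ P) (ht : t ∈ P) (hrM : r ∉ ct P K A B m z) (htM : t ∉ ct P K A B m z) (hrt : r ≠ t)
    (hM : ∀ p ∈ ct P K A B m z, x ≤ p.1 ∧ p.1 < x + (m * K + A) ∧ y ≤ p.2 ∧ p.2 < y + (m * K + B))
    (hr' : x ≤ r.1 ∧ r.1 < x + (m * K + A) ∧ y ≤ r.2 ∧ r.2 < y + (m * K + B))
    (ht' : x ≤ t.1 ∧ t.1 < x + (m * K + A) ∧ y ≤ t.2 ∧ t.2 < y + (m * K + B)) :
    m + 2 ≤ f P K A B m (x, y) := by
  have hsub : insert r (insert t (ct P K A B m z)) ⊆ ct P K A B m (x, y) := by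
    intro p hp
    rw [Finset.mem_insert, Finset.mem_insert] at hp
    rcases hp with rfl | rfl | hp
    · exact mem_ct.2 ⟨hr, hr'⟩
    · exact mem_ct.2 ⟨ht, ht'⟩
    · exact mem_ct.2 ⟨(mem_ct.1 hp).1, hM p hp⟩
  have hc := Finset.card_le_card hsub
  rw [Finset.card_insert_of_notMem, Finset.card_insert_of_notMem htM] at hc
  · have hz' : (ct P K A B m z).card = m := hz
    rw [hz'] at hc
    exact hc
  · rw [Finset.mem_insert]
    rintro (h1 | h1)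
    · exact hrt h1
    · exact hrM h1

/-- the position of the content -/
private lemma pos (h : Prc P K A B m) {z : Z2} (hz : Gd P K A B m z) {p : Z2}
    (hp : p ∈ ct P K A B m z) :
    z.1 + A ≤ p.1 ∧ p.1 < z.1 + m * K ∧ z.2 + B ≤ p.2 ∧ p.2 < z.2 + m * K := by
  have hK : 0 < K := h.A0.trans h.AK
  obtain ⟨i, hi, h1, h2⟩ := row_slot h hz hp
  obtain ⟨j, hj, h3, h4⟩ := col_slot h hz hp
  have a1 : (0 : ℤ) ≤ i * K := by positivity
  have a2 : (0 : ℤ) ≤ j * K := by positivity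
  have a3 : ((i : ℤ) + 1) * K ≤ m * K := by
    apply mul_le_mul_of_nonneg_right _ hK.le
    exact_mod_cast hi
  have a4 : ((j : ℤ) + 1) * K ≤ m * K := by
    apply mul_le_mul_of_nonneg_right _ hK.le
    exact_mod_cast hj
  rw [add_mul, one_mul] at a3 a4
  refine ⟨?_, ?_, ?_, ?_⟩ <;> linarith

private lemma ne_ct (h : Prc P K A B m) {z : Z2} (hz : Gd P K A B m z) :
    (ct P K A B m z).Nonempty := by
  rw [← Finset.card_pos]
  have hz' : (ct P K A B m z).card = m := hz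
  rw [hz']
  have := h.m2
  omega

private lemma mK_pos (h : Prc P K A B m) : K ≤ (m : ℤ) * K ∧ ((m : ℤ) - 1) * K = m * K - K := by
  have hK : 0 < K := h.A0.trans h.AK
  have h2 : (1 : ℤ) ≤ m := by
    have := h.m2
    exact_mod_cast (by omega : 1 ≤ m)
  refine ⟨?_, by ring⟩
  have := mul_le_mul_of_nonneg_right h2 hK.le
  rwa [one_mul] at this

lemma NE_of_RhTh (h : Prc P K A B m) {z : Z2} (hz : Gd P K A B m z) (h1 : Rh P K A B m z)
    (h2 : Th P K A B m z) : NE P K A B m (ct P K A B m z) := by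
  obtain ⟨r, ⟨hrP, hr1, hr2, hr3, hr4⟩, p, hp, hpr⟩ := h1
  obtain ⟨t, ⟨htP, ht1, ht2, ht3, ht4⟩, q, hq, hqt⟩ := h2
  obtain ⟨p0, hp0, hmin0⟩ := Finset.exists_min_image _ (fun p : Z2 => p.1) (ne_ct h hz)
  obtain ⟨p1, hp1, hmin1⟩ := Finset.exists_min_image _ (fun p : Z2 => p.2) (ne_ct h hz)
  obtain ⟨hm1, hm2⟩ := mK_pos h
  have hK : 0 < K := h.A0.trans h.AK
  rw [hm2] at hpr hqt
  refine ⟨p0.1, p1.2, fun p hp => ⟨hmin0 p hp, col_ext h hz hp0 hp, hmin1 p hp,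
    row_ext h hz hp1 hp⟩, fun x y hx1 hx2 hy1 hy2 => ?_⟩
  have b0 := pos h hz hp0
  have b1 := pos h hz hp1
  have bp := hmin1 p hp
  have bq := hmin0 q hq
  have c1 := hr2 p0 hp0
  have c2 := ht2 p1 hp1
  have hA := h.A0
  have hB := h.B0
  refine two_more hz (x := x) (y := y) hrP htP (fun h3 => ?_) (fun h3 => ?_) (fun h3 => ?_)
    (fun p' hp' => ?_) ⟨?_, ?_, ?_, ?_⟩ ⟨?_, ?_, ?_, ?_⟩
  · have := (mem_ct.1 h3).2.2.1
    linarith
  · have := (mem_ct.1 h3).2.2.2.2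
    linarith
  · rw [h3] at hr1
    linarith
  · have d1 := hmin0 p' hp'
    have d2 := hmin1 p' hp'
    have d3 := col_ext h hz hp0 hp'
    have d4 := row_ext h hz hp1 hp'
    rw [hm2] at d3 d4
    refine ⟨?_, ?_, ?_, ?_⟩ <;> linarith
  all_goals linarith

lemma SE_of_RlBh (h : Prc P K A B m) {z : Z2} (hz : Gd P K A B m z) (h1 : Rl P K A B m z)
    (h2 : Bh P K A B m z) : SE P K A B m (ct P K A B m z) := by
  obtain ⟨r, ⟨hrP, hr1, hr2, hr3, hr4⟩, p, hp, hpr⟩ := h1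
  obtain ⟨t, ⟨htP, ht1, ht2, ht3, ht4⟩, q, hq, hqt⟩ := h2
  obtain ⟨p0, hp0, hmin0⟩ := Finset.exists_min_image _ (fun p : Z2 => p.1) (ne_ct h hz)
  obtain ⟨p1, hp1, hmax1⟩ := Finset.exists_max_image _ (fun p : Z2 => p.2) (ne_ct h hz)
  obtain ⟨hm1, hm2⟩ := mK_pos h
  have hK : 0 < K := h.A0.trans h.AK
  rw [hm2] at hpr hqt
  refine ⟨p0.1, p1.2, fun p hp => ⟨hmin0 p hp, col_ext h hz hp0 hp, hmax1 p hp,
    row_ext h hz hp hp1⟩, fun x y hx1 hx2 hy1 hy2 => ?_⟩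
  have b0 := pos h hz hp0
  have b1 := pos h hz hp1
  have bp := hmax1 p hp
  have bq := hmin0 q hq
  have c1 := hr2 p0 hp0
  have c2 := ht2 p1 hp1
  have hA := h.A0
  have hB := h.B0
  refine two_more hz (x := x) (y := y) hrP htP (fun h3 => ?_) (fun h3 => ?_) (fun h3 => ?_)
    (fun p' hp' => ?_) ⟨?_, ?_, ?_, ?_⟩ ⟨?_, ?_, ?_, ?_⟩
  · have := (mem_ct.1 h3).2.2.1
    linarith
  · have := (mem_ct.1 h3).2.2.2.1
    linarith
  · rw [h3] at hr1
    linarith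
  · have d1 := hmin0 p' hp'
    have d2 := hmax1 p' hp'
    have d3 := col_ext h hz hp0 hp'
    have d4 := row_ext h hz hp' hp1
    rw [hm2] at d3 d4
    refine ⟨?_, ?_, ?_, ?_⟩ <;> linarith
  all_goals linarith

lemma NW_of_LhTl (h : Prc P K A B m) {z : Z2} (hz : Gd P K A B m z) (h1 : Lh P K A B m z)
    (h2 : Tl P K A B m z) : NW P K A B m (ct P K A B m z) := by
  obtain ⟨r, ⟨hrP, hr1, hr2, hr3, hr4⟩, p, hp, hpr⟩ := h1
  obtain ⟨t, ⟨htP, ht1, ht2, ht3, ht4⟩, q, hq, hqt⟩ := h2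
  obtain ⟨p0, hp0, hmax0⟩ := Finset.exists_max_image _ (fun p : Z2 => p.1) (ne_ct h hz)
  obtain ⟨p1, hp1, hmin1⟩ := Finset.exists_min_image _ (fun p : Z2 => p.2) (ne_ct h hz)
  obtain ⟨hm1, hm2⟩ := mK_pos h
  have hK : 0 < K := h.A0.trans h.AK
  rw [hm2] at hpr hqt
  refine ⟨p0.1, p1.2, fun p hp => ⟨hmax0 p hp, col_ext h hz hp hp0, hmin1 p hp,
    row_ext h hz hp1 hp⟩, fun x y hx1 hx2 hy1 hy2 => ?_⟩
  have b0 := pos h hz hp0
  have b1 := pos h hz hp1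
  have bp := hmin1 p hp
  have bq := hmax0 q hq
  have c1 := hr2 p0 hp0
  have c2 := ht2 p1 hp1
  have hA := h.A0
  have hB := h.B0
  refine two_more hz (x := x) (y := y) hrP htP (fun h3 => ?_) (fun h3 => ?_) (fun h3 => ?_)
    (fun p' hp' => ?_) ⟨?_, ?_, ?_, ?_⟩ ⟨?_, ?_, ?_, ?_⟩
  · have := (mem_ct.1 h3).2.1
    linarith
  · have := (mem_ct.1 h3).2.2.2.2
    linarith
  · rw [h3] at hr1
    linarith
  · have d1 := hmax0 p' hp'
    have d2 := hmin1 p' hp'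
    have d3 := col_ext h hz hp' hp0
    have d4 := row_ext h hz hp1 hp'
    rw [hm2] at d3 d4
    refine ⟨?_, ?_, ?_, ?_⟩ <;> linarith
  all_goals linarith

lemma SW_of_LlBl (h : Prc P K A B m) {z : Z2} (hz : Gd P K A B m z) (h1 : Ll P K A B m z)
    (h2 : Bl P K A B m z) : SW P K A B m (ct P K A B m z) := by
  obtain ⟨r, ⟨hrP, hr1, hr2, hr3, hr4⟩, p, hp, hpr⟩ := h1
  obtain ⟨t, ⟨htP, ht1, ht2, ht3, ht4⟩, q, hq, hqt⟩ := h2
  obtain ⟨p0, hp0, hmax0⟩ := Finset.exists_max_image _ (fun p : Z2 => p.1) (ne_ct h hz)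
  obtain ⟨p1, hp1, hmax1⟩ := Finset.exists_max_image _ (fun p : Z2 => p.2) (ne_ct h hz)
  obtain ⟨hm1, hm2⟩ := mK_pos h
  have hK : 0 < K := h.A0.trans h.AK
  rw [hm2] at hpr hqt
  refine ⟨p0.1, p1.2, fun p hp => ⟨hmax0 p hp, col_ext h hz hp hp0, hmax1 p hp,
    row_ext h hz hp hp1⟩, fun x y hx1 hx2 hy1 hy2 => ?_⟩
  have b0 := pos h hz hp0
  have b1 := pos h hz hp1
  have bp := hmax1 p hp
  have bq := hmax0 q hq
  have c1 := hr2 p0 hp0
  have c2 := ht2 p1 hp1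
  have hA := h.A0
  have hB := h.B0
  refine two_more hz (x := x) (y := y) hrP htP (fun h3 => ?_) (fun h3 => ?_) (fun h3 => ?_)
    (fun p' hp' => ?_) ⟨?_, ?_, ?_, ?_⟩ ⟨?_, ?_, ?_, ?_⟩
  · have := (mem_ct.1 h3).2.1
    linarith
  · have := (mem_ct.1 h3).2.2.2.1
    linarith
  · rw [h3] at hr1
    linarith
  · have d1 := hmax0 p' hp'
    have d2 := hmax1 p' hp'
    have d3 := col_ext h hz hp' hp0
    have d4 := row_ext h hz hp' hp1
    rw [hm2] at d3 d4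
    refine ⟨?_, ?_, ?_, ?_⟩ <;> linarith
  all_goals linarith

end Prc24
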