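import Pool.Agent.Prc24.Chain

/-!
# Full corners from a fitting neighbour above or below

`NE_of_Tm`: let `q` be the point of `Tm`, `M = ct z` (not empty, `m` points), `η` the smallest ordinate of `M`,
`ξ` the smaller one of `q.1` and the smallest abscissa of `M`.  The inequalities on `M` follow from `col_ext`,
`row_ext` and `Tm`.  Let `ξ - A < x ≤ ξ`, `η - B < y ≤ η`.  All points of `M` and `q` have ordinate in
`[η, η + m K]` and abscissa in `[ξ, ξ + (m - 1) K]`, so they lie in the window `(x, y)`.  Let `X1 ≤ ξ + (m-1) K`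
be the largest of the abscissae of `M` and of `q.1`; `h.ver (X1 + 1) y` gives a point `e` with
`X1 < e.1 ≤ X1 + K ≤ ξ + m K < x + (m K + A)` and `y ≤ e.2 < y + (m K + B)`.  So the window contains `m + 2`
points (`M`, `q`, `e`).  The other three statements are obtained by reflections.
-/

namespace Prc24

open Finset Classical

variable {P : Set Z2} {K A B : ℤ} {m : ℕ}

private lemma fm2_right (h : Prc P K A B m) (N : Finset Z2) (hN : N.card = m + 1)
    (hP : ∀ p ∈ N, p ∈ P) (ξ x y : ℤ) (h1 : ∀ p ∈ N, ξ ≤ p.1 ∧ p.1 ≤ ξ + (m - 1) * K)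
    (h2 : ∀ p ∈ N, y ≤ p.2 ∧ p.2 < y + (m * K + B)) (hx : ξ - A < x) (hx' : x ≤ ξ) :
    m + 2 ≤ f P K A B m (x, y) := by
  have hA := h.A0
  have hK : 0 < K := lt_trans h.A0 h.AK
  have hne : N.Nonempty := Finset.card_pos.1 (by omega)
  obtain ⟨a, haN, hamax⟩ := N.exists_max_image (fun p => p.1) hne
  obtain ⟨e, heP, he1, he2, he3, he4⟩ := h.ver (a.1 + 1) y
  have hmK : ((m : ℤ) - 1) * K = m * K - K := by ring
  have heN : e ∉ N := by
    intro hc
    have := hamax e hc
    omega
  have hsub : insert e N ⊆ ct P K A B m (x, y) := by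
    intro p hp
    rw [mem_ct]
    rcases Finset.mem_insert.1 hp with hpe | hpN
    · subst hpe
      have h3 := (h1 a haN).1
      have h4 := (h1 a haN).2
      rw [hmK] at h4
      refine ⟨heP, ?_, ?_, he3, he4⟩
      · show x ≤ p.1
        linarith
      · show p.1 < x + (m * K + A)
        have : p.1 ≤ a.1 + K := by omega
        linarith
    · have h3 := h1 p hpN
      rw [hmK] at h3
      have h4 := h2 p hpN
      refine ⟨hP p hpN, ?_, ?_, h4.1, h4.2⟩
      · show x ≤ p.1
        linarith [h3.1]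
      · show p.1 < x + (m * K + A)
        linarith [h3.2]
  have h5 := Finset.card_le_card hsub
  rw [Finset.card_insert_of_notMem heN, hN] at h5
  exact h5

private lemma fm2_left (h : Prc P K A B m) (N : Finset Z2) (hN : N.card = m + 1)
    (hP : ∀ p ∈ N, p ∈ P) (ξ x y : ℤ) (h1 : ∀ p ∈ N, p.1 ≤ ξ ∧ ξ ≤ p.1 + (m - 1) * K)
    (h2 : ∀ p ∈ N, y ≤ p.2 ∧ p.2 < y + (m * K + B)) (hx : ξ - m * K - A < x)
    (hx' : x ≤ ξ - m * K) : m + 2 ≤ f P K A B m (x, y) := by
  have hA := h.A0
  have hK : 0 < K := lt_trans h.A0 h.AK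
  have hne : N.Nonempty := Finset.card_pos.1 (by omega)
  obtain ⟨a, haN, hamin⟩ := N.exists_min_image (fun p => p.1) hne
  obtain ⟨e, heP, he1, he2, he3, he4⟩ := h.ver (a.1 - K) y
  have hmK : ((m : ℤ) - 1) * K = m * K - K := by ring
  have heN : e ∉ N := by
    intro hc
    have := hamin e hc
    linarith
  have hsub : insert e N ⊆ ct P K A B m (x, y) := by
    intro p hp
    rw [mem_ct]
    rcases Finset.mem_insert.1 hp with hpe | hpN
    · subst hpe
      have h3 := (h1 a haN).1
      have h4 := (h1 a haN).2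
      rw [hmK] at h4
      refine ⟨heP, ?_, ?_, he3, he4⟩
      · show x ≤ p.1
        linarith
      · show p.1 < x + (m * K + A)
        linarith
    · have h3 := h1 p hpN
      rw [hmK] at h3
      have h4 := h2 p hpN
      refine ⟨hP p hpN, ?_, ?_, h4.1, h4.2⟩
      · show x ≤ p.1
        linarith [h3.2]
      · show p.1 < x + (m * K + A)
        linarith [h3.1]
  have h5 := Finset.card_le_card hsub
  rw [Finset.card_insert_of_notMem heN, hN] at h5
  exact h5

private lemma fm2_ne (h : Prc P K A B m) {z : Z2} (hz : Gd P K A B m z) :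
    (ct P K A B m z).Nonempty := by
  have h1 : (ct P K A B m z).card = m := hz
  have h2 := h.m2
  exact Finset.card_pos.1 (by omega)

/-- two points of `insert q M` have abscissae at distance at most `(m - 1) K` -/
private lemma fm2_pair (h : Prc P K A B m) {z q : Z2} (hz : Gd P K A B m z)
    (hq : ∀ p ∈ ct P K A B m z, p.1 ≤ q.1 + (m - 1) * K ∧ q.1 ≤ p.1 + (m - 1) * K)
    {a b : Z2} (ha : a ∈ insert q (ct P K A B m z)) (hb : b ∈ insert q (ct P K A B m z)) :
    a.1 ≤ b.1 + (m - 1) * K := by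
  have hK : 0 < K := lt_trans h.A0 h.AK
  have hm : (0 : ℤ) ≤ (m - 1) * K := by
    apply mul_nonneg _ hK.le
    have := h.m2
    have h3 : (2 : ℤ) ≤ m := by exact_mod_cast this
    linarith
  rcases Finset.mem_insert.1 ha with ha | ha <;> rcases Finset.mem_insert.1 hb with hb | hb
  · rw [ha, hb]
    linarith
  · rw [ha]
    exact (hq b hb).2
  · rw [hb]
    exact (hq a ha).1
  · exact col_ext h hz hb ha

private lemma fm2_card (h : Prc P K A B m) {z q : Z2} (hz : Gd P K A B m z)
    (hq : q ∉ ct P K A B m z) : (insert q (ct P K A B m z)).card = m + 1 := by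
  rw [Finset.card_insert_of_notMem hq]
  have h1 : (ct P K A B m z).card = m := hz
  omega

private lemma fm2_P {z q : Z2} (hq : q ∈ P) : ∀ p ∈ insert q (ct P K A B m z), p ∈ P := by
  intro p hp
  rcases Finset.mem_insert.1 hp with hp | hp
  · rw [hp]
    exact hq
  · exact (mem_ct.1 hp).1

lemma NE_of_Tm (h : Prc P K A B m) {z : Z2} (hz : Gd P K A B m z) (hm : Tm P K A B m z) :
    NE P K A B m (ct P K A B m z) := by
  obtain ⟨q, hqP, hq⟩ := hm
  have hK : 0 < K := lt_trans h.A0 h.AK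
  have hmK : ((m : ℤ) - 1) * K = m * K - K := by ring
  have hqM : q ∉ ct P K A B m z := fun hc => lt_irrefl _ (hq q hc).1
  obtain ⟨b, hbM, hb⟩ := (ct P K A B m z).exists_min_image (fun p => p.2) (fm2_ne h hz)
  obtain ⟨a, haN, ha⟩ := (insert q (ct P K A B m z)).exists_min_image (fun p => p.1)
    (Finset.insert_nonempty _ _)
  have hpair := fun {c d : Z2} => fm2_pair (a := c) (b := d) h hz (fun p hp => ⟨(hq p hp).2.2.1, (hq p hp).2.2.2⟩)
  refine ⟨a.1, b.2, fun p hp => ⟨ha p (Finset.mem_insert_of_mem hp),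
    hpair (Finset.mem_insert_of_mem hp) haN, hb p hp, row_ext h hz hbM hp⟩, ?_⟩
  intro x y hx hx' hy hy'
  refine fm2_right h _ (fm2_card h hz hqM) (fm2_P hqP) a.1 x y
    (fun p hp => ⟨ha p hp, hpair hp haN⟩) ?_ hx hx'
  intro p hp
  rcases Finset.mem_insert.1 hp with hp | hp
  · rw [hp]
    have h1 := hq b hbM
    exact ⟨by linarith [h1.1], by linarith [h1.2.1]⟩
  · have h1 := hb p hp
    have h2 := row_ext h hz hbM hp
    rw [hmK] at h2
    exact ⟨by linarith, by linarith⟩

lemma NW_of_Tm (h : Prc P K A B m) {z : Z2} (hz : Gd P K A B m z) (hm : Tm P K A B m z) :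
    NW P K A B m (ct P K A B m z) := by
  obtain ⟨q, hqP, hq⟩ := hm
  have hK : 0 < K := lt_trans h.A0 h.AK
  have hmK : ((m : ℤ) - 1) * K = m * K - K := by ring
  have hqM : q ∉ ct P K A B m z := fun hc => lt_irrefl _ (hq q hc).1
  obtain ⟨b, hbM, hb⟩ := (ct P K A B m z).exists_min_image (fun p => p.2) (fm2_ne h hz)
  obtain ⟨a, haN, ha⟩ := (insert q (ct P K A B m z)).exists_max_image (fun p => p.1)
    (Finset.insert_nonempty _ _)
  have hpair := fun {c d : Z2} => fm2_pair (a := c) (b := d) h hz (fun p hp => ⟨(hq p hp).2.2.1, (hq p hp).2.2.2⟩)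
  refine ⟨a.1, b.2, fun p hp => ⟨ha p (Finset.mem_insert_of_mem hp),
    hpair haN (Finset.mem_insert_of_mem hp), hb p hp, row_ext h hz hbM hp⟩, ?_⟩
  intro x y hx hx' hy hy'
  refine fm2_left h _ (fm2_card h hz hqM) (fm2_P hqP) a.1 x y
    (fun p hp => ⟨ha p hp, hpair haN hp⟩) ?_ hx hx'
  intro p hp
  rcases Finset.mem_insert.1 hp with hp | hp
  · rw [hp]
    have h1 := hq b hbM
    exact ⟨by linarith [h1.1], by linarith [h1.2.1]⟩
  · have h1 := hb p hp
    have h2 := row_ext h hz hbM hp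
    rw [hmK] at h2
    exact ⟨by linarith, by linarith⟩

lemma SE_of_Bm (h : Prc P K A B m) {z : Z2} (hz : Gd P K A B m z) (hm : Bm P K A B m z) :
    SE P K A B m (ct P K A B m z) := by
  obtain ⟨q, hqP, hq⟩ := hm
  have hK : 0 < K := lt_trans h.A0 h.AK
  have hB := h.B0
  have hmK : ((m : ℤ) - 1) * K = m * K - K := by ring
  have hqM : q ∉ ct P K A B m z := fun hc => lt_irrefl _ (hq q hc).1
  obtain ⟨b, hbM, hb⟩ := (ct P K A B m z).exists_max_image (fun p => p.2) (fm2_ne h hz)
  obtain ⟨a, haN, ha⟩ := (insert q (ct P K A B m z)).exists_min_image (fun p => p.1)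
    (Finset.insert_nonempty _ _)
  have hpair := fun {c d : Z2} => fm2_pair (a := c) (b := d) h hz (fun p hp => ⟨(hq p hp).2.2.1, (hq p hp).2.2.2⟩)
  refine ⟨a.1, b.2, fun p hp => ⟨ha p (Finset.mem_insert_of_mem hp),
    hpair (Finset.mem_insert_of_mem hp) haN, hb p hp, row_ext h hz hp hbM⟩, ?_⟩
  intro x y hx hx' hy hy'
  refine fm2_right h _ (fm2_card h hz hqM) (fm2_P hqP) a.1 x y
    (fun p hp => ⟨ha p hp, hpair hp haN⟩) ?_ hx hx'
  intro p hp
  rcases Finset.mem_insert.1 hp with hp | hp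
  · rw [hp]
    have h1 := hq b hbM
    exact ⟨by linarith [h1.2.1], by linarith [h1.1]⟩
  · have h1 := hb p hp
    have h2 := row_ext h hz hp hbM
    rw [hmK] at h2
    exact ⟨by linarith, by linarith⟩

lemma SW_of_Bm (h : Prc P K A B m) {z : Z2} (hz : Gd P K A B m z) (hm : Bm P K A B m z) :
    SW P K A B m (ct P K A B m z) := by
  obtain ⟨q, hqP, hq⟩ := hm
  have hK : 0 < K := lt_trans h.A0 h.AK
  have hB := h.B0
  have hmK : ((m : ℤ) - 1) * K = m * K - K := by ring
  have hqM : q ∉ ct P K A B m z := fun hc => lt_irrefl _ (hq q hc).1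
  obtain ⟨b, hbM, hb⟩ := (ct P K A B m z).exists_max_image (fun p => p.2) (fm2_ne h hz)
  obtain ⟨a, haN, ha⟩ := (insert q (ct P K A B m z)).exists_max_image (fun p => p.1)
    (Finset.insert_nonempty _ _)
  have hpair := fun {c d : Z2} => fm2_pair (a := c) (b := d) h hz (fun p hp => ⟨(hq p hp).2.2.1, (hq p hp).2.2.2⟩)
  refine ⟨a.1, b.2, fun p hp => ⟨ha p (Finset.mem_insert_of_mem hp),
    hpair haN (Finset.mem_insert_of_mem hp), hb p hp, row_ext h hz hp hbM⟩, ?_⟩
  intro x y hx hx' hy hy'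
  refine fm2_left h _ (fm2_card h hz hqM) (fm2_P hqP) a.1 x y
    (fun p hp => ⟨ha p hp, hpair haN hp⟩) ?_ hx hx'
  intro p hp
  rcases Finset.mem_insert.1 hp with hp | hp
  · rw [hp]
    have h1 := hq b hbM
    exact ⟨by linarith [h1.2.1], by linarith [h1.1]⟩
  · have h1 := hb p hp
    have h2 := row_ext h hz hp hbM
    rw [hmK] at h2
    exact ⟨by linarith, by linarith⟩

end Prc24
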