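import Pool.Agent.Prc24.Chain

/-!
# Windows sharing a point: the neighbours are not too far

`not_Rh`: `z` and `z' = (z.1 + i K, z.2 + j K)`, `i, j ≥ 1`, are good and share the point `p`.  Let `r` be a right
neighbour of `z` and let `q ∈ ct z`; we show `r.2 ≤ q.2 + (m - 1) K`.  `i, j ≤ m - 1` because of `p`
(`z.1 + i K + A ≤ p.1 < z.1 + m K` by the column slots).  If `r.2 < z.2 + j K`: `q.2 ≥ z.2 + B`,
so `r.2 < z.2 + (m - 1) K + B ≤ q.2 + (m - 1) K`.  Otherwise `r ∈ ct z'` (`r.1 ≥ z.1 + m K + A ≥ z'.1`,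
`r.1 ≤ p0.1 + m K < z.1 + K + m K ≤ z'.1 + m K + A` where `p0` is the point of `ct z` in column slot `0`;
`r.2 < z.2 + m K + B ≤ z'.2 + m K + B`).  Let `ρ` be the row slot of `r` in `z'`; since
`r.2 < z.2 + m K + B`, `j + ρ ≤ m - 1`.  Let `k'` be the row slot of `p` in `z'` and `k` its row slot in `z`; then
`k = j + k'`.  If `k' ≤ ρ`, then `r.2 ≤ p.2 + (ρ - k') K` (`row_chain` in `z'`); if `ρ < k'` then `r.2 < p.2`.
And `p.2 ≤ q.2 + k K` (`row_chain` in `z` if the slot of `q` is `≤ k`, otherwise `p.2 < q.2`).  In both cases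
`r.2 ≤ q.2 + (m - 1) K`.  The other seven statements follow by reflections and exchange of the coordinates.
-/

namespace Prc24

open Finset Classical

variable {P : Set Z2} {K A B : ℤ} {m : ℕ}

private lemma jp_le (hK : 0 < K) {a b : ℕ} (h : a ≤ b) : (a : ℤ) * K ≤ b * K := by
  apply mul_le_mul_of_nonneg_right _ hK.le
  exact_mod_cast h

private lemma jp_lt (hK : 0 < K) {a b : ℕ} (h : (a : ℤ) * K < b * K) : a < b := by
  by_contra hcon
  rw [not_lt] at hcon
  have := jp_le hK hcon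
  linarith

private lemma jp_succ (hK : 0 < K) {a b : ℕ} (h : a < b) : (a : ℤ) * K + K ≤ b * K := by
  have := jp_le hK (Nat.succ_le_of_lt h)
  push_cast at this
  linarith

lemma not_Rh_NE (h : Prc P K A B m) {z p : Z2} (hz : Gd P K A B m z) (hp : p ∈ ct P K A B m z)
    {i j : ℕ} (hi : 1 ≤ i) (hj : 1 ≤ j) (hz' : GI P K A B m (z.1 + i * K, z.2 + j * K) p) :
    ¬ Rh P K A B m z := by
  rintro ⟨r, ⟨hrP, hr1, hr2, hr3, hr4⟩, q, hq, hlt⟩
  have hK : 0 < K := lt_trans h.A0 h.AK
  have hA := h.A0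
  have hB := h.B0
  obtain ⟨hg', hp'⟩ := hz'
  obtain ⟨kc, hkc, hkc1, hkc2⟩ := col_slot h hz hp
  obtain ⟨kc', hkc', hkc1', hkc2'⟩ := col_slot h hg' hp'
  obtain ⟨kr, hkr, hkr1, hkr2⟩ := row_slot h hz hp
  obtain ⟨k', hk', hk1', hk2'⟩ := row_slot h hg' hp'
  obtain ⟨κ, hκ, hκ1, hκ2⟩ := row_slot h hz hq
  obtain ⟨p0, hp0, hp01, hp02⟩ := col_ex h hz (i := 0) (by have := h.m2; omega)
  simp only at hkc1' hkc2' hk1' hk2'
  have e0 : ((0 : ℕ) : ℤ) * K = 0 := by simp
  have c1 : (0 : ℤ) ≤ (kc' : ℤ) * K := by positivity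
  have c2 : (0 : ℤ) ≤ (k' : ℤ) * K := by positivity
  have c3 : (0 : ℤ) ≤ (κ : ℤ) * K := by positivity
  have c4 := jp_succ hK hkc
  have c5 := jp_succ hK hkr
  have him : i < m := jp_lt hK (by linarith)
  have hjm : j < m := jp_lt hK (by linarith)
  have hjk : j + k' < m := jp_lt hK (by push_cast; linarith)
  have c6 := jp_succ hK him
  have c7 := jp_succ hK hjm
  have c8 := jp_succ hK hjk
  push_cast at c8
  have c9 : K ≤ (i : ℤ) * K := by
    have := jp_le hK hi
    push_cast at this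
    linarith
  have c10 : K ≤ (j : ℤ) * K := by
    have := jp_le hK hj
    push_cast at this
    linarith
  have hm1 : ((m : ℤ) - 1) * K = m * K - K := by ring
  rw [hm1] at hlt
  have hr5 := hr2 p0 hp0
  rw [e0] at hp01 hp02
  rcases lt_or_ge r.2 (z.2 + j * K) with hc | hc
  · linarith
  have hrc : r ∈ ct P K A B m (z.1 + i * K, z.2 + j * K) := by
    rw [mem_ct]
    refine ⟨hrP, ?_, ?_, ?_, ?_⟩ <;> simp only <;> linarith
  obtain ⟨ρ, hρ, hρ1, hρ2⟩ := row_slot h hg' hrc
  simp only at hρ1 hρ2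
  have hjρ : j + ρ < m := jp_lt hK (by push_cast; linarith)
  have c11 := jp_succ hK hjρ
  push_cast at c11
  have hrp : r.2 ≤ p.2 ∨ (k' ≤ ρ ∧ r.2 ≤ p.2 + (ρ * K - k' * K)) := by
    rcases le_or_gt k' ρ with h1 | h1
    · right
      refine ⟨h1, ?_⟩
      have h2 := row_chain h hg' hp' hrc h1 (by simp only; linarith) (by simp only; linarith)
        (by simp only; linarith) (by simp only; linarith)
      linarith
    · left
      have h2 := jp_succ hK h1
      linarith
  have hpq : p.2 ≤ q.2 ∨ p.2 ≤ q.2 + (j * K + k' * K) := by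
    rcases le_or_gt κ (j + k') with h1 | h1
    · right
      have h2 := row_chain h hz hq hp h1 (by linarith) (by linarith)
        (by push_cast; linarith) (by push_cast; linarith)
      push_cast at h2
      linarith
    · left
      have h2 := jp_succ hK h1
      push_cast at h2
      linarith
  rcases hrp with h1 | ⟨h1, h2⟩
  · rcases hpq with h3 | h3 <;> linarith
  · have h4 := jp_le hK h1
    rcases hpq with h3 | h3 <;> linarith

lemma not_Th_NE (h : Prc P K A B m) {z p : Z2} (hz : Gd P K A B m z) (hp : p ∈ ct P K A B m z)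
    {i j : ℕ} (hi : 1 ≤ i) (hj : 1 ≤ j) (hz' : GI P K A B m (z.1 + i * K, z.2 + j * K) p) :
    ¬ Th P K A B m z := by
  rintro ⟨r, ⟨hrP, hr1, hr2, hr3, hr4⟩, q, hq, hlt⟩
  have hK : 0 < K := lt_trans h.A0 h.AK
  have hA := h.A0
  have hB := h.B0
  obtain ⟨hg', hp'⟩ := hz'
  obtain ⟨kc, hkc, hkc1, hkc2⟩ := row_slot h hz hp
  obtain ⟨kc', hkc', hkc1', hkc2'⟩ := row_slot h hg' hp'
  obtain ⟨kr, hkr, hkr1, hkr2⟩ := col_slot h hz hp
  obtain ⟨k', hk', hk1', hk2'⟩ := col_slot h hg' hp'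
  obtain ⟨κ, hκ, hκ1, hκ2⟩ := col_slot h hz hq
  obtain ⟨p0, hp0, hp01, hp02⟩ := row_ex h hz (i := 0) (by have := h.m2; omega)
  simp only at hkc1' hkc2' hk1' hk2'
  have e0 : ((0 : ℕ) : ℤ) * K = 0 := by simp
  have c1 : (0 : ℤ) ≤ (kc' : ℤ) * K := by positivity
  have c2 : (0 : ℤ) ≤ (k' : ℤ) * K := by positivity
  have c3 : (0 : ℤ) ≤ (κ : ℤ) * K := by positivity
  have c4 := jp_succ hK hkc
  have c5 := jp_succ hK hkr
  have hjm : j < m := jp_lt hK (by linarith)
  have him : i < m := jp_lt hK (by linarith)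
  have hik : i + k' < m := jp_lt hK (by push_cast; linarith)
  have c6 := jp_succ hK him
  have c7 := jp_succ hK hjm
  have c8 := jp_succ hK hik
  push_cast at c8
  have c9 : K ≤ (i : ℤ) * K := by
    have := jp_le hK hi
    push_cast at this
    linarith
  have c10 : K ≤ (j : ℤ) * K := by
    have := jp_le hK hj
    push_cast at this
    linarith
  have hm1 : ((m : ℤ) - 1) * K = m * K - K := by ring
  rw [hm1] at hlt
  have hr5 := hr2 p0 hp0
  rw [e0] at hp01 hp02
  rcases lt_or_ge r.1 (z.1 + i * K) with hc | hc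
  · linarith
  have hrc : r ∈ ct P K A B m (z.1 + i * K, z.2 + j * K) := by
    rw [mem_ct]
    refine ⟨hrP, ?_, ?_, ?_, ?_⟩ <;> simp only <;> linarith
  obtain ⟨ρ, hρ, hρ1, hρ2⟩ := col_slot h hg' hrc
  simp only at hρ1 hρ2
  have hiρ : i + ρ < m := jp_lt hK (by push_cast; linarith)
  have c11 := jp_succ hK hiρ
  push_cast at c11
  have hrp : r.1 ≤ p.1 ∨ (k' ≤ ρ ∧ r.1 ≤ p.1 + (ρ * K - k' * K)) := by
    rcases le_or_gt k' ρ with h1 | h1
    · right
      refine ⟨h1, ?_⟩
      have h2 := col_chain h hg' hp' hrc h1 (by simp only; linarith) (by simp only; linarith)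
        (by simp only; linarith) (by simp only; linarith)
      linarith
    · left
      have h2 := jp_succ hK h1
      linarith
  have hpq : p.1 ≤ q.1 ∨ p.1 ≤ q.1 + (i * K + k' * K) := by
    rcases le_or_gt κ (i + k') with h1 | h1
    · right
      have h2 := col_chain h hz hq hp h1 (by linarith) (by linarith)
        (by push_cast; linarith) (by push_cast; linarith)
      push_cast at h2
      linarith
    · left
      have h2 := jp_succ hK h1
      push_cast at h2
      linarith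
  rcases hrp with h1 | ⟨h1, h2⟩
  · rcases hpq with h3 | h3 <;> linarith
  · have h4 := jp_le hK h1
    rcases hpq with h3 | h3 <;> linarith

end Prc24
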