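import Pool.Agent.Prc24.Chain

/-!
# Windows sharing a point, reflected versions (south)

See `Jump`.
-/

namespace Prc24

open Finset Classical

variable {P : Set Z2} {K A B : ℤ} {m : ℕ}

private lemma mulK3 {K : ℤ} (hK : 0 < K) {a b : ℤ} (h : a ≤ b) : a * K ≤ b * K :=
  mul_le_mul_of_nonneg_right h hK.le

private lemma ltK3 {K : ℤ} (hK : 0 < K) {a b : ℤ} (h : a * K < b * K) : a < b :=
  lt_of_mul_lt_mul_right h hK.le

lemma not_Rl_SE (h : Prc P K A B m) {z p : Z2} (hz : Gd P K A B m z) (hp : p ∈ ct P K A B m z)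
    {i j : ℕ} (hi : 1 ≤ i) (hj : 1 ≤ j) (hz' : GI P K A B m (z.1 + i * K, z.2 - j * K) p) :
    ¬ Rl P K A B m z := by
  rintro ⟨r, ⟨hrP, hr1, hr2, hr3, hr4⟩, q, hq, hqr⟩
  have hK : 0 < K := h.A0.trans h.AK
  have hA := h.A0
  have hB := h.B0
  have hAK := h.AK
  have hBK := h.BK
  obtain ⟨hz'g, hz'p⟩ := hz'
  have hi' : (1 : ℤ) ≤ i := by exact_mod_cast hi
  have hj' : (1 : ℤ) ≤ j := by exact_mod_cast hj
  -- the slots of `p`
  obtain ⟨k, hk, hk1, hk2⟩ := col_slot h hz hp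
  obtain ⟨k', hk', hk'1, hk'2⟩ := col_slot h hz'g hz'p
  obtain ⟨c, hc, hc1, hc2⟩ := row_slot h hz hp
  obtain ⟨c', hc', hc'1, hc'2⟩ := row_slot h hz'g hz'p
  obtain ⟨κ, hκ, hκ1, hκ2⟩ := row_slot h hz hq
  simp only at hk'1 hk'2 hc'1 hc'2
  have hkZ : (k : ℤ) + 1 ≤ m := by exact_mod_cast hk
  have hc'Z : (c' : ℤ) + 1 ≤ m := by exact_mod_cast hc'
  have hκZ : (κ : ℤ) + 1 ≤ m := by exact_mod_cast hκ
  have hk'0 : (0 : ℤ) ≤ k' := Int.natCast_nonneg k'
  have hc0 : (0 : ℤ) ≤ c := Int.natCast_nonneg c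
  have e1 : (k : ℤ) = i + k' := by
    have h1 : (k : ℤ) < i + k' + 1 := ltK3 hK (by linarith)
    have h2 : (i + k' : ℤ) < k + 1 := ltK3 hK (by linarith)
    omega
  have e2 : (c' : ℤ) = c + j := by
    have h1 : (c : ℤ) + j < c' + 1 := ltK3 hK (by linarith)
    have h2 : (c' : ℤ) < c + j + 1 := ltK3 hK (by linarith)
    omega
  have hjm : (j : ℤ) ≤ m - 1 := by omega
  have him : (i : ℤ) ≤ m - 1 := by omega
  have hpq : q.2 ≤ p.2 + (m - 1 - c) * K := by
    rcases le_or_gt c κ with hle | hlt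
    · have h1 := row_chain h hz hp hq hle (by linarith) hc2 (by linarith) hκ2
      have h2 := mulK3 hK (show (κ : ℤ) - c ≤ m - 1 - c by omega)
      linarith
    · have h1 : (κ : ℤ) + 1 ≤ c := by exact_mod_cast hlt
      have h2 := mulK3 hK h1
      have h3 := mulK3 hK (show (0 : ℤ) ≤ m - 1 - c by omega)
      linarith
  have hκK := mulK3 hK hκZ
  have hjK := mulK3 hK hjm
  have hiK := mulK3 hK him
  have hi1K := mulK3 hK hi'
  have hj1K := mulK3 hK hj'
  rcases le_or_gt (z.2 - j * K + (m * K + B)) r.2 with h1 | h1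
  · have h2 := mulK3 hK (show (0 : ℤ) ≤ m - 1 - j by omega)
    have h3 := mulK3 hK (show (0 : ℤ) ≤ (m : ℤ) - 1 by omega)
    linarith
  · -- `r` is in the window `z'`
    obtain ⟨p0, hp0, -, hp02⟩ := col_ex h hz (show 0 < m by have := h.m2; omega)
    have h2 := hr2 p0 hp0
    rw [Nat.cast_zero, zero_mul, add_zero] at hp02
    have hr : r ∈ ct P K A B m (z.1 + i * K, z.2 - j * K) := by
      rw [mem_ct]
      refine ⟨hrP, ?_, ?_, ?_, ?_⟩
      · show z.1 + i * K ≤ r.1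
        linarith
      · show r.1 < z.1 + i * K + (m * K + A)
        linarith
      · show z.2 - j * K ≤ r.2
        linarith
      · exact h1
    obtain ⟨ρ, hρ, hρ1, hρ2⟩ := row_slot h hz'g hr
    simp only at hρ1 hρ2
    have hρm : (j : ℤ) ≤ ρ := by
      have h4 : (j : ℤ) < ρ + 1 := ltK3 hK (by linarith)
      omega
    rcases le_or_gt ρ c' with hle | hlt
    · have h4 := row_chain h hz'g hr hz'p hle (by show _ + _ ≤ _; linarith) hρ2
        (by show _ + _ ≤ _; linarith) hc'2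
      have h5 := mulK3 hK (show (c' : ℤ) - ρ + (m - 1 - c) ≤ m - 1 by omega)
      linarith
    · have h4 : (c' : ℤ) + 1 ≤ ρ := by exact_mod_cast hlt
      have h5 := mulK3 hK h4
      have h6 := mulK3 hK (show (m : ℤ) - 1 - c ≤ m - 1 by omega)
      linarith

lemma not_Bh_SE (h : Prc P K A B m) {z p : Z2} (hz : Gd P K A B m z) (hp : p ∈ ct P K A B m z)
    {i j : ℕ} (hi : 1 ≤ i) (hj : 1 ≤ j) (hz' : GI P K A B m (z.1 + i * K, z.2 - j * K) p) :
    ¬ Bh P K A B m z := by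
  rintro ⟨r, ⟨hrP, hr1, hr2, hr3, hr4⟩, q, hq, hqr⟩
  have hK : 0 < K := h.A0.trans h.AK
  have hA := h.A0
  have hB := h.B0
  have hAK := h.AK
  have hBK := h.BK
  obtain ⟨hz'g, hz'p⟩ := hz'
  have hi' : (1 : ℤ) ≤ i := by exact_mod_cast hi
  have hj' : (1 : ℤ) ≤ j := by exact_mod_cast hj
  -- the slots of `p`
  obtain ⟨k, hk, hk1, hk2⟩ := col_slot h hz hp
  obtain ⟨k', hk', hk'1, hk'2⟩ := col_slot h hz'g hz'p
  obtain ⟨c, hc, hc1, hc2⟩ := row_slot h hz hp
  obtain ⟨c', hc', hc'1, hc'2⟩ := row_slot h hz'g hz'p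
  obtain ⟨κ, hκ, hκ1, hκ2⟩ := col_slot h hz hq
  simp only at hk'1 hk'2 hc'1 hc'2
  have hkZ : (k : ℤ) + 1 ≤ m := by exact_mod_cast hk
  have hc'Z : (c' : ℤ) + 1 ≤ m := by exact_mod_cast hc'
  have hk0 : (0 : ℤ) ≤ k := Int.natCast_nonneg k
  have hk'0 : (0 : ℤ) ≤ k' := Int.natCast_nonneg k'
  have hc0 : (0 : ℤ) ≤ c := Int.natCast_nonneg c
  have hκ0 : (0 : ℤ) ≤ κ := Int.natCast_nonneg κ
  have e1 : (k : ℤ) = i + k' := by
    have h1 : (k : ℤ) < i + k' + 1 := ltK3 hK (by linarith)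
    have h2 : (i + k' : ℤ) < k + 1 := ltK3 hK (by linarith)
    omega
  have e2 : (c' : ℤ) = c + j := by
    have h1 : (c : ℤ) + j < c' + 1 := ltK3 hK (by linarith)
    have h2 : (c' : ℤ) < c + j + 1 := ltK3 hK (by linarith)
    omega
  have hjm : (j : ℤ) ≤ m - 1 := by omega
  have him : (i : ℤ) ≤ m - 1 := by omega
  have hpq : p.1 ≤ q.1 + k * K := by
    rcases le_or_gt κ k with hle | hlt
    · have h1 := col_chain h hz hq hp hle (by linarith) hκ2 (by linarith) hk2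
      have h2 := mulK3 hK (show (k : ℤ) - κ ≤ k by omega)
      linarith
    · have h1 : (k : ℤ) + 1 ≤ κ := by exact_mod_cast hlt
      have h2 := mulK3 hK h1
      have h3 := mulK3 hK hk0
      linarith
  have hκK := mulK3 hK hκ0
  have hjK := mulK3 hK hjm
  have hiK := mulK3 hK him
  have hi1K := mulK3 hK hi'
  have hj1K := mulK3 hK hj'
  rcases lt_or_ge r.1 (z.1 + i * K) with h1 | h1
  · linarith
  · -- `r` is in the window `z'`
    obtain ⟨p0, hp0, hp01, -⟩ := row_ex h hz (show m - 1 < m by have := h.m2; omega)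
    have h2 := hr2 p0 hp0
    have h3 : ((m - 1 : ℕ) : ℤ) = m - 1 := by
      have := h.m2
      omega
    rw [h3] at hp01
    have hr : r ∈ ct P K A B m (z.1 + i * K, z.2 - j * K) := by
      rw [mem_ct]
      refine ⟨hrP, ?_, ?_, ?_, ?_⟩
      · exact h1
      · show r.1 < z.1 + i * K + (m * K + A)
        linarith
      · show z.2 - j * K ≤ r.2
        linarith
      · show r.2 < z.2 - j * K + (m * K + B)
        linarith
    obtain ⟨ρ, hρ, hρ1, hρ2⟩ := col_slot h hz'g hr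
    simp only at hρ1 hρ2
    have hρm : (i : ℤ) + ρ ≤ m - 1 := by
      have h4 : (i : ℤ) + ρ < m := ltK3 hK (by linarith)
      omega
    rcases le_or_gt k' ρ with hle | hlt
    · have h4 := col_chain h hz'g hz'p hr hle (by show _ + _ ≤ _; linarith) hk'2
        (by show _ + _ ≤ _; linarith) hρ2
      have h5 := mulK3 hK (show (ρ : ℤ) - k' + k ≤ m - 1 by omega)
      linarith
    · have h4 : (ρ : ℤ) + 1 ≤ k' := by exact_mod_cast hlt
      have h5 := mulK3 hK h4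
      have h6 := mulK3 hK (show (k : ℤ) ≤ m - 1 by omega)
      linarith

lemma not_Ll_SW (h : Prc P K A B m) {z p : Z2} (hz : Gd P K A B m z) (hp : p ∈ ct P K A B m z)
    {i j : ℕ} (hi : 1 ≤ i) (hj : 1 ≤ j) (hz' : GI P K A B m (z.1 - i * K, z.2 - j * K) p) :
    ¬ Ll P K A B m z := by
  rintro ⟨r, ⟨hrP, hr1, hr2, hr3, hr4⟩, q, hq, hqr⟩
  have hK : 0 < K := h.A0.trans h.AK
  have hA := h.A0
  have hB := h.B0
  have hAK := h.AK
  have hBK := h.BK
  obtain ⟨hz'g, hz'p⟩ := hz'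
  have hi' : (1 : ℤ) ≤ i := by exact_mod_cast hi
  have hj' : (1 : ℤ) ≤ j := by exact_mod_cast hj
  -- the slots of `p`
  obtain ⟨k, hk, hk1, hk2⟩ := col_slot h hz hp
  obtain ⟨k', hk', hk'1, hk'2⟩ := col_slot h hz'g hz'p
  obtain ⟨c, hc, hc1, hc2⟩ := row_slot h hz hp
  obtain ⟨c', hc', hc'1, hc'2⟩ := row_slot h hz'g hz'p
  obtain ⟨κ, hκ, hκ1, hκ2⟩ := row_slot h hz hq
  simp only at hk'1 hk'2 hc'1 hc'2
  have hk'Z : (k' : ℤ) + 1 ≤ m := by exact_mod_cast hk'
  have hc'Z : (c' : ℤ) + 1 ≤ m := by exact_mod_cast hc'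
  have hκZ : (κ : ℤ) + 1 ≤ m := by exact_mod_cast hκ
  have hk0 : (0 : ℤ) ≤ k := Int.natCast_nonneg k
  have hc0 : (0 : ℤ) ≤ c := Int.natCast_nonneg c
  have e1 : (k' : ℤ) = i + k := by
    have h1 : (k' : ℤ) < i + k + 1 := ltK3 hK (by linarith)
    have h2 : (i + k : ℤ) < k' + 1 := ltK3 hK (by linarith)
    omega
  have e2 : (c' : ℤ) = c + j := by
    have h1 : (c : ℤ) + j < c' + 1 := ltK3 hK (by linarith)
    have h2 : (c' : ℤ) < c + j + 1 := ltK3 hK (by linarith)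
    omega
  have hjm : (j : ℤ) ≤ m - 1 := by omega
  have him : (i : ℤ) ≤ m - 1 := by omega
  have hpq : q.2 ≤ p.2 + (m - 1 - c) * K := by
    rcases le_or_gt c κ with hle | hlt
    · have h1 := row_chain h hz hp hq hle (by linarith) hc2 (by linarith) hκ2
      have h2 := mulK3 hK (show (κ : ℤ) - c ≤ m - 1 - c by omega)
      linarith
    · have h1 : (κ : ℤ) + 1 ≤ c := by exact_mod_cast hlt
      have h2 := mulK3 hK h1
      have h3 := mulK3 hK (show (0 : ℤ) ≤ m - 1 - c by omega)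
      linarith
  have hκK := mulK3 hK hκZ
  have hjK := mulK3 hK hjm
  have hiK := mulK3 hK him
  have hi1K := mulK3 hK hi'
  have hj1K := mulK3 hK hj'
  rcases le_or_gt (z.2 - j * K + (m * K + B)) r.2 with h1 | h1
  · have h2 := mulK3 hK (show (0 : ℤ) ≤ m - 1 - j by omega)
    have h3 := mulK3 hK (show (0 : ℤ) ≤ (m : ℤ) - 1 by omega)
    linarith
  · -- `r` is in the window `z'`
    obtain ⟨p0, hp0, hp01, -⟩ := col_ex h hz (show m - 1 < m by have := h.m2; omega)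
    have h2 := hr2 p0 hp0
    have h3 : ((m - 1 : ℕ) : ℤ) = m - 1 := by
      have := h.m2
      omega
    rw [h3] at hp01
    have hr : r ∈ ct P K A B m (z.1 - i * K, z.2 - j * K) := by
      rw [mem_ct]
      refine ⟨hrP, ?_, ?_, ?_, ?_⟩
      · show z.1 - i * K ≤ r.1
        linarith
      · show r.1 < z.1 - i * K + (m * K + A)
        linarith
      · show z.2 - j * K ≤ r.2
        linarith
      · exact h1
    obtain ⟨ρ, hρ, hρ1, hρ2⟩ := row_slot h hz'g hr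
    simp only at hρ1 hρ2
    have hρm : (j : ℤ) ≤ ρ := by
      have h4 : (j : ℤ) < ρ + 1 := ltK3 hK (by linarith)
      omega
    rcases le_or_gt ρ c' with hle | hlt
    · have h4 := row_chain h hz'g hr hz'p hle (by show _ + _ ≤ _; linarith) hρ2
        (by show _ + _ ≤ _; linarith) hc'2
      have h5 := mulK3 hK (show (c' : ℤ) - ρ + (m - 1 - c) ≤ m - 1 by omega)
      linarith
    · have h4 : (c' : ℤ) + 1 ≤ ρ := by exact_mod_cast hlt
      have h5 := mulK3 hK h4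
      have h6 := mulK3 hK (show (m : ℤ) - 1 - c ≤ m - 1 by omega)
      linarith

lemma not_Bl_SW (h : Prc P K A B m) {z p : Z2} (hz : Gd P K A B m z) (hp : p ∈ ct P K A B m z)
    {i j : ℕ} (hi : 1 ≤ i) (hj : 1 ≤ j) (hz' : GI P K A B m (z.1 - i * K, z.2 - j * K) p) :
    ¬ Bl P K A B m z := by
  rintro ⟨r, ⟨hrP, hr1, hr2, hr3, hr4⟩, q, hq, hqr⟩
  have hK : 0 < K := h.A0.trans h.AK
  have hA := h.A0
  have hB := h.B0
  have hAK := h.AK
  have hBK := h.BK
  obtain ⟨hz'g, hz'p⟩ := hz'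
  have hi' : (1 : ℤ) ≤ i := by exact_mod_cast hi
  have hj' : (1 : ℤ) ≤ j := by exact_mod_cast hj
  -- the slots of `p`
  obtain ⟨k, hk, hk1, hk2⟩ := row_slot h hz hp
  obtain ⟨k', hk', hk'1, hk'2⟩ := row_slot h hz'g hz'p
  obtain ⟨c, hc, hc1, hc2⟩ := col_slot h hz hp
  obtain ⟨c', hc', hc'1, hc'2⟩ := col_slot h hz'g hz'p
  obtain ⟨κ, hκ, hκ1, hκ2⟩ := col_slot h hz hq
  simp only at hk'1 hk'2 hc'1 hc'2
  have hk'Z : (k' : ℤ) + 1 ≤ m := by exact_mod_cast hk'
  have hc'Z : (c' : ℤ) + 1 ≤ m := by exact_mod_cast hc'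
  have hκZ : (κ : ℤ) + 1 ≤ m := by exact_mod_cast hκ
  have hk0 : (0 : ℤ) ≤ k := Int.natCast_nonneg k
  have hc0 : (0 : ℤ) ≤ c := Int.natCast_nonneg c
  have e1 : (k' : ℤ) = j + k := by
    have h1 : (k' : ℤ) < j + k + 1 := ltK3 hK (by linarith)
    have h2 : (j + k : ℤ) < k' + 1 := ltK3 hK (by linarith)
    omega
  have e2 : (c' : ℤ) = c + i := by
    have h1 : (c : ℤ) + i < c' + 1 := ltK3 hK (by linarith)
    have h2 : (c' : ℤ) < c + i + 1 := ltK3 hK (by linarith)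
    omega
  have hjm : (j : ℤ) ≤ m - 1 := by omega
  have him : (i : ℤ) ≤ m - 1 := by omega
  have hpq : q.1 ≤ p.1 + (m - 1 - c) * K := by
    rcases le_or_gt c κ with hle | hlt
    · have h1 := col_chain h hz hp hq hle (by linarith) hc2 (by linarith) hκ2
      have h2 := mulK3 hK (show (κ : ℤ) - c ≤ m - 1 - c by omega)
      linarith
    · have h1 : (κ : ℤ) + 1 ≤ c := by exact_mod_cast hlt
      have h2 := mulK3 hK h1
      have h3 := mulK3 hK (show (0 : ℤ) ≤ m - 1 - c by omega)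
      linarith
  have hκK := mulK3 hK hκZ
  have hjK := mulK3 hK hjm
  have hiK := mulK3 hK him
  have hi1K := mulK3 hK hi'
  have hj1K := mulK3 hK hj'
  rcases le_or_gt (z.1 - i * K + (m * K + A)) r.1 with h1 | h1
  · have h2 := mulK3 hK (show (0 : ℤ) ≤ m - 1 - i by omega)
    have h3 := mulK3 hK (show (0 : ℤ) ≤ (m : ℤ) - 1 by omega)
    linarith
  · -- `r` is in the window `z'`
    obtain ⟨p0, hp0, hp01, -⟩ := row_ex h hz (show m - 1 < m by have := h.m2; omega)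
    have h2 := hr2 p0 hp0
    have h3 : ((m - 1 : ℕ) : ℤ) = m - 1 := by
      have := h.m2
      omega
    rw [h3] at hp01
    have hr : r ∈ ct P K A B m (z.1 - i * K, z.2 - j * K) := by
      rw [mem_ct]
      refine ⟨hrP, ?_, ?_, ?_, ?_⟩
      · show z.1 - i * K ≤ r.1
        linarith
      · exact h1
      · show z.2 - j * K ≤ r.2
        linarith
      · show r.2 < z.2 - j * K + (m * K + B)
        linarith
    obtain ⟨ρ, hρ, hρ1, hρ2⟩ := col_slot h hz'g hr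
    simp only at hρ1 hρ2
    have hρm : (i : ℤ) ≤ ρ := by
      have h4 : (i : ℤ) < ρ + 1 := ltK3 hK (by linarith)
      omega
    rcases le_or_gt ρ c' with hle | hlt
    · have h4 := col_chain h hz'g hr hz'p hle (by show _ + _ ≤ _; linarith) hρ2
        (by show _ + _ ≤ _; linarith) hc'2
      have h5 := mulK3 hK (show (c' : ℤ) - ρ + (m - 1 - c) ≤ m - 1 by omega)
      linarith
    · have h4 : (c' : ℤ) + 1 ≤ ρ := by exact_mod_cast hlt
      have h5 := mulK3 hK h4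
      have h6 := mulK3 hK (show (m : ℤ) - 1 - c ≤ m - 1 by omega)
      linarith

end Prc24
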