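import Pool.Agent.Prc24.FullMid
import Pool.Agent.Prc24.FullMid2
import Pool.Agent.Prc24.FullBeta
import Pool.Agent.Prc24.Edge
import Pool.Agent.Prc24.Count
import Pool.Agent.Prc24.Jump
import Pool.Agent.Prc24.Jump2
import Pool.Agent.Prc24.Jump3
import Pool.Agent.Prc24.Bool

/-!
# The vertex inequality

`∑ p ∈ ct z, cost z p` is the sum of the cardinalities of the six filters of `Count`; each of them is at most `m - 1`
and it is `0` if the corresponding proposition (`Gd (z.1 + K, z.2)`, .., `∃ p ∈ ct z, jNE z p`, ..) fails.  Now apply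
`bool_vertex` with `dR := Gd (z.1 + K, z.2)` etc., `NE := NE (ct z)` etc., `jne := ∃ p ∈ ct z, jNE z p` etc. and
multiply by `m - 1`.
-/

namespace Prc24

open Finset Classical

variable {P : Set Z2} {K A B : ℤ} {m : ℕ}

private lemma card_le_ite (s : Finset Z2) (Q : Z2 → Prop) [DecidablePred Q] (D : Prop) [Decidable D] (n : ℕ)
    (h1 : (s.filter Q).card ≤ n) (h2 : ∀ p ∈ s, Q p → D) :
    (∑ p ∈ s, if Q p then 1 else 0) ≤ n * (if D then 1 else 0) := by
  rw [← card_filter]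
  by_cases hD : D
  · simpa [hD] using h1
  · have : s.filter Q = ∅ := by
      rw [Finset.filter_eq_empty_iff]
      intro p hp hQ
      exact hD (h2 p hp hQ)
    simp [this]

theorem vertex (h : Prc P K A B m) {z : Z2} (hz : Gd P K A B m z) :
    ∑ p ∈ ct P K A B m z, cost P K A B m z p ≤ (m - 1) * φ P K A B m (ct P K A B m z) := by
  have e1 := card_le_ite (ct P K A B m z) _ (Gd P K A B m (z.1 + K, z.2)) _ (card_R h hz)
    (fun p _ hQ => hQ.1)
  have e2 := card_le_ite (ct P K A B m z) _ (Gd P K A B m (z.1 - K, z.2)) _ (card_L h hz)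
    (fun p _ hQ => hQ.1)
  have e3 := card_le_ite (ct P K A B m z) _ (Gd P K A B m (z.1, z.2 + K)) _ (card_T h hz)
    (fun p _ hQ => hQ.1)
  have e4 := card_le_ite (ct P K A B m z) _ (Gd P K A B m (z.1, z.2 - K)) _ (card_B h hz)
    (fun p _ hQ => hQ.1)
  have e5 := card_le_ite (ct P K A B m z) _ ((∃ p ∈ ct P K A B m z, jNE P K A B m z p) ∨
      (∃ p ∈ ct P K A B m z, jNW P K A B m z p)) _ (card_up h hz)
    (fun p hp hQ => hQ.imp (fun h => ⟨p, hp, h⟩) (fun h => ⟨p, hp, h⟩))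
  have e6 := card_le_ite (ct P K A B m z) _ ((∃ p ∈ ct P K A B m z, jSE P K A B m z p) ∨
      (∃ p ∈ ct P K A B m z, jSW P K A B m z p)) _ (card_dn h hz)
    (fun p hp hQ => hQ.imp (fun h => ⟨p, hp, h⟩) (fun h => ⟨p, hp, h⟩))
  have key := bool_vertex (Rm := Rm P K A B m z) (Rh := Rh P K A B m z) (Rl := Rl P K A B m z)
    (Lm := Lm P K A B m z) (Lh := Lh P K A B m z) (Ll := Ll P K A B m z)
    (Tm := Tm P K A B m z) (Th := Th P K A B m z) (Tl := Tl P K A B m z)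
    (Bm := Bm P K A B m z) (Bh := Bh P K A B m z) (Bl := Bl P K A B m z)
    (dR := Gd P K A B m (z.1 + K, z.2)) (dL := Gd P K A B m (z.1 - K, z.2))
    (dT := Gd P K A B m (z.1, z.2 + K)) (dB := Gd P K A B m (z.1, z.2 - K))
    (NE := NE P K A B m (ct P K A B m z)) (NW := NW P K A B m (ct P K A B m z))
    (SE := SE P K A B m (ct P K A B m z)) (SW := SW P K A B m (ct P K A B m z))
    (jne := ∃ p ∈ ct P K A B m z, jNE P K A B m z p)
    (jnw := ∃ p ∈ ct P K A B m z, jNW P K A B m z p)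
    (jse := ∃ p ∈ ct P K A B m z, jSE P K A B m z p)
    (jsw := ∃ p ∈ ct P K A B m z, jSW P K A B m z p)
    (R_cases h hz) (L_cases h hz) (T_cases h hz) (B_cases h hz)
    (Rm_of_edge h hz) (Lm_of_edge h hz) (Tm_of_edge h hz) (Bm_of_edge h hz)
    (NE_of_Rm h hz) (SE_of_Rm h hz) (NW_of_Lm h hz) (SW_of_Lm h hz)
    (NE_of_Tm h hz) (NW_of_Tm h hz) (SE_of_Bm h hz) (SW_of_Bm h hz)
    (NE_of_RhTh h hz) (SE_of_RlBh h hz) (NW_of_LhTl h hz) (SW_of_LlBl h hz)
    (by
      rintro ⟨p, hp, h1, h2, i, j, hi, hj, hG⟩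
      exact ⟨h1, h2, not_Rh_NE h hz hp hi hj hG, not_Th_NE h hz hp hi hj hG⟩)
    (by
      rintro ⟨p, hp, h1, h2, i, j, hi, hj, hG⟩
      exact ⟨h1, h2, not_Lh_NW h hz hp hi hj hG, not_Tl_NW h hz hp hi hj hG⟩)
    (by
      rintro ⟨p, hp, h1, h2, i, j, hi, hj, hG⟩
      exact ⟨h1, h2, not_Rl_SE h hz hp hi hj hG, not_Bh_SE h hz hp hi hj hG⟩)
    (by
      rintro ⟨p, hp, h1, h2, i, j, hi, hj, hG⟩
      exact ⟨h1, h2, not_Ll_SW h hz hp hi hj hG, not_Bl_SW h hz hp hi hj hG⟩)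
  have k2 := Nat.mul_le_mul_left (m - 1) key
  unfold φ
  refine le_trans ?_ k2
  simp only [cost, Finset.sum_add_distrib, mul_add]
  exact add_le_add (add_le_add (add_le_add (add_le_add (add_le_add e1 e2) e3) e4) e5) e6

end Prc24
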