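import Pool.Agent.Prc24.Cols

/-!
# Consecutive rows (columns) of a good window are at distance at most `K`; neighbours

Proof of `row_chain`: induction on `j - i`.  For `j = i + 1` apply `h.hor z.1 (p.2 + 1)`: it gives `e ∈ P` with
`p.2 + 1 ≤ e.2 < p.2 + 1 + K`.  As `p.2 < z.2 + i K + K` and `i + 1 < m`, `e.2 ≤ p.2 + K < z.2 + (i+1) K + K`
and `e` belongs to the window.  By `row_slot` it lies in a slot `k`, `k ≤ i + 1`; if `k ≤ i` then (slots are
ordered, `p.2 < e.2`) `k = i` and `e = p` by `row_inj`, impossible.  So `k = i + 1` and `e = q`.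

Proof of `exists_Rn`: let `x1` be the largest abscissa of the content and apply `h.ver (x1 + 1) z.2`.  The point
`r` has `x1 < r.1 ≤ x1 + K`; it is not in the window since its abscissa is too large, so
`z.1 + (m K + A) ≤ r.1`.  `r.1 ≤ x1 + K ≤ p.1 + m K` by `col_ext`.  The other neighbours are similar.
-/

namespace Prc24

open Finset Classical

variable {P : Set Z2} {K A B : ℤ} {m : ℕ}

private lemma KK (h : Prc P K A B m) : 0 < K := lt_trans h.A0 h.AK

private lemma slot_le (hK : 0 < K) {a b : ℕ} (hab : (a : ℤ) * K < (b : ℤ) * K + K) : a ≤ b := by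
  by_contra hcon
  have h1 : b + 1 ≤ a := by omega
  have h2 : ((b : ℤ) + 1) ≤ a := by exact_mod_cast h1
  have h3 : ((b : ℤ) + 1) * K ≤ (a : ℤ) * K := mul_le_mul_of_nonneg_right h2 hK.le
  linarith

private lemma slot_mono (hK : 0 < K) {a b : ℕ} (hab : a < b) : (a : ℤ) * K + K ≤ (b : ℤ) * K := by
  have h2 : ((a : ℤ) + 1) ≤ b := by exact_mod_cast hab
  have h3 : ((a : ℤ) + 1) * K ≤ (b : ℤ) * K := mul_le_mul_of_nonneg_right h2 hK.le
  linarith

private lemma row_step (h : Prc P K A B m) {z : Z2} (hz : Gd P K A B m z) {p q : Z2}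
    (hp : p ∈ ct P K A B m z) (hq : q ∈ ct P K A B m z) {i : ℕ}
    (hp1 : z.2 + i * K ≤ p.2) (hp2 : p.2 < z.2 + i * K + K)
    (hq1 : z.2 + i * K + K ≤ q.2) (hq2 : q.2 < z.2 + i * K + K + K) : q.2 ≤ p.2 + K := by
  have hK := KK h
  by_contra hcon
  rw [not_le] at hcon
  obtain ⟨e, heP, E1, E2, E3, E4⟩ := h.hor z.1 (p.2 + 1)
  have hp' := mem_ct.1 hp
  have hq' := mem_ct.1 hq
  have he : e ∈ ct P K A B m z := by
    rw [mem_ct]
    refine ⟨heP, ?_, ?_, ?_, ?_⟩ <;> linarith [hp'.2.1, hp'.2.2.2.1, hq'.2.2.1, hq'.2.2.2.2]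
  obtain ⟨k, hkm, hk1, hk2⟩ := row_slot h hz he
  have hB := h.B0
  have hki : k ≤ i + 1 := by
    apply slot_le hK
    push_cast
    linarith
  have hik : i ≤ k := by
    apply slot_le hK
    linarith
  rcases Nat.lt_or_ge i k with hlt | hge
  · have hk : k = i + 1 := by omega
    subst hk
    push_cast at hk1 hk2
    have heq : e = q := row_inj h hz (i := i + 1) he hq (by push_cast; linarith)
      (by push_cast; linarith) (by push_cast; linarith) (by push_cast; linarith)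
    rw [heq] at E3 E4
    linarith
  · have hk : k = i := by omega
    subst hk
    have heq : e = p := row_inj h hz (i := k) he hp (by linarith) hk2 hp1 hp2
    rw [heq] at E3
    linarith

lemma row_chain (h : Prc P K A B m) {z : Z2} (hz : Gd P K A B m z) {p q : Z2}
    (hp : p ∈ ct P K A B m z) (hq : q ∈ ct P K A B m z) {i j : ℕ} (hij : i ≤ j)
    (hp1 : z.2 + i * K ≤ p.2) (hp2 : p.2 < z.2 + i * K + K)
    (hq1 : z.2 + j * K ≤ q.2) (hq2 : q.2 < z.2 + j * K + K) : q.2 ≤ p.2 + ((j : ℤ) - i) * K := by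
  have hK := KK h
  have hB := h.B0
  induction j, hij using Nat.le_induction generalizing q with
  | base =>
    have heq : q = p := row_inj h hz hq hp hq1 hq2 hp1 hp2
    rw [heq]
    have : ((i : ℤ) - i) * K = 0 := by ring
    linarith
  | succ j hij ih =>
    push_cast at hq1 hq2
    obtain ⟨k, hkm, hk1, hk2⟩ := row_slot h hz hq
    have hjk : j + 1 ≤ k := by
      apply slot_le hK
      push_cast
      linarith
    obtain ⟨q', hq', h1, h2⟩ := row_ex h hz (i := j) (by omega)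
    have h3 := ih hq' (by linarith) h2
    have h4 := row_step h hz hq' hq (i := j) (by linarith) h2 (by linarith) (by linarith)
    push_cast
    have h5 : ((j : ℤ) + 1 - i) * K = ((j : ℤ) - i) * K + K := by ring
    linarith

private lemma col_step (h : Prc P K A B m) {z : Z2} (hz : Gd P K A B m z) {p q : Z2}
    (hp : p ∈ ct P K A B m z) (hq : q ∈ ct P K A B m z) {i : ℕ}
    (hp1 : z.1 + i * K ≤ p.1) (hp2 : p.1 < z.1 + i * K + K)
    (hq1 : z.1 + i * K + K ≤ q.1) (hq2 : q.1 < z.1 + i * K + K + K) : q.1 ≤ p.1 + K := by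
  have hK := KK h
  by_contra hcon
  rw [not_le] at hcon
  obtain ⟨e, heP, E3, E4, E1, E2⟩ := h.ver (p.1 + 1) z.2
  have hp' := mem_ct.1 hp
  have hq' := mem_ct.1 hq
  have he : e ∈ ct P K A B m z := by
    rw [mem_ct]
    refine ⟨heP, ?_, ?_, ?_, ?_⟩ <;> linarith [hp'.2.1, hp'.2.2.2.1, hq'.2.2.1, hq'.2.2.2.2]
  obtain ⟨k, hkm, hk1, hk2⟩ := col_slot h hz he
  have hB := h.A0
  have hki : k ≤ i + 1 := by
    apply slot_le hK
    push_cast
    linarith
  have hik : i ≤ k := by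
    apply slot_le hK
    linarith
  rcases Nat.lt_or_ge i k with hlt | hge
  · have hk : k = i + 1 := by omega
    subst hk
    push_cast at hk1 hk2
    have heq : e = q := col_inj h hz (i := i + 1) he hq (by push_cast; linarith)
      (by push_cast; linarith) (by push_cast; linarith) (by push_cast; linarith)
    rw [heq] at E3 E4
    linarith
  · have hk : k = i := by omega
    subst hk
    have heq : e = p := col_inj h hz (i := k) he hp (by linarith) hk2 hp1 hp2
    rw [heq] at E3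
    linarith

lemma col_chain (h : Prc P K A B m) {z : Z2} (hz : Gd P K A B m z) {p q : Z2}
    (hp : p ∈ ct P K A B m z) (hq : q ∈ ct P K A B m z) {i j : ℕ} (hij : i ≤ j)
    (hp1 : z.1 + i * K ≤ p.1) (hp2 : p.1 < z.1 + i * K + K)
    (hq1 : z.1 + j * K ≤ q.1) (hq2 : q.1 < z.1 + j * K + K) : q.1 ≤ p.1 + ((j : ℤ) - i) * K := by
  have hK := KK h
  have hB := h.A0
  induction j, hij using Nat.le_induction generalizing q with
  | base =>
    have heq : q = p := col_inj h hz hq hp hq1 hq2 hp1 hp2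
    rw [heq]
    have : ((i : ℤ) - i) * K = 0 := by ring
    linarith
  | succ j hij ih =>
    push_cast at hq1 hq2
    obtain ⟨k, hkm, hk1, hk2⟩ := col_slot h hz hq
    have hjk : j + 1 ≤ k := by
      apply slot_le hK
      push_cast
      linarith
    obtain ⟨q', hq', h1, h2⟩ := col_ex h hz (i := j) (by omega)
    have h3 := ih hq' (by linarith) h2
    have h4 := col_step h hz hq' hq (i := j) (by linarith) h2 (by linarith) (by linarith)
    push_cast
    have h5 : ((j : ℤ) + 1 - i) * K = ((j : ℤ) - i) * K + K := by ring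
    linarith

lemma row_ext (h : Prc P K A B m) {z : Z2} (hz : Gd P K A B m z) {p q : Z2}
    (hp : p ∈ ct P K A B m z) (hq : q ∈ ct P K A B m z) : q.2 ≤ p.2 + (m - 1) * K := by
  have hK := KK h
  have hB := h.B0
  have hm := h.m2
  obtain ⟨i, him, hi1, hi2⟩ := row_slot h hz hp
  obtain ⟨j, hjm, hj1, hj2⟩ := row_slot h hz hq
  rcases Nat.lt_or_ge j i with hlt | hge
  · have h1 := slot_mono hK hlt
    have h2 : (0 : ℤ) ≤ ((m : ℤ) - 1) * K := by
      apply mul_nonneg _ hK.le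
      have : (2 : ℤ) ≤ m := by exact_mod_cast hm
      linarith
    linarith
  · have h1 := row_chain h hz hp hq hge (by linarith) hi2 (by linarith) hj2
    have h2 : ((j : ℤ) - i) * K ≤ ((m : ℤ) - 1) * K := by
      apply mul_le_mul_of_nonneg_right _ hK.le
      have h3 : (j : ℤ) + 1 ≤ m := by exact_mod_cast hjm
      have h4 : (0 : ℤ) ≤ i := by positivity
      linarith
    linarith

lemma col_ext (h : Prc P K A B m) {z : Z2} (hz : Gd P K A B m z) {p q : Z2}
    (hp : p ∈ ct P K A B m z) (hq : q ∈ ct P K A B m z) : q.1 ≤ p.1 + (m - 1) * K := by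
  have hK := KK h
  have hB := h.A0
  have hm := h.m2
  obtain ⟨i, him, hi1, hi2⟩ := col_slot h hz hp
  obtain ⟨j, hjm, hj1, hj2⟩ := col_slot h hz hq
  rcases Nat.lt_or_ge j i with hlt | hge
  · have h1 := slot_mono hK hlt
    have h2 : (0 : ℤ) ≤ ((m : ℤ) - 1) * K := by
      apply mul_nonneg _ hK.le
      have : (2 : ℤ) ≤ m := by exact_mod_cast hm
      linarith
    linarith
  · have h1 := col_chain h hz hp hq hge (by linarith) hi2 (by linarith) hj2
    have h2 : ((j : ℤ) - i) * K ≤ ((m : ℤ) - 1) * K := by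
      apply mul_le_mul_of_nonneg_right _ hK.le
      have h3 : (j : ℤ) + 1 ≤ m := by exact_mod_cast hjm
      have h4 : (0 : ℤ) ≤ i := by positivity
      linarith
    linarith

private lemma ct_ne (h : Prc P K A B m) {z : Z2} (hz : Gd P K A B m z) : (ct P K A B m z).Nonempty := by
  rw [← Finset.card_pos]
  have h1 : (ct P K A B m z).card = m := hz
  have h2 := h.m2
  omega

lemma exists_Rn (h : Prc P K A B m) {z : Z2} (hz : Gd P K A B m z) : ∃ r, Rn P K A B m z r := by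
  obtain ⟨p1, hp1, hmax⟩ := Finset.exists_max_image (ct P K A B m z) (fun p => p.1) (ct_ne h hz)
  obtain ⟨r, hr, h1, h2, h3, h4⟩ := h.ver (p1.1 + 1) z.2
  have hp' := mem_ct.1 hp1
  refine ⟨r, hr, ?_, fun p hp => ?_, h3, h4⟩
  · by_contra hcon
    rw [not_le] at hcon
    have hrc : r ∈ ct P K A B m z := mem_ct.2 ⟨hr, by linarith [hp'.2.1], hcon, h3, h4⟩
    have := hmax r hrc
    linarith
  · have h5 := col_ext h hz hp hp1
    have h6 : ((m : ℤ) - 1) * K = m * K - K := by ring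
    linarith

lemma exists_Ln (h : Prc P K A B m) {z : Z2} (hz : Gd P K A B m z) : ∃ r, Ln P K A B m z r := by
  obtain ⟨p1, hp1, hmin⟩ := Finset.exists_min_image (ct P K A B m z) (fun p => p.1) (ct_ne h hz)
  obtain ⟨r, hr, h1, h2, h3, h4⟩ := h.ver (p1.1 - K) z.2
  have hp' := mem_ct.1 hp1
  refine ⟨r, hr, ?_, fun p hp => ?_, h3, h4⟩
  · by_contra hcon
    rw [not_lt] at hcon
    have hrc : r ∈ ct P K A B m z := mem_ct.2 ⟨hr, hcon, by linarith [hp'.2.2.1], h3, h4⟩
    have := hmin r hrc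
    linarith
  · have h5 := col_ext h hz hp1 hp
    have h6 : ((m : ℤ) - 1) * K = m * K - K := by ring
    linarith

lemma exists_Tn (h : Prc P K A B m) {z : Z2} (hz : Gd P K A B m z) : ∃ r, Tn P K A B m z r := by
  obtain ⟨p1, hp1, hmax⟩ := Finset.exists_max_image (ct P K A B m z) (fun p => p.2) (ct_ne h hz)
  obtain ⟨r, hr, h3, h4, h1, h2⟩ := h.hor z.1 (p1.2 + 1)
  have hp' := mem_ct.1 hp1
  refine ⟨r, hr, ?_, fun p hp => ?_, h3, h4⟩
  · by_contra hcon
    rw [not_le] at hcon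
    have hrc : r ∈ ct P K A B m z := mem_ct.2 ⟨hr, h3, h4, by linarith [hp'.2.2.2.1], hcon⟩
    have := hmax r hrc
    linarith
  · have h5 := row_ext h hz hp hp1
    have h6 : ((m : ℤ) - 1) * K = m * K - K := by ring
    linarith

lemma exists_Bn (h : Prc P K A B m) {z : Z2} (hz : Gd P K A B m z) : ∃ r, Bn P K A B m z r := by
  obtain ⟨p1, hp1, hmin⟩ := Finset.exists_min_image (ct P K A B m z) (fun p => p.2) (ct_ne h hz)
  obtain ⟨r, hr, h3, h4, h1, h2⟩ := h.hor z.1 (p1.2 - K)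
  have hp' := mem_ct.1 hp1
  refine ⟨r, hr, ?_, fun p hp => ?_, h3, h4⟩
  · by_contra hcon
    rw [not_lt] at hcon
    have hrc : r ∈ ct P K A B m z := mem_ct.2 ⟨hr, h3, h4, hcon, by linarith [hp'.2.2.2.2]⟩
    have := hmin r hrc
    linarith
  · have h5 := row_ext h hz hp1 hp
    have h6 : ((m : ℤ) - 1) * K = m * K - K := by ring
    linarith

/-- each side has a high, low or fitting neighbour -/
lemma R_cases (h : Prc P K A B m) {z : Z2} (hz : Gd P K A B m z) :
    Rm P K A B m z ∨ Rh P K A B m z ∨ Rl P K A B m z := by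
  obtain ⟨r, hr⟩ := exists_Rn h hz
  by_cases h1 : ∃ p ∈ ct P K A B m z, p.2 + (m - 1) * K < r.2
  · exact Or.inr (Or.inl ⟨r, hr, h1⟩)
  by_cases h2 : ∃ p ∈ ct P K A B m z, r.2 + (m - 1) * K < p.2
  · exact Or.inr (Or.inr ⟨r, hr, h2⟩)
  push Not at h1 h2
  refine Or.inl ⟨r, hr.1, fun p hp => ⟨?_, hr.2.2.1 p hp, h2 p hp, h1 p hp⟩⟩
  exact lt_of_lt_of_le (mem_ct.1 hp).2.2.1 hr.2.1

lemma L_cases (h : Prc P K A B m) {z : Z2} (hz : Gd P K A B m z) :
    Lm P K A B m z ∨ Lh P K A B m z ∨ Ll P K A B m z := by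
  obtain ⟨r, hr⟩ := exists_Ln h hz
  by_cases h1 : ∃ p ∈ ct P K A B m z, p.2 + (m - 1) * K < r.2
  · exact Or.inr (Or.inl ⟨r, hr, h1⟩)
  by_cases h2 : ∃ p ∈ ct P K A B m z, r.2 + (m - 1) * K < p.2
  · exact Or.inr (Or.inr ⟨r, hr, h2⟩)
  push Not at h1 h2
  refine Or.inl ⟨r, hr.1, fun p hp => ⟨?_, hr.2.2.1 p hp, h2 p hp, h1 p hp⟩⟩
  exact lt_of_lt_of_le hr.2.1 (mem_ct.1 hp).2.1

lemma T_cases (h : Prc P K A B m) {z : Z2} (hz : Gd P K A B m z) :
    Tm P K A B m z ∨ Th P K A B m z ∨ Tl P K A B m z := by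
  obtain ⟨r, hr⟩ := exists_Tn h hz
  by_cases h1 : ∃ p ∈ ct P K A B m z, p.1 + (m - 1) * K < r.1
  · exact Or.inr (Or.inl ⟨r, hr, h1⟩)
  by_cases h2 : ∃ p ∈ ct P K A B m z, r.1 + (m - 1) * K < p.1
  · exact Or.inr (Or.inr ⟨r, hr, h2⟩)
  push Not at h1 h2
  refine Or.inl ⟨r, hr.1, fun p hp => ⟨?_, hr.2.2.1 p hp, h2 p hp, h1 p hp⟩⟩
  exact lt_of_lt_of_le (mem_ct.1 hp).2.2.2.2 hr.2.1

lemma B_cases (h : Prc P K A B m) {z : Z2} (hz : Gd P K A B m z) :
    Bm P K A B m z ∨ Bh P K A B m z ∨ Bl P K A B m z := by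
  obtain ⟨r, hr⟩ := exists_Bn h hz
  by_cases h1 : ∃ p ∈ ct P K A B m z, p.1 + (m - 1) * K < r.1
  · exact Or.inr (Or.inl ⟨r, hr, h1⟩)
  by_cases h2 : ∃ p ∈ ct P K A B m z, r.1 + (m - 1) * K < p.1
  · exact Or.inr (Or.inr ⟨r, hr, h2⟩)
  push Not at h1 h2
  refine Or.inl ⟨r, hr.1, fun p hp => ⟨?_, hr.2.2.1 p hp, h2 p hp, h1 p hp⟩⟩
  exact lt_of_lt_of_le hr.2.1 (mem_ct.1 hp).2.2.2.1

end Prc24
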