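import Pool.Agent.Prc24.Fill

/-!
# The number of good positions of a point

Fix `p ∈ P` and an offset `u`.  `(i, j) ∈ S p u` means that the window `zz p u (i, j)` is good; it contains `p`
(in the slots `i`, `j`): `mem_zz`.  Note that `zz (i, j) + (K, 0) = zz (i - 1, j)`.

Proof of `comb`.  Write `S = S p u` and `G s = GI (zz s) p`, so that for `s = (i, j)`, `i, j < m`, `s ∈ S ↔ G s`.  If `z = zz (i, j)`
and the window `(z.1 + K, z.2)` contains `p` then `1 ≤ i`, and so on.  By `fill_h` the set of `i` with `(i, j) ∈ S` is an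
interval for every `j`; by `fill_v` the set of `j` with `(i, j) ∈ S` is an interval for every `i`.  Let `J ⊆ range m` be the set of rows
`j` occurring in `S`, `n = J.card`.  We may assume that `S` is not empty.
(a) In every row all elements except the one with the smallest `i` have `(i - 1, j) ∈ S`, which is
 `GI (z.1 + K, z.2) p`: `∑_{s ∈ S} [GI (z.1 + K, z.2) p] ≥ S.card - n`;
(b) similarly `∑_{s ∈ S} [GI (z.1 - K, z.2) p] ≥ S.card - n`.
(c) For `j ∈ J`, `j ≠ min J` (not the top row, since a smaller `j` is a higher window) some `s` of row `j` has `GI (z.1, z.2 + K) p` or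
 `jNE z p ∨ jNW z p`.  Let `j' < j` be the largest element of `J` below `j`.  If some `i` has `(i, j), (i, j') ∈ S` then
 `(i, j - 1) ∈ S` (`fill_v`).  Otherwise, rows being intervals, all `i'` of row `j'` are smaller (windows further right)
 than all `i` of row `j`, or all are larger.  In the first case let `i` be the smallest element of row `j`:
 `(z.1 + K, z.2)` is not good, since it contains `p` (`p` lies in `zz (i', j')` with `i' < i`, so `1 ≤ i`) and
 `(i - 1, j) ∉ S`; `(z.1, z.2 + K)` is not good, since it contains `p` (`1 ≤ j`) and `(i, j - 1) ∉ S` (if `j - 1 ∈ J` then `j' = j - 1`, and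
 rows `j`, `j'` have no common `i`); and `zz (i', j')` is the window of the third condition.  So `jNE z p`.  In the second case
 `jNW z p` for the largest `i` of row `j`.
(d) Similarly for `j ∈ J`, `j ≠ max J`, some `s` of row `j` has `GI (z.1, z.2 - K) p` or `jSE z p ∨ jSW z p`.
Altogether `∑_{s ∈ S} cost (zz s) p ≥ 2 (S.card - n) + 2 (n - 1) = 2 S.card - 2`.
-/

namespace Prc24

open Finset Classical

variable {P : Set Z2} {K A B : ℤ} {m : ℕ}

lemma mem_zz (h : Prc P K A B m) {p u : Z2} (hp : p ∈ P) (hu : u ∈ UU K A B) {s : ℕ × ℕ}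
    (h1 : s.1 < m) (h2 : s.2 < m) : p ∈ ct P K A B m (zz K p u s) := by
  obtain ⟨hA0, hAK, hB0, hBK, -, -, -⟩ := h
  simp only [UU, mem_product, mem_Icc] at hu
  obtain ⟨⟨u1, u2⟩, u3, u4⟩ := hu
  have hK : 0 < K := by linarith
  have e1 : ((s.1 : ℤ) + 1) * K ≤ m * K :=
    mul_le_mul_of_nonneg_right (by exact_mod_cast h1) hK.le
  have e2 : ((s.2 : ℤ) + 1) * K ≤ m * K :=
    mul_le_mul_of_nonneg_right (by exact_mod_cast h2) hK.le
  have e3 : 0 ≤ (s.1 : ℤ) * K := mul_nonneg (by positivity) hK.le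
  have e4 : 0 ≤ (s.2 : ℤ) * K := mul_nonneg (by positivity) hK.le
  simp only [ct, bx, zz, mem_filter, mem_product, mem_Ico]
  refine ⟨⟨⟨by linarith, by linarith⟩, by linarith, by linarith⟩, hp⟩

/-! ### pure combinatorics of finite sets of cells -/

/-- a possible jump in the direction `e` -/
private def Up (T : Finset (ℤ × ℤ)) (e : ℤ) (s : ℤ × ℤ) : Prop :=
  ∃ d : ℤ, (d = 1 ∨ d = -1) ∧ (s.1 + d, s.2) ∉ T ∧ (s.1, s.2 + e) ∉ T ∧
    ∃ t ∈ T, 0 < d * (t.1 - s.1) ∧ 0 < e * (t.2 - s.2)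

private lemma rowcount (T : Finset (ℤ × ℤ)) (e : ℤ) (he : e = 1 ∨ e = -1)
    (hrow : ∀ i k j l : ℤ, (i, j) ∈ T → (k, j) ∈ T → i ≤ l → l ≤ k → (l, j) ∈ T) :
    T.card ≤ (T.image Prod.snd).card + (T.filter (fun s => (s.1 + e, s.2) ∈ T)).card := by
  have h0 := Finset.card_filter_add_card_filter_not (s := T) (fun s => (s.1 + e, s.2) ∈ T)
  have h1 : (T.filter (fun s => ¬ (s.1 + e, s.2) ∈ T)).card ≤ (T.image Prod.snd).card := by
    apply Finset.card_le_card_of_injOn Prod.snd
    · intro s hs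
      have hs' := (mem_filter.1 (Finset.mem_coe.1 hs)).1
      exact Finset.mem_coe.2 (mem_image_of_mem _ hs')
    · have key : ∀ s t : ℤ × ℤ, s ∈ T → t ∈ T → (s.1 + e, s.2) ∉ T → (t.1 + e, t.2) ∉ T →
          s.2 = t.2 → ¬ s.1 < t.1 := by
        intro s t hs ht hs' ht' hst hlt
        rcases he with rfl | rfl
        · exact hs' (hrow s.1 t.1 s.2 (s.1 + 1) hs (by rw [hst]; exact ht) (by omega) (by omega))
        · exact ht' (hrow s.1 t.1 t.2 (t.1 + -1) (by rw [← hst]; exact hs) ht (by omega) (by omega))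
      intro s hs t ht hst
      have hs1 := mem_filter.1 (Finset.mem_coe.1 hs)
      have ht1 := mem_filter.1 (Finset.mem_coe.1 ht)
      have a := key s t hs1.1 ht1.1 hs1.2 ht1.2 hst
      have b := key t s ht1.1 hs1.1 ht1.2 hs1.2 hst.symm
      exact Prod.ext (by omega) hst
  omega

private lemma rowjump (T : Finset (ℤ × ℤ)) (e : ℤ) (he : e = 1 ∨ e = -1)
    (hrow : ∀ i k j l : ℤ, (i, j) ∈ T → (k, j) ∈ T → i ≤ l → l ≤ k → (l, j) ∈ T)
    (hcol : ∀ i k j l : ℤ, (j, i) ∈ T → (j, k) ∈ T → i ≤ l → l ≤ k → (j, l) ∈ T) :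
    (T.image Prod.snd).card ≤ 1 + (T.filter (fun s => (s.1, s.2 + e) ∈ T ∨ Up T e s)).card := by
  rcases (T.image Prod.snd).eq_empty_or_nonempty with h0 | h0
  · rw [h0]; simp
  obtain ⟨j0, hj0, hmax⟩ := (T.image Prod.snd).exists_max_image (fun j => e * j) h0
  have hsub : (T.image Prod.snd).erase j0 ⊆
      (T.filter (fun s => (s.1, s.2 + e) ∈ T ∨ Up T e s)).image Prod.snd := by
    intro j hj
    rw [mem_erase] at hj
    obtain ⟨hjj, hj⟩ := hj
    -- the next row in the direction e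
    have hne : ((T.image Prod.snd).filter (fun k => e * j < e * k)).Nonempty := by
      refine ⟨j0, mem_filter.2 ⟨hj0, ?_⟩⟩
      have := hmax j hj
      rcases he with rfl | rfl <;> omega
    obtain ⟨j1, hj1, hmin⟩ := ((T.image Prod.snd).filter (fun k => e * j < e * k)).exists_min_image
      (fun j => e * j) hne
    rw [mem_filter] at hj1
    obtain ⟨hj1, hlt⟩ := hj1
    have hstep : ∀ a : ℤ, (a, j + e) ∈ T → j1 = j + e := by
      intro a ha
      have h1 : j + e ∈ (T.image Prod.snd).filter (fun k => e * j < e * k) := by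
        refine mem_filter.2 ⟨mem_image.2 ⟨(a, j + e), ha, rfl⟩, ?_⟩
        rcases he with rfl | rfl <;> omega
      have := hmin _ h1
      rcases he with rfl | rfl <;> omega
    by_cases hc : ∃ i, (i, j) ∈ T ∧ (i, j1) ∈ T
    · obtain ⟨i, hi, hi1⟩ := hc
      refine mem_image.2 ⟨(i, j), mem_filter.2 ⟨hi, Or.inl ?_⟩, rfl⟩
      rcases he with rfl | rfl
      · exact hcol j j1 i (j + 1) hi hi1 (by omega) (by omega)
      · exact hcol j1 j i (j + -1) hi1 hi (by omega) (by omega)
    · push Not at hc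
      obtain ⟨sa, hsa, hsa2⟩ := mem_image.1 hj
      obtain ⟨sb, hsb, hsb2⟩ := mem_image.1 hj1
      have hab : sa.1 ≠ sb.1 := by
        intro hh
        apply hc sa.1
        · rw [← hsa2]; exact hsa
        · rw [hh, ← hsb2]; exact hsb
      obtain ⟨d, hd, hdab⟩ : ∃ d : ℤ, (d = 1 ∨ d = -1) ∧ 0 < d * (sb.1 - sa.1) := by
        rcases lt_or_gt_of_ne hab with hh | hh
        · exact ⟨1, Or.inl rfl, by omega⟩
        · exact ⟨-1, Or.inr rfl, by omega⟩
      have hne2 : (T.filter (fun s => s.2 = j)).Nonempty := ⟨sa, mem_filter.2 ⟨hsa, hsa2⟩⟩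
      obtain ⟨s, hs, hsmax⟩ := (T.filter (fun s => s.2 = j)).exists_max_image
        (fun s => d * s.1) hne2
      rw [mem_filter] at hs
      obtain ⟨hsT, hsj⟩ := hs
      have hsa3 := hsmax sa (mem_filter.2 ⟨hsa, hsa2⟩)
      have hs' : (s.1, j) ∈ T := by rw [← hsj]; exact hsT
      have hsa' : (sa.1, j) ∈ T := by rw [← hsa2]; exact hsa
      have hsb' : (sb.1, j1) ∈ T := by rw [← hsb2]; exact hsb
      have hpos : 0 < d * (sb.1 - s.1) := by
        by_contra hcon
        refine hc sb.1 ?_ hsb'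
        rcases hd with rfl | rfl
        · exact hrow sa.1 s.1 j sb.1 hsa' hs' (by omega) (by omega)
        · exact hrow s.1 sa.1 j sb.1 hs' hsa' (by omega) (by omega)
      refine mem_image.2 ⟨s, mem_filter.2 ⟨hsT, Or.inr ?_⟩, hsj⟩
      refine ⟨d, hd, ?_, ?_, sb, hsb, hpos, ?_⟩
      · intro hin
        have := hsmax (s.1 + d, s.2) (mem_filter.2 ⟨hin, hsj⟩)
        rcases hd with rfl | rfl <;> simp only at this <;> omega
      · intro hin
        rw [hsj] at hin
        have h2 := hstep _ hin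
        exact hc s.1 hs' (by rw [h2]; exact hin)
      · rw [hsj, hsb2]
        rcases he with rfl | rfl <;> omega
  have h1 := Finset.card_le_card hsub
  have h2 := h1.trans Finset.card_image_le
  rw [card_erase_of_mem hj0] at h2
  omega

private lemma pure_comb (T : Finset (ℤ × ℤ))
    (hrow : ∀ i k j l : ℤ, (i, j) ∈ T → (k, j) ∈ T → i ≤ l → l ≤ k → (l, j) ∈ T)
    (hcol : ∀ i k j l : ℤ, (j, i) ∈ T → (j, k) ∈ T → i ≤ l → l ≤ k → (j, l) ∈ T) :
    2 * T.card ≤ 2 + ∑ s ∈ T, ((if (s.1 + -1, s.2) ∈ T then 1 else 0) +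
      (if (s.1 + 1, s.2) ∈ T then 1 else 0) +
      (if (s.1, s.2 + -1) ∈ T ∨ Up T (-1) s then 1 else 0) +
      (if (s.1, s.2 + 1) ∈ T ∨ Up T 1 s then 1 else 0)) := by
  have a1 := rowcount T (-1) (Or.inr rfl) hrow
  have a2 := rowcount T 1 (Or.inl rfl) hrow
  have a3 := rowjump T (-1) (Or.inr rfl) hrow hcol
  have a4 := rowjump T 1 (Or.inl rfl) hrow hcol
  simp only [sum_add_distrib, ← card_filter]
  omega

private lemma ife {Q R : Prop} [Decidable Q] [Decidable R] (hQR : Q → R) :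
    (if Q then 1 else 0 : ℕ) ≤ (if R then 1 else 0) := by
  by_cases hQ : Q
  · simp [hQ, hQR hQ]
  · simp [hQ]

private lemma if2 {Q R R' : Prop} [Decidable Q] [Decidable R] [Decidable R'] (hQR : Q → R ∨ R') :
    (if Q then 1 else 0 : ℕ) ≤ (if R then 1 else 0) + (if R' then 1 else 0) := by
  by_cases hQ : Q
  · rcases hQR hQ with h1 | h1 <;> simp [hQ, h1]
  · simp [hQ]

/-- the window with integer position -/
private def ww (K : ℤ) (p u : Z2) (t : ℤ × ℤ) : Z2 :=
  (p.1 - (t.1 + 1) * K + u.1, p.2 - (t.2 + 1) * K + u.2)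

theorem comb (h : Prc P K A B m) {p u : Z2} (hp : p ∈ P) (hu : u ∈ UU K A B) :
    2 * (S P K A B m p u).card ≤ 2 + ∑ s ∈ S P K A B m p u, cost P K A B m (zz K p u s) p := by
  set c : ℕ × ℕ → ℤ × ℤ := fun s => ((s.1 : ℤ), (s.2 : ℤ)) with hcdef
  have hcinj : Function.Injective c := by
    intro s t hst
    simp only [hcdef, Prod.mk.injEq, Nat.cast_inj] at hst
    exact Prod.ext hst.1 hst.2
  set T : Finset (ℤ × ℤ) := (S P K A B m p u).image c with hT
  have hcard : T.card = (S P K A B m p u).card := card_image_of_injective _ hcinj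
  have hsum : ∑ t ∈ T, cost P K A B m (ww K p u t) p =
      ∑ s ∈ S P K A B m p u, cost P K A B m (zz K p u s) p := by
    rw [hT, sum_image (fun a _ b _ hab => hcinj hab)]
    rfl
  have hmem : ∀ t : ℤ × ℤ, t ∈ T ↔ (0 ≤ t.1 ∧ t.1 < m) ∧ (0 ≤ t.2 ∧ t.2 < m) ∧
      Gd P K A B m (ww K p u t) := by
    intro t
    rw [hT, mem_image]
    constructor
    · rintro ⟨s, hs, rfl⟩
      simp only [S, mem_filter, mem_product, mem_range] at hs
      refine ⟨⟨by simp [hcdef], by simp only [hcdef]; exact_mod_cast hs.1.1⟩,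
        ⟨by simp [hcdef], by simp only [hcdef]; exact_mod_cast hs.1.2⟩, hs.2⟩
    · rintro ⟨⟨h1, h2⟩, ⟨h3, h4⟩, h5⟩
      refine ⟨(t.1.toNat, t.2.toNat), ?_, ?_⟩
      · simp only [S, mem_filter, mem_product, mem_range]
        refine ⟨⟨by omega, by omega⟩, ?_⟩
        have : zz K p u (t.1.toNat, t.2.toNat) = ww K p u t := by
          simp only [zz, ww, Int.toNat_of_nonneg h1, Int.toNat_of_nonneg h3]
        rw [this]; exact h5
      · simp only [hcdef]
        exact Prod.ext (Int.toNat_of_nonneg h1) (Int.toNat_of_nonneg h3)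
  have hGI : ∀ t : ℤ × ℤ, t ∈ T → GI P K A B m (ww K p u t) p := by
    intro t ht
    obtain ⟨s, hs, rfl⟩ := mem_image.1 (hT ▸ ht)
    simp only [S, mem_filter, mem_product, mem_range] at hs
    exact ⟨hs.2, mem_zz h hp hu hs.1.1 hs.1.2⟩
  have hrow : ∀ i k j l : ℤ, (i, j) ∈ T → (k, j) ∈ T → i ≤ l → l ≤ k → (l, j) ∈ T := by
    intro i k j l hi hk hil hlk
    have gi := hGI _ hi
    have gk := hGI _ hk
    rw [hmem] at hi hk ⊢
    obtain ⟨⟨i1, i2⟩, ⟨i3, i4⟩, -⟩ := hi
    obtain ⟨⟨k1, k2⟩, -, -⟩ := hk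
    simp only at i1 i2 i3 i4 k1 k2
    refine ⟨⟨by simp only; omega, by simp only; omega⟩, ⟨i3, i4⟩, ?_⟩
    have e1 : ((k - i).toNat : ℤ) = k - i := Int.toNat_of_nonneg (by omega)
    have e2 : ((k - l).toNat : ℤ) = k - l := Int.toNat_of_nonneg (by omega)
    have hx : ∀ a : ℤ, ((ww K p u (k, j)).1 + (k - a) * K, (ww K p u (k, j)).2) = ww K p u (a, j) := by
      intro a; simp only [ww]; refine Prod.ext ?_ rfl; simp only; ring
    have key := fill_h h (x := (ww K p u (k, j)).1) (y := (ww K p u (k, j)).2)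
      (k := (k - i).toNat) (l := (k - l).toNat) (p := p) (by omega) gk (by
        rw [e1, hx i]; exact gi)
    rw [e2, hx l] at key
    exact key
  have hcol : ∀ i k j l : ℤ, (j, i) ∈ T → (j, k) ∈ T → i ≤ l → l ≤ k → (j, l) ∈ T := by
    intro i k j l hi hk hil hlk
    have gi := hGI _ hi
    have gk := hGI _ hk
    rw [hmem] at hi hk ⊢
    obtain ⟨⟨i1, i2⟩, ⟨i3, i4⟩, -⟩ := hi
    obtain ⟨-, ⟨k1, k2⟩, -⟩ := hk
    simp only at i1 i2 i3 i4 k1 k2
    refine ⟨⟨i1, i2⟩, ⟨by simp only; omega, by simp only; omega⟩, ?_⟩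
    have e1 : ((k - i).toNat : ℤ) = k - i := Int.toNat_of_nonneg (by omega)
    have e2 : ((k - l).toNat : ℤ) = k - l := Int.toNat_of_nonneg (by omega)
    have hx : ∀ a : ℤ, ((ww K p u (j, k)).1, (ww K p u (j, k)).2 + (k - a) * K) = ww K p u (j, a) := by
      intro a; simp only [ww]; refine Prod.ext rfl ?_; simp only; ring
    have key := fill_v h (x := (ww K p u (j, k)).1) (y := (ww K p u (j, k)).2)
      (k := (k - i).toNat) (l := (k - l).toNat) (p := p) (by omega) gk (by
        rw [e1, hx i]; exact gi)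
    rw [e2, hx l] at key
    exact key
  have hp2 := pure_comb T hrow hcol
  rw [← hcard, ← hsum]
  refine hp2.trans (Nat.add_le_add_left (sum_le_sum (fun t ht => ?_)) 2)
  have wL : ((ww K p u t).1 + K, (ww K p u t).2) = ww K p u (t.1 + -1, t.2) := by
    simp only [ww]; refine Prod.ext ?_ rfl; simp only; ring
  have wR : ((ww K p u t).1 - K, (ww K p u t).2) = ww K p u (t.1 + 1, t.2) := by
    simp only [ww]; refine Prod.ext ?_ rfl; simp only; ring
  have wT : ((ww K p u t).1, (ww K p u t).2 + K) = ww K p u (t.1, t.2 + -1) := by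
    simp only [ww]; refine Prod.ext rfl ?_; simp only; ring
  have wB : ((ww K p u t).1, (ww K p u t).2 - K) = ww K p u (t.1, t.2 + 1) := by
    simp only [ww]; refine Prod.ext rfl ?_; simp only; ring
  have htm := (hmem t).1 ht
  obtain ⟨⟨t1, t2⟩, ⟨t3, t4⟩, -⟩ := htm
  have c1 : (if (t.1 + -1, t.2) ∈ T then 1 else 0 : ℕ) ≤
      (if GI P K A B m ((ww K p u t).1 + K, (ww K p u t).2) p then 1 else 0) :=
    ife (fun hin => by rw [wL]; exact hGI _ hin)
  have c2 : (if (t.1 + 1, t.2) ∈ T then 1 else 0 : ℕ) ≤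
      (if GI P K A B m ((ww K p u t).1 - K, (ww K p u t).2) p then 1 else 0) :=
    ife (fun hin => by rw [wR]; exact hGI _ hin)
  have c3 : (if (t.1, t.2 + -1) ∈ T ∨ Up T (-1) t then 1 else 0 : ℕ) ≤
      (if GI P K A B m ((ww K p u t).1, (ww K p u t).2 + K) p then 1 else 0) +
      (if jNE P K A B m (ww K p u t) p ∨ jNW P K A B m (ww K p u t) p then 1 else 0) := by
    refine if2 (fun hin => ?_)
    rcases hin with hin | hin
    · left; rw [wT]; exact hGI _ hin
    · right
      obtain ⟨d, hd, hd1, hd2, t', ht', hd3, hd4⟩ := hin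
      obtain ⟨⟨t1', t2'⟩, ⟨t3', t4'⟩, -⟩ := (hmem t').1 ht'
      have hg2 : ¬ Gd P K A B m ((ww K p u t).1, (ww K p u t).2 + K) := by
        rw [wT]; intro hgd
        exact hd2 ((hmem _).2 ⟨⟨t1, t2⟩, ⟨by simp only; omega, by simp only; omega⟩, hgd⟩)
      rcases hd with rfl | rfl
      · right
        refine ⟨?_, hg2, (t'.1 - t.1).toNat, (t.2 - t'.2).toNat, by omega, by omega, ?_⟩
        · rw [wR]; intro hgd
          exact hd1 ((hmem _).2 ⟨⟨by simp only; omega, by simp only; omega⟩, ⟨t3, t4⟩, hgd⟩)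
        · have e1 : ((t'.1 - t.1).toNat : ℤ) = t'.1 - t.1 := Int.toNat_of_nonneg (by omega)
          have e2 : ((t.2 - t'.2).toNat : ℤ) = t.2 - t'.2 := Int.toNat_of_nonneg (by omega)
          have := hGI _ ht'
          rw [e1, e2]
          convert this using 1
          simp only [ww]; refine Prod.ext ?_ ?_ <;> simp only <;> ring
      · left
        refine ⟨?_, hg2, (t.1 - t'.1).toNat, (t.2 - t'.2).toNat, by omega, by omega, ?_⟩
        · rw [wL]; intro hgd
          exact hd1 ((hmem _).2 ⟨⟨by simp only; omega, by simp only; omega⟩, ⟨t3, t4⟩, hgd⟩)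
        · have e1 : ((t.1 - t'.1).toNat : ℤ) = t.1 - t'.1 := Int.toNat_of_nonneg (by omega)
          have e2 : ((t.2 - t'.2).toNat : ℤ) = t.2 - t'.2 := Int.toNat_of_nonneg (by omega)
          have := hGI _ ht'
          rw [e1, e2]
          convert this using 1
          simp only [ww]; refine Prod.ext ?_ ?_ <;> simp only <;> ring
  have c4 : (if (t.1, t.2 + 1) ∈ T ∨ Up T 1 t then 1 else 0 : ℕ) ≤
      (if GI P K A B m ((ww K p u t).1, (ww K p u t).2 - K) p then 1 else 0) +
      (if jSE P K A B m (ww K p u t) p ∨ jSW P K A B m (ww K p u t) p then 1 else 0) := by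
    refine if2 (fun hin => ?_)
    rcases hin with hin | hin
    · left; rw [wB]; exact hGI _ hin
    · right
      obtain ⟨d, hd, hd1, hd2, t', ht', hd3, hd4⟩ := hin
      obtain ⟨⟨t1', t2'⟩, ⟨t3', t4'⟩, -⟩ := (hmem t').1 ht'
      have hg2 : ¬ Gd P K A B m ((ww K p u t).1, (ww K p u t).2 - K) := by
        rw [wB]; intro hgd
        exact hd2 ((hmem _).2 ⟨⟨t1, t2⟩, ⟨by simp only; omega, by simp only; omega⟩, hgd⟩)
      rcases hd with rfl | rfl
      · right
        refine ⟨?_, hg2, (t'.1 - t.1).toNat, (t'.2 - t.2).toNat, by omega, by omega, ?_⟩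
        · rw [wR]; intro hgd
          exact hd1 ((hmem _).2 ⟨⟨by simp only; omega, by simp only; omega⟩, ⟨t3, t4⟩, hgd⟩)
        · have e1 : ((t'.1 - t.1).toNat : ℤ) = t'.1 - t.1 := Int.toNat_of_nonneg (by omega)
          have e2 : ((t'.2 - t.2).toNat : ℤ) = t'.2 - t.2 := Int.toNat_of_nonneg (by omega)
          have := hGI _ ht'
          rw [e1, e2]
          convert this using 1
          simp only [ww]; refine Prod.ext ?_ ?_ <;> simp only <;> ring
      · left
        refine ⟨?_, hg2, (t.1 - t'.1).toNat, (t'.2 - t.2).toNat, by omega, by omega, ?_⟩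
        · rw [wL]; intro hgd
          exact hd1 ((hmem _).2 ⟨⟨by simp only; omega, by simp only; omega⟩, ⟨t3, t4⟩, hgd⟩)
        · have e1 : ((t.1 - t'.1).toNat : ℤ) = t.1 - t'.1 := Int.toNat_of_nonneg (by omega)
          have e2 : ((t'.2 - t.2).toNat : ℤ) = t'.2 - t.2 := Int.toNat_of_nonneg (by omega)
          have := hGI _ ht'
          rw [e1, e2]
          convert this using 1
          simp only [ww]; refine Prod.ext ?_ ?_ <;> simp only <;> ring
  unfold cost
  omega

end Prc24
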