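import Pool.Agent.Prc92.Mean

/-!
# Windows with exactly `m` points: definitions

`P` is a set of grid points, `K ≥ 1` is the unit, every window of `m K + A` columns and `K` rows and every
window of `K` columns and `m K + B` rows contains a point of `P` (`Prc`).  `ct z` is the set of points of
`P` in the window of `m K + A` columns and `m K + B` rows with lower left corner `z`, `f z` is its
cardinality.  A window is good (`Gd`) if `f z = m`.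
-/

namespace Prc24

open Finset Classical

/-- the grid -/
abbrev Z2 := ℤ × ℤ

/-- mean of an indicator -/
noncomputable def ind (μ : Prc92.Mean) (Q : Z2 → Prop) : ℝ := μ.M (fun z => if Q z then 1 else 0)

section
variable (P : Set Z2) (K A B : ℤ) (m : ℕ)

/-- the window -/
noncomputable def bx (z : Z2) : Finset Z2 := Ico z.1 (z.1 + (m * K + A)) ×ˢ Ico z.2 (z.2 + (m * K + B))

/-- the content of the window -/
noncomputable def ct (z : Z2) : Finset Z2 := (bx K A B m z).filter (· ∈ P)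

/-- the number of points in the window -/
noncomputable def f (z : Z2) : ℕ := (ct P K A B m z).card

/-- good window -/
def Gd (z : Z2) : Prop := f P K A B m z = m

/-- the standing hypotheses -/
structure Prc : Prop where
  A0 : 0 < A
  AK : A < K
  B0 : 0 < B
  BK : B < K
  m2 : 2 ≤ m
  hor : ∀ x y : ℤ, ∃ p ∈ P, x ≤ p.1 ∧ p.1 < x + (m * K + A) ∧ y ≤ p.2 ∧ p.2 < y + K
  ver : ∀ x y : ℤ, ∃ p ∈ P, x ≤ p.1 ∧ p.1 < x + K ∧ y ≤ p.2 ∧ p.2 < y + (m * K + B)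

/-! ### full corners of a content `M` -/

/-- the north east corner of `M` is full -/
def NE (M : Finset Z2) : Prop := ∃ ξ η : ℤ,
  (∀ p ∈ M, ξ ≤ p.1 ∧ p.1 ≤ ξ + (m - 1) * K ∧ η ≤ p.2 ∧ p.2 ≤ η + (m - 1) * K) ∧
  ∀ x y : ℤ, ξ - A < x → x ≤ ξ → η - B < y → y ≤ η → m + 2 ≤ f P K A B m (x, y)

/-- the south east corner of `M` is full -/
def SE (M : Finset Z2) : Prop := ∃ ξ η : ℤ,
  (∀ p ∈ M, ξ ≤ p.1 ∧ p.1 ≤ ξ + (m - 1) * K ∧ p.2 ≤ η ∧ η ≤ p.2 + (m - 1) * K) ∧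
  ∀ x y : ℤ, ξ - A < x → x ≤ ξ → η - m * K - B < y → y ≤ η - m * K → m + 2 ≤ f P K A B m (x, y)

/-- the north west corner of `M` is full -/
def NW (M : Finset Z2) : Prop := ∃ ξ η : ℤ,
  (∀ p ∈ M, p.1 ≤ ξ ∧ ξ ≤ p.1 + (m - 1) * K ∧ η ≤ p.2 ∧ p.2 ≤ η + (m - 1) * K) ∧
  ∀ x y : ℤ, ξ - m * K - A < x → x ≤ ξ - m * K → η - B < y → y ≤ η → m + 2 ≤ f P K A B m (x, y)

/-- the south west corner of `M` is full -/
def SW (M : Finset Z2) : Prop := ∃ ξ η : ℤ,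
  (∀ p ∈ M, p.1 ≤ ξ ∧ ξ ≤ p.1 + (m - 1) * K ∧ p.2 ≤ η ∧ η ≤ p.2 + (m - 1) * K) ∧
  ∀ x y : ℤ, ξ - m * K - A < x → x ≤ ξ - m * K → η - m * K - B < y → y ≤ η - m * K →
    m + 2 ≤ f P K A B m (x, y)

/-! ### nearest neighbours of a window -/

/-- `r` is a right neighbour -/
def Rn (z r : Z2) : Prop := r ∈ P ∧ z.1 + (m * K + A) ≤ r.1 ∧
  (∀ p ∈ ct P K A B m z, r.1 ≤ p.1 + m * K) ∧ z.2 ≤ r.2 ∧ r.2 < z.2 + (m * K + B)

/-- `l` is a left neighbour -/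
def Ln (z l : Z2) : Prop := l ∈ P ∧ l.1 < z.1 ∧
  (∀ p ∈ ct P K A B m z, p.1 ≤ l.1 + m * K) ∧ z.2 ≤ l.2 ∧ l.2 < z.2 + (m * K + B)

/-- `t` is a top neighbour -/
def Tn (z t : Z2) : Prop := t ∈ P ∧ z.2 + (m * K + B) ≤ t.2 ∧
  (∀ p ∈ ct P K A B m z, t.2 ≤ p.2 + m * K) ∧ z.1 ≤ t.1 ∧ t.1 < z.1 + (m * K + A)

/-- `b` is a bottom neighbour -/
def Bn (z b : Z2) : Prop := b ∈ P ∧ b.2 < z.2 ∧
  (∀ p ∈ ct P K A B m z, p.2 ≤ b.2 + m * K) ∧ z.1 ≤ b.1 ∧ b.1 < z.1 + (m * K + A)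

/-- a right neighbour that is too high -/
def Rh (z : Z2) : Prop := ∃ r, Rn P K A B m z r ∧ ∃ p ∈ ct P K A B m z, p.2 + (m - 1) * K < r.2
/-- a right neighbour that is too low -/
def Rl (z : Z2) : Prop := ∃ r, Rn P K A B m z r ∧ ∃ p ∈ ct P K A B m z, r.2 + (m - 1) * K < p.2
/-- a left neighbour that is too high -/
def Lh (z : Z2) : Prop := ∃ r, Ln P K A B m z r ∧ ∃ p ∈ ct P K A B m z, p.2 + (m - 1) * K < r.2
/-- a left neighbour that is too low -/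
def Ll (z : Z2) : Prop := ∃ r, Ln P K A B m z r ∧ ∃ p ∈ ct P K A B m z, r.2 + (m - 1) * K < p.2
/-- a top neighbour that is too far right -/
def Th (z : Z2) : Prop := ∃ r, Tn P K A B m z r ∧ ∃ p ∈ ct P K A B m z, p.1 + (m - 1) * K < r.1
/-- a top neighbour that is too far left -/
def Tl (z : Z2) : Prop := ∃ r, Tn P K A B m z r ∧ ∃ p ∈ ct P K A B m z, r.1 + (m - 1) * K < p.1
/-- a bottom neighbour that is too far right -/
def Bh (z : Z2) : Prop := ∃ r, Bn P K A B m z r ∧ ∃ p ∈ ct P K A B m z, p.1 + (m - 1) * K < r.1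
/-- a bottom neighbour that is too far left -/
def Bl (z : Z2) : Prop := ∃ r, Bn P K A B m z r ∧ ∃ p ∈ ct P K A B m z, r.1 + (m - 1) * K < p.1

/-- a point to the right fitting the content -/
def Rm (z : Z2) : Prop := ∃ r ∈ P, ∀ p ∈ ct P K A B m z,
  p.1 < r.1 ∧ r.1 ≤ p.1 + m * K ∧ p.2 ≤ r.2 + (m - 1) * K ∧ r.2 ≤ p.2 + (m - 1) * K
/-- a point to the left fitting the content -/
def Lm (z : Z2) : Prop := ∃ r ∈ P, ∀ p ∈ ct P K A B m z,
  r.1 < p.1 ∧ p.1 ≤ r.1 + m * K ∧ p.2 ≤ r.2 + (m - 1) * K ∧ r.2 ≤ p.2 + (m - 1) * K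
/-- a point above fitting the content -/
def Tm (z : Z2) : Prop := ∃ r ∈ P, ∀ p ∈ ct P K A B m z,
  p.2 < r.2 ∧ r.2 ≤ p.2 + m * K ∧ p.1 ≤ r.1 + (m - 1) * K ∧ r.1 ≤ p.1 + (m - 1) * K
/-- a point below fitting the content -/
def Bm (z : Z2) : Prop := ∃ r ∈ P, ∀ p ∈ ct P K A B m z,
  r.2 < p.2 ∧ p.2 ≤ r.2 + m * K ∧ p.1 ≤ r.1 + (m - 1) * K ∧ r.1 ≤ p.1 + (m - 1) * K

/-! ### the cost of a point `p` in a good window `z` -/

/-- `p` belongs to the good window `z` -/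
def GI (z p : Z2) : Prop := Gd P K A B m z ∧ p ∈ ct P K A B m z

/-- jump to the north east -/
def jNE (z p : Z2) : Prop := ¬ Gd P K A B m (z.1 + K, z.2) ∧ ¬ Gd P K A B m (z.1, z.2 + K) ∧
  ∃ i j : ℕ, 1 ≤ i ∧ 1 ≤ j ∧ GI P K A B m (z.1 + i * K, z.2 + j * K) p
/-- jump to the north west -/
def jNW (z p : Z2) : Prop := ¬ Gd P K A B m (z.1 - K, z.2) ∧ ¬ Gd P K A B m (z.1, z.2 + K) ∧
  ∃ i j : ℕ, 1 ≤ i ∧ 1 ≤ j ∧ GI P K A B m (z.1 - i * K, z.2 + j * K) p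
/-- jump to the south east -/
def jSE (z p : Z2) : Prop := ¬ Gd P K A B m (z.1 + K, z.2) ∧ ¬ Gd P K A B m (z.1, z.2 - K) ∧
  ∃ i j : ℕ, 1 ≤ i ∧ 1 ≤ j ∧ GI P K A B m (z.1 + i * K, z.2 - j * K) p
/-- jump to the south west -/
def jSW (z p : Z2) : Prop := ¬ Gd P K A B m (z.1 - K, z.2) ∧ ¬ Gd P K A B m (z.1, z.2 - K) ∧
  ∃ i j : ℕ, 1 ≤ i ∧ 1 ≤ j ∧ GI P K A B m (z.1 - i * K, z.2 - j * K) p

/-- the cost of `p` in the window `z` (twice the number of links at `z`) -/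
noncomputable def cost (z p : Z2) : ℕ :=
  (if GI P K A B m (z.1 + K, z.2) p then 1 else 0) + (if GI P K A B m (z.1 - K, z.2) p then 1 else 0) +
  (if GI P K A B m (z.1, z.2 + K) p then 1 else 0) + (if GI P K A B m (z.1, z.2 - K) p then 1 else 0) +
  (if jNE P K A B m z p ∨ jNW P K A B m z p then 1 else 0) +
  (if jSE P K A B m z p ∨ jSW P K A B m z p then 1 else 0)

/-- the number of full corners -/
noncomputable def φ (M : Finset Z2) : ℕ :=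
  (if NE P K A B m M then 1 else 0) + (if NW P K A B m M then 1 else 0) +
  (if SE P K A B m M then 1 else 0) + (if SW P K A B m M then 1 else 0)

/-- the window in which `p` has position `(i, j)` with offset `u` -/
def zz (p u : Z2) (s : ℕ × ℕ) : Z2 := (p.1 - (s.1 + 1) * K + u.1, p.2 - (s.2 + 1) * K + u.2)

/-- the good positions of `p` with offset `u` -/
noncomputable def S (p u : Z2) : Finset (ℕ × ℕ) :=
  (range m ×ˢ range m).filter (fun s => Gd P K A B m (zz K p u s))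

/-- the offsets -/
noncomputable def UU : Finset Z2 := Icc 1 (K - A) ×ˢ Icc 1 (K - B)

end

end Prc24
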