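import Pool.Agent.Prc24.Key

/-!
# The density bound for grid sets
-/

namespace Prc24

open Finset Classical

variable {P : Set Z2} {K A B : ℤ} {m : ℕ}

/-- the bound for the area per point -/
noncomputable def Dm (m a b : ℝ) : ℝ := max (1 + (m - 1 + a) * (m - 1 + b) / m) (m + a * b / 2)

private lemma helper38_alg {m a b N g t : ℝ} (hm : 2 ≤ m) (ha : 0 < a) (ha1 : a < 1) (hb : 0 < b) (hb1 : b < 1)
    (hN : 0 ≤ N) (h1 : m + 1 + t ≤ (m + a) * (m + b) * N + g)
    (h2 : a * b * (m * g) ≤ ((1 - a) * (1 - b)) * (a * b * N + 2 * (m - 1) * t))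
    (h3 : g ≤ m * ((1 - a) * (1 - b)) * N) (ht : 0 ≤ t) : 1 ≤ N * Dm m a b := by
  have hab : 0 < a * b := mul_pos ha hb
  have hx : 0 < (1 - a) * (1 - b) := mul_pos (by linarith) (by linarith)
  by_cases hc : 2 * (m - 1) * ((1 - a) * (1 - b)) ≤ m * (a * b)
  · have h4 : m * (g - t) ≤ (1 - a) * (1 - b) * N := by
      have h5 : a * b * (m * (g - t)) ≤ a * b * ((1 - a) * (1 - b) * N) := by
        have h6 := mul_le_mul_of_nonneg_right hc ht
        nlinarith [h2, h6]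
      exact le_of_mul_le_mul_left h5 hab
    have h5 : m * (m + 1) ≤ (m + 1) * (N * (m + (m - 1 + a) * (m - 1 + b))) := by
      have h6 := mul_le_mul_of_nonneg_left h1 (by linarith : (0 : ℝ) ≤ m)
      have h7 : (m + 1) * (N * (m + (m - 1 + a) * (m - 1 + b))) =
        m * ((m + a) * (m + b) * N) + (1 - a) * (1 - b) * N := by ring
      rw [h7]
      linarith
    have h6 : m ≤ N * (m + (m - 1 + a) * (m - 1 + b)) := by
      have h7 : (m + 1) * m ≤ (m + 1) * (N * (m + (m - 1 + a) * (m - 1 + b))) := by linarith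
      exact le_of_mul_le_mul_left h7 (by linarith)
    have h7 : 1 ≤ N * (1 + (m - 1 + a) * (m - 1 + b) / m) := by
      have hm0 : m ≠ 0 := by linarith
      have h8 : N * (1 + (m - 1 + a) * (m - 1 + b) / m) = N * (m + (m - 1 + a) * (m - 1 + b)) / m := by
        field_simp
      rw [h8, le_div_iff₀ (by linarith)]
      linarith
    exact h7.trans (mul_le_mul_of_nonneg_left (le_max_left _ _) hN)
  · push Not at hc
    have h4 : 2 * (g - t) ≤ N * (2 * m * ((1 - a) * (1 - b)) - (m + 1) * (a * b)) := by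
      have h5 : (m - 1) * (1 - a) * (1 - b) * (2 * (g - t)) ≤
          (m - 1) * (1 - a) * (1 - b) * (N * (2 * m * ((1 - a) * (1 - b)) - (m + 1) * (a * b))) := by
        have h6 := mul_le_mul_of_nonneg_left h3 (sub_nonneg.2 hc.le)
        nlinarith [h2, h6]
      exact le_of_mul_le_mul_left h5 (by
        rw [mul_assoc]
        exact mul_pos (by linarith) hx)
    have h5 : (m + 1) * 1 ≤ (m + 1) * (N * (m + a * b / 2)) := by nlinarith [h1, h4]
    have h6 : 1 ≤ N * (m + a * b / 2) := le_of_mul_le_mul_left h5 (by linarith)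
    exact h6.trans (mul_le_mul_of_nonneg_left (le_max_right _ _) hN)

private lemma helper38_ind_nonneg (μ : Prc92.Mean) (Q : Z2 → Prop) : 0 ≤ ind μ Q := by
  unfold ind
  have h1 : μ.M (fun _ => (0 : ℝ)) = 0 := μ.const _
  refine le_trans (le_of_eq h1.symm) (μ.mono _ _ (Prc92.Bd.const _) ⟨1, fun z => ?_⟩ fun z => ?_)
  · by_cases hq : Q z <;> simp [hq]
  · by_cases hq : Q z <;> simp [hq]

/-- Proof: put `a = A / K`, `b = B / K`, `N = K² μ(P)`, `x = (1 - a) (1 - b)`, `g = μ(Gd)`, `t = μ(f ≥ m + 2)`.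
`ident`: `m + 1 + t ≤ (m + a)(m + b) N + g`; `key2`: `a b m g ≤ x (a b N + 2 (m - 1) t)`; `key3`: `g ≤ m x N`.
If `2 (m-1) x ≤ m a b`: `m (g - t) ≤ x N`, so `m (m + 1) ≤ N (m (m + a)(m + b) + x) = N (m + 1) (m + (m-1+a)(m-1+b))`.
Otherwise with `c = 2 (m - 1) x / (a b) > m`:
`g - t ≤ g (1 - m / c) + x N / c ≤ N (m x - (m + 1) a b / 2)`, so
`m + 1 ≤ N ((m + a)(m + b) + m x - (m + 1) a b / 2) = N (m + 1) (m + a b / 2)`. -/
theorem disc (μ : Prc92.Mean) (h : Prc P K A B m) :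
    1 ≤ (K : ℝ) ^ 2 * ind μ (· ∈ P) * Dm m ((A : ℝ) / K) ((B : ℝ) / K) := by
  have h1 := ident μ h
  have h2 := key2 μ h
  have h3 := key3 μ h
  have hA : (0 : ℝ) < A := by exact_mod_cast h.A0
  have hB : (0 : ℝ) < B := by exact_mod_cast h.B0
  have hAK : (A : ℝ) < K := by exact_mod_cast h.AK
  have hBK : (B : ℝ) < K := by exact_mod_cast h.BK
  have hK : (0 : ℝ) < K := hA.trans hAK
  have hK0 : (K : ℝ) ≠ 0 := hK.ne'
  have hm : (2 : ℝ) ≤ m := by exact_mod_cast h.m2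
  have hn := helper38_ind_nonneg μ (· ∈ P)
  have ht := helper38_ind_nonneg μ (fun z => m + 2 ≤ f P K A B m z)
  generalize ind μ (fun z => m + 2 ≤ f P K A B m z) = t at *
  generalize ind μ (Gd P K A B m) = g at *
  generalize ind μ (· ∈ P) = n at *
  obtain ⟨a, ha⟩ : ∃ a : ℝ, a = A / K := ⟨_, rfl⟩
  obtain ⟨b, hb⟩ : ∃ b : ℝ, b = B / K := ⟨_, rfl⟩
  have hA' : (A : ℝ) = a * K := by rw [ha]; field_simp
  have hB' : (B : ℝ) = b * K := by rw [hb]; field_simp
  rw [← ha, ← hb]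
  have ha0 : 0 < a := by rw [ha]; positivity
  have hb0 : 0 < b := by rw [hb]; positivity
  have ha1 : a < 1 := by rw [ha]; exact (div_lt_one hK).2 hAK
  have hb1 : b < 1 := by rw [hb]; exact (div_lt_one hK).2 hBK
  rw [hA', hB'] at h1 h2 h3
  have hK2 : (0 : ℝ) < K ^ 2 := by positivity
  refine helper38_alg (N := (K : ℝ) ^ 2 * n) (g := g) (t := t) hm ha0 ha1 hb0 hb1 (by positivity) ?_ ?_ ?_ ht
  · refine h1.trans (le_of_eq ?_)
    ring
  · have h4 : (K : ℝ) ^ 2 * (a * b * (m * g)) ≤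
      (K : ℝ) ^ 2 * ((1 - a) * (1 - b) * (a * b * ((K : ℝ) ^ 2 * n) + 2 * (m - 1) * t)) := by
      calc (K : ℝ) ^ 2 * (a * b * (m * g)) = a * K * (b * K) * (m * g) := by ring
        _ ≤ _ := h2
        _ = _ := by ring
    exact le_of_mul_le_mul_left h4 hK2
  · refine h3.trans (le_of_eq ?_)
    ring

lemma Dm_mono {m a b a' b' : ℝ} (hm : 1 ≤ m) (h0 : 0 ≤ a) (h1 : a ≤ a') (h2 : 0 ≤ b) (h3 : b ≤ b') :
    Dm m a b ≤ Dm m a' b' := by
  have hab : a * b ≤ a' * b' := mul_le_mul h1 h3 h2 (h0.trans h1)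
  unfold Dm
  refine max_le_max ?_ (by linarith)
  have h4 : (m - 1 + a) * (m - 1 + b) ≤ (m - 1 + a') * (m - 1 + b') :=
    mul_le_mul (by linarith) (by linarith) (by linarith) (by linarith)
  have h5 : (m - 1 + a) * (m - 1 + b) / m ≤ (m - 1 + a') * (m - 1 + b') / m :=
    div_le_div_of_nonneg_right h4 (by linarith)
  linarith

end Prc24
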