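import Pool.Agent.Prc24.Chain

/-!
# Rows and columns of good positions have no gaps

`fill_h`: let `z = (x, y)` and `z' = (x + k K, y)` be good, `p` in both of them, `l ≤ k`.  We show that
`w = (x + l K, y)` is good, i.e. `f w ≤ m` (`le_f` is the other inequality).  `k ≤ m - 1` because of `p`.  A point `e`
of `ct w` with `e.1 < x + (m K + A)` belongs to `ct z`; its column slot `i` in `z` satisfies `l ≤ i`
(since `e.1 ≥ x + l K` and `e.1 < x + i K + K`).  A point `e` of `ct w` with `e.1 ≥ x + (m K + A)`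
belongs to `ct z'` (`x + k K ≤ x + m K`, `e.1 < x + l K + (m K + A) ≤ x + k K + (m K + A)`); let `i'` be its
column slot in `z'`; `x + k K + i' K + A ≤ e.1 < x + l K + m K + A` gives `k + i' < l + m`, and
`e.1 ≥ x + m K + A`, `e.1 < x + k K + i' K + K` give `m ≤ k + i'`.  So the map sending `e` to its absolute slot (`i`, resp.
`k + i'`) maps `ct w` injectively (`col_inj`) into `[l, l + m)`, and `f w ≤ m`.
-/

namespace Prc24

open Finset Classical

variable {P : Set Z2} {K A B : ℤ} {m : ℕ}

private lemma aux_h (h : Prc P K A B m) {x y : ℤ} {k l : ℕ} {p : Z2} (hlk : l ≤ k)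
    (h1 : GI P K A B m (x, y) p) (h2 : GI P K A B m (x + k * K, y) p) (e : Z2)
    (he : e ∈ ct P K A B m (x + l * K, y)) :
    ∃ s : ℕ, l ≤ s ∧ s < l + m ∧ x + s * K ≤ e.1 ∧ e.1 < x + s * K + K ∧
      ((e ∈ ct P K A B m (x, y) ∧ s < m) ∨
        (e ∈ ct P K A B m (x + k * K, y) ∧ k ≤ s ∧ x + m * K + A ≤ e.1)) := by
  have hA0 := h.A0
  have hAK := h.AK
  have hB0 := h.B0
  have hBK := h.BK
  have hK : 0 < K := by linarith
  obtain ⟨heP, hx1, hx2, hy1, hy2⟩ := mem_ct.1 he
  obtain ⟨hpP, px1, px2, py1, py2⟩ := mem_ct.1 h1.2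
  obtain ⟨-, qx1, qx2, qy1, qy2⟩ := mem_ct.1 h2.2
  simp only at hx1 hx2 hy1 hy2 px1 px2 py1 py2 qx1 qx2 qy1 qy2
  have hlk' : (l : ℤ) * K ≤ k * K := by
    apply mul_le_mul_of_nonneg_right _ hK.le
    exact_mod_cast hlk
  have hl0 : (0 : ℤ) ≤ l * K := by positivity
  have hkm : k ≤ m := by
    by_contra hc
    push Not at hc
    have h3 : ((m : ℤ) + 1) * K ≤ k * K := by
      apply mul_le_mul_of_nonneg_right _ hK.le
      exact_mod_cast hc
    have h4 : ((m : ℤ) + 1) * K = m * K + K := by ring
    linarith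
  have hkm' : (k : ℤ) * K ≤ m * K := by
    apply mul_le_mul_of_nonneg_right _ hK.le
    exact_mod_cast hkm
  by_cases hc : e.1 < x + (m * K + A)
  · have hez : e ∈ ct P K A B m (x, y) := by
      rw [mem_ct]
      simp only
      exact ⟨heP, by linarith, by linarith, by linarith, by linarith⟩
    obtain ⟨i, him, hi1, hi2⟩ := col_slot h h1.1 hez
    simp only at hi1 hi2
    refine ⟨i, ?_, by omega, by linarith, by linarith, Or.inl ⟨hez, him⟩⟩
    by_contra hcon
    push Not at hcon
    have h3 : ((i : ℤ) + 1) * K ≤ l * K := by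
      apply mul_le_mul_of_nonneg_right _ hK.le
      exact_mod_cast hcon
    have h4 : ((i : ℤ) + 1) * K = i * K + K := by ring
    linarith
  · push Not at hc
    have hez : e ∈ ct P K A B m (x + k * K, y) := by
      rw [mem_ct]
      simp only
      exact ⟨heP, by linarith, by linarith, by linarith, by linarith⟩
    obtain ⟨i, him, hi1, hi2⟩ := col_slot h h2.1 hez
    simp only at hi1 hi2
    have h5 : ((k + i : ℕ) : ℤ) * K = k * K + i * K := by push_cast; ring
    refine ⟨k + i, by omega, ?_, by rw [h5]; linarith, by rw [h5]; linarith,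
      Or.inr ⟨hez, by omega, by linarith⟩⟩
    by_contra hcon
    push Not at hcon
    have h3 : ((l : ℤ) + m) * K ≤ ((k + i : ℕ) : ℤ) * K := by
      apply mul_le_mul_of_nonneg_right _ hK.le
      exact_mod_cast hcon
    have h4 : ((l : ℤ) + m) * K = l * K + m * K := by ring
    linarith

lemma fill_h (h : Prc P K A B m) {x y : ℤ} {k l : ℕ} {p : Z2} (hlk : l ≤ k)
    (h1 : GI P K A B m (x, y) p) (h2 : GI P K A B m (x + k * K, y) p) :
    Gd P K A B m (x + l * K, y) := by
  have hA0 := h.A0
  have hAK := h.AK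
  have hB0 := h.B0
  have hBK := h.BK
  have hK : 0 < K := by linarith
  apply le_antisymm _ (le_f h _)
  choose! s hs1 hs2 hs3 hs4 hs5 using aux_h h hlk h1 h2
  have hcard : (ct P K A B m (x + l * K, y)).card ≤ (Finset.Ico l (l + m)).card := by
    apply Finset.card_le_card_of_injOn s
    · intro e he
      have he' := Finset.mem_coe.1 he
      exact Finset.mem_coe.2 (Finset.mem_Ico.2 ⟨hs1 e he', hs2 e he'⟩)
    · intro e he e' he' hee
      have he1 := Finset.mem_coe.1 he
      have he2 := Finset.mem_coe.1 he'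
      have a1 := hs3 e he1
      have a2 := hs4 e he1
      have b1 := hs3 e' he2
      have b2 := hs4 e' he2
      rw [← hee] at b1 b2
      rcases hs5 e he1 with ⟨c1, c2⟩ | ⟨c1, c2, c3⟩
      · rcases hs5 e' he2 with ⟨d1, d2⟩ | ⟨d1, d2, d3⟩
        · exact col_inj h h1.1 c1 d1 a1 a2 b1 b2
        · exfalso
          have h3 : ((s e : ℤ) + 1) * K ≤ m * K := by
            apply mul_le_mul_of_nonneg_right _ hK.le
            exact_mod_cast c2
          have h4 : ((s e : ℤ) + 1) * K = s e * K + K := by ring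
          linarith
      · rcases hs5 e' he2 with ⟨d1, d2⟩ | ⟨d1, d2, d3⟩
        · exfalso
          rw [← hee] at d2
          have h3 : ((s e : ℤ) + 1) * K ≤ m * K := by
            apply mul_le_mul_of_nonneg_right _ hK.le
            exact_mod_cast d2
          have h4 : ((s e : ℤ) + 1) * K = s e * K + K := by ring
          linarith
        · obtain ⟨i, hi⟩ : ∃ i : ℕ, s e = k + i := ⟨s e - k, by omega⟩
          have h5 : ((s e : ℕ) : ℤ) * K = k * K + i * K := by rw [hi]; push_cast; ring
          rw [h5] at a1 a2 b1 b2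
          exact col_inj h (i := i) h2.1 c1 d1 (by simp only; linarith) (by simp only; linarith)
            (by simp only; linarith) (by simp only; linarith)
  rw [Nat.card_Ico] at hcard
  unfold f
  omega

private lemma aux_v (h : Prc P K A B m) {x y : ℤ} {k l : ℕ} {p : Z2} (hlk : l ≤ k)
    (h1 : GI P K A B m (x, y) p) (h2 : GI P K A B m (x, y + k * K) p) (e : Z2)
    (he : e ∈ ct P K A B m (x, y + l * K)) :
    ∃ s : ℕ, l ≤ s ∧ s < l + m ∧ y + s * K ≤ e.2 ∧ e.2 < y + s * K + K ∧
      ((e ∈ ct P K A B m (x, y) ∧ s < m) ∨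
        (e ∈ ct P K A B m (x, y + k * K) ∧ k ≤ s ∧ y + m * K + B ≤ e.2)) := by
  have hA0 := h.A0
  have hAK := h.AK
  have hB0 := h.B0
  have hBK := h.BK
  have hK : 0 < K := by linarith
  obtain ⟨heP, hx1, hx2, hy1, hy2⟩ := mem_ct.1 he
  obtain ⟨hpP, px1, px2, py1, py2⟩ := mem_ct.1 h1.2
  obtain ⟨-, qx1, qx2, qy1, qy2⟩ := mem_ct.1 h2.2
  simp only at hx1 hx2 hy1 hy2 px1 px2 py1 py2 qx1 qx2 qy1 qy2
  have hlk' : (l : ℤ) * K ≤ k * K := by
    apply mul_le_mul_of_nonneg_right _ hK.le
    exact_mod_cast hlk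
  have hl0 : (0 : ℤ) ≤ l * K := by positivity
  have hkm : k ≤ m := by
    by_contra hc
    push Not at hc
    have h3 : ((m : ℤ) + 1) * K ≤ k * K := by
      apply mul_le_mul_of_nonneg_right _ hK.le
      exact_mod_cast hc
    have h4 : ((m : ℤ) + 1) * K = m * K + K := by ring
    linarith
  have hkm' : (k : ℤ) * K ≤ m * K := by
    apply mul_le_mul_of_nonneg_right _ hK.le
    exact_mod_cast hkm
  by_cases hc : e.2 < y + (m * K + B)
  · have hez : e ∈ ct P K A B m (x, y) := by
      rw [mem_ct]
      simp only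
      exact ⟨heP, by linarith, by linarith, by linarith, by linarith⟩
    obtain ⟨i, him, hi1, hi2⟩ := row_slot h h1.1 hez
    simp only at hi1 hi2
    refine ⟨i, ?_, by omega, by linarith, by linarith, Or.inl ⟨hez, him⟩⟩
    by_contra hcon
    push Not at hcon
    have h3 : ((i : ℤ) + 1) * K ≤ l * K := by
      apply mul_le_mul_of_nonneg_right _ hK.le
      exact_mod_cast hcon
    have h4 : ((i : ℤ) + 1) * K = i * K + K := by ring
    linarith
  · push Not at hc
    have hez : e ∈ ct P K A B m (x, y + k * K) := by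
      rw [mem_ct]
      simp only
      exact ⟨heP, by linarith, by linarith, by linarith, by linarith⟩
    obtain ⟨i, him, hi1, hi2⟩ := row_slot h h2.1 hez
    simp only at hi1 hi2
    have h5 : ((k + i : ℕ) : ℤ) * K = k * K + i * K := by push_cast; ring
    refine ⟨k + i, by omega, ?_, by rw [h5]; linarith, by rw [h5]; linarith,
      Or.inr ⟨hez, by omega, by linarith⟩⟩
    by_contra hcon
    push Not at hcon
    have h3 : ((l : ℤ) + m) * K ≤ ((k + i : ℕ) : ℤ) * K := by
      apply mul_le_mul_of_nonneg_right _ hK.le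
      exact_mod_cast hcon
    have h4 : ((l : ℤ) + m) * K = l * K + m * K := by ring
    linarith

lemma fill_v (h : Prc P K A B m) {x y : ℤ} {k l : ℕ} {p : Z2} (hlk : l ≤ k)
    (h1 : GI P K A B m (x, y) p) (h2 : GI P K A B m (x, y + k * K) p) :
    Gd P K A B m (x, y + l * K) := by
  have hA0 := h.A0
  have hAK := h.AK
  have hB0 := h.B0
  have hBK := h.BK
  have hK : 0 < K := by linarith
  apply le_antisymm _ (le_f h _)
  choose! s hs1 hs2 hs3 hs4 hs5 using aux_v h hlk h1 h2
  have hcard : (ct P K A B m (x, y + l * K)).card ≤ (Finset.Ico l (l + m)).card := by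
    apply Finset.card_le_card_of_injOn s
    · intro e he
      have he' := Finset.mem_coe.1 he
      exact Finset.mem_coe.2 (Finset.mem_Ico.2 ⟨hs1 e he', hs2 e he'⟩)
    · intro e he e' he' hee
      have he1 := Finset.mem_coe.1 he
      have he2 := Finset.mem_coe.1 he'
      have a1 := hs3 e he1
      have a2 := hs4 e he1
      have b1 := hs3 e' he2
      have b2 := hs4 e' he2
      rw [← hee] at b1 b2
      rcases hs5 e he1 with ⟨c1, c2⟩ | ⟨c1, c2, c3⟩
      · rcases hs5 e' he2 with ⟨d1, d2⟩ | ⟨d1, d2, d3⟩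
        · exact row_inj h h1.1 c1 d1 a1 a2 b1 b2
        · exfalso
          have h3 : ((s e : ℤ) + 1) * K ≤ m * K := by
            apply mul_le_mul_of_nonneg_right _ hK.le
            exact_mod_cast c2
          have h4 : ((s e : ℤ) + 1) * K = s e * K + K := by ring
          linarith
      · rcases hs5 e' he2 with ⟨d1, d2⟩ | ⟨d1, d2, d3⟩
        · exfalso
          rw [← hee] at d2
          have h3 : ((s e : ℤ) + 1) * K ≤ m * K := by
            apply mul_le_mul_of_nonneg_right _ hK.le
            exact_mod_cast d2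
          have h4 : ((s e : ℤ) + 1) * K = s e * K + K := by ring
          linarith
        · obtain ⟨i, hi⟩ : ∃ i : ℕ, s e = k + i := ⟨s e - k, by omega⟩
          have h5 : ((s e : ℕ) : ℤ) * K = k * K + i * K := by rw [hi]; push_cast; ring
          rw [h5] at a1 a2 b1 b2
          exact row_inj h (i := i) h2.1 c1 d1 (by simp only; linarith) (by simp only; linarith)
            (by simp only; linarith) (by simp only; linarith)
  rw [Nat.card_Ico] at hcard
  unfold f
  omega

end Prc24
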