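import Pool.Agent.Prc24.LatP
import Pool.Agent.Prc92.Dens

/-!
# The density of the extremal lattice

The determinant of the generators `(α / m * w, -h)`, `(w, β h)` is `(α β / m + 1) w h > 0`.  The translates of the
half-open fundamental parallelogram `F = {s u + t v : 0 ≤ s, t < 1}` by lattice points are disjoint and have this area;
those of the lattice points of `[-r, r]²` are contained in `[-r - c, r + c]²`, `c = |u| + |v|`.  So the number of lattice
points in `[-r, r]²` is at most `(2 r + 2 c)² / ((α β / m + 1) w h)`.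
-/

namespace Prc24

open Filter Topology MeasureTheory

/-- unit squares -/
private def usq (z : Fin 2 → ℤ) : Set (Fin 2 → ℝ) :=
  Set.pi Set.univ (fun i => Set.Ico ((z i : ℤ) : ℝ) ((z i : ℝ) + 1))

private lemma usq_vol (z : Fin 2 → ℤ) : volume (usq z) = 1 := by
  unfold usq
  rw [Real.volume_pi_Ico]
  simp

private lemma usq_meas (z : Fin 2 → ℤ) : MeasurableSet (usq z) :=
  MeasurableSet.univ_pi fun _ => measurableSet_Ico

private lemma usq_disj (z z' : Fin 2 → ℤ) (h : z ≠ z') : Disjoint (usq z) (usq z') := by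
  rw [Set.disjoint_left]
  intro x hx hx'
  refine h (funext fun i => ?_)
  have h1 := hx i (Set.mem_univ i)
  have h2 := hx' i (Set.mem_univ i)
  have e1 : ⌊x i⌋ = z i := by
    rw [Int.floor_eq_iff]
    exact ⟨h1.1, h1.2⟩
  have e2 : ⌊x i⌋ = z' i := by
    rw [Int.floor_eq_iff]
    exact ⟨h2.1, h2.2⟩
  rw [← e1, e2]

private lemma cnt {γ β w h : ℝ} (hw : 0 < w) (hh : 0 < h) (hγ : 0 ≤ γ) (hβ : 0 ≤ β) {r : ℝ} (hr : 0 < r) :
    (({q : ℝ × ℝ | ∃ i j : ℤ, q = ((i * γ + j) * w, (-i + j * β) * h)} ∩ Prc92.bx r).encard : ENNReal)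
      ≤ ENNReal.ofReal ((2 * (r / w + γ + 1)) * (2 * (r / h + 1 + β)) / (1 + γ * β)) := by
  set φ : (Fin 2 → ℤ) → ℝ × ℝ := fun z => (((z 0 : ℤ) * γ + (z 1 : ℤ)) * w, (-((z 0 : ℤ) : ℝ) + (z 1 : ℤ) * β) * h) with hφ
  set P : Set (Fin 2 → ℤ) := {z | φ z ∈ Prc92.bx r} with hP
  have hD : 0 < 1 + γ * β := by positivity
  have hsub : ({q : ℝ × ℝ | ∃ i j : ℤ, q = ((i * γ + j) * w, (-i + j * β) * h)} ∩ Prc92.bx r) ⊆ φ '' P := by
    rintro q ⟨⟨i, j, rfl⟩, hq⟩
    exact ⟨![i, j], hq, rfl⟩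
  set M : Matrix (Fin 2) (Fin 2) ℝ := !![γ, 1; -1, β] with hM
  have hdet : M.det = 1 + γ * β := by
    rw [hM, Matrix.det_fin_two_of]
    ring
  set a : Fin 2 → ℝ := ![-(r / w + γ + 1), -(r / h + 1 + β)] with ha
  set b : Fin 2 → ℝ := ![r / w + γ + 1, r / h + 1 + β] with hb
  have hvol : volume ((Matrix.toLin' M) ⁻¹' (Set.Icc a b))
      = ENNReal.ofReal ((2 * (r / w + γ + 1)) * (2 * (r / h + 1 + β)) / (1 + γ * β)) := by
    have h1 := Real.map_matrix_volume_pi_eq_smul_volume_pi (M := M) (by rw [hdet]; exact hD.ne')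
    have hmeas : Measurable (Matrix.toLin' M) := by
      have : Continuous (Matrix.toLin' M) := LinearMap.continuous_of_finiteDimensional _
      exact this.measurable
    rw [← Measure.map_apply hmeas measurableSet_Icc, h1, Measure.smul_apply, Real.volume_Icc_pi, hdet,
      Fin.prod_univ_two, smul_eq_mul, ← ENNReal.ofReal_mul, ← ENNReal.ofReal_mul (abs_nonneg _)]
    · congr 1
      rw [abs_of_pos (inv_pos.2 hD)]
      simp only [ha, hb, Matrix.cons_val_zero, Matrix.cons_val_one]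
      field_simp
      ring
    · simp only [ha, hb, Matrix.cons_val_zero]
      have : 0 < r / w := div_pos hr hw
      linarith
  have hin : ∀ z ∈ P, usq z ⊆ (Matrix.toLin' M) ⁻¹' (Set.Icc a b) := by
    intro z hz x hx
    have hz' : φ z ∈ Prc92.bx r := hz
    rw [Prc92.bx, Set.mem_prod, Set.mem_Icc, Set.mem_Icc] at hz'
    obtain ⟨⟨z1, z2⟩, z3, z4⟩ := hz'
    simp only [hφ] at z1 z2 z3 z4
    have y1 : -(r / w) ≤ (z 0 : ℤ) * γ + (z 1 : ℤ) := by
      rw [← neg_div, div_le_iff₀ hw]; exact z1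
    have y2 : (z 0 : ℤ) * γ + (z 1 : ℤ) ≤ r / w := by
      rw [le_div_iff₀ hw]; exact z2
    have y3 : -(r / h) ≤ -((z 0 : ℤ) : ℝ) + (z 1 : ℤ) * β := by
      rw [← neg_div, div_le_iff₀ hh]; exact z3
    have y4 : -((z 0 : ℤ) : ℝ) + (z 1 : ℤ) * β ≤ r / h := by
      rw [le_div_iff₀ hh]; exact z4
    obtain ⟨p1, p2⟩ := hx 0 (Set.mem_univ _)
    obtain ⟨p3, p4⟩ := hx 1 (Set.mem_univ _)
    have q1 : ((z 0 : ℤ) : ℝ) * γ ≤ x 0 * γ := mul_le_mul_of_nonneg_right p1 hγ
    have q2 : x 0 * γ ≤ (((z 0 : ℤ) : ℝ) + 1) * γ := mul_le_mul_of_nonneg_right p2.le hγ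
    have q3 : ((z 1 : ℤ) : ℝ) * β ≤ x 1 * β := mul_le_mul_of_nonneg_right p3 hβ
    have q4 : x 1 * β ≤ (((z 1 : ℤ) : ℝ) + 1) * β := mul_le_mul_of_nonneg_right p4.le hβ
    have e0 : (Matrix.toLin' M) x 0 = x 0 * γ + x 1 := by
      rw [Matrix.toLin'_apply, hM]
      simp [Matrix.mulVec, dotProduct, Fin.sum_univ_two]
      ring
    have e1 : (Matrix.toLin' M) x 1 = -x 0 + x 1 * β := by
      rw [Matrix.toLin'_apply, hM]
      simp [Matrix.mulVec, dotProduct, Fin.sum_univ_two]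
      ring
    rw [Set.mem_preimage, Set.mem_Icc, Pi.le_def, Pi.le_def]
    constructor
    · intro i
      fin_cases i
      · change a 0 ≤ (Matrix.toLin' M) x 0
        rw [e0]
        simp only [ha, Matrix.cons_val_zero]
        linarith
      · change -(r / h + 1 + β) ≤ (Matrix.toLin' M) x 1
        rw [e1]
        linarith
    · intro i
      fin_cases i
      · change (Matrix.toLin' M) x 0 ≤ b 0
        rw [e0]
        simp only [hb, Matrix.cons_val_zero]
        linarith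
      · change (Matrix.toLin' M) x 1 ≤ r / h + 1 + β
        rw [e1]
        linarith
  have hcount : ((P.encard : ℕ∞) : ENNReal) ≤ volume ((Matrix.toLin' M) ⁻¹' (Set.Icc a b)) := by
    have h1 : volume (⋃ z ∈ P, usq z) = ∑' z : P, volume (usq z) :=
      measure_biUnion (Set.to_countable P) (fun z _ z' _ hne => usq_disj z z' hne) (fun z _ => usq_meas z)
    have h2 : (∑' z : P, volume (usq z)) = ((P.encard : ℕ∞) : ENNReal) := by
      simp only [usq_vol]
      exact ENNReal.tsum_set_one P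
    rw [← h2, ← h1]
    exact measure_mono (Set.iUnion₂_subset hin)
  rw [← hvol]
  refine le_trans ?_ hcount
  exact ENat.toENNReal_mono ((Set.encard_le_encard hsub).trans (Set.encard_image_le φ P))

lemma lat_density {m : ℕ} {α β w h : ℝ} (hm : 1 ≤ m) (hw : 0 < w) (hh : 0 < h)
    (hα : 0 ≤ α) (hβ : 0 ≤ β) :
    limsup (fun r : ℝ => ((Lt m α β w h ∩ Prc92.bx r).encard : ENNReal) / ENNReal.ofReal (4 * r ^ 2))
      atTop ≤ ENNReal.ofReal (1 / ((1 + α * β / m) * w * h)) := by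
  have hm0 : (0 : ℝ) < m := by exact_mod_cast hm
  have hγ : 0 ≤ α / m := div_nonneg hα hm0.le
  have hD : 0 < 1 + α * β / m := by positivity
  have hDe : 1 + α / m * β = 1 + α * β / m := by ring
  set c1 : ℝ := α / m + 1 with hc1
  set c2 : ℝ := 1 + β with hc2
  have h1 : Tendsto (fun r : ℝ => ENNReal.ofReal ((1 / w + c1 * (1 / r))
      * (1 / h + c2 * (1 / r)) / (1 + α * β / m))) atTop (𝓝 (ENNReal.ofReal (1 / ((1 + α * β / m) * w * h)))) := by
    refine ENNReal.tendsto_ofReal ?_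
    have h2 : Tendsto (fun r : ℝ => 1 / r) atTop (𝓝 0) :=
      Tendsto.div_atTop tendsto_const_nhds tendsto_id
    have h3 := (((h2.const_mul c1).const_add (1 / w)).mul ((h2.const_mul c2).const_add (1 / h))).div_const
      (1 + α * β / m)
    have e : (1 / w + c1 * 0) * (1 / h + c2 * 0) / (1 + α * β / m) = 1 / ((1 + α * β / m) * w * h) := by
      field_simp
      ring
    rw [e] at h3
    exact h3
  rw [← h1.limsup_eq]
  refine limsup_le_limsup ?_
  filter_upwards [eventually_gt_atTop 0] with r hr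
  have h4 : (0 : ℝ) < 4 * r ^ 2 := by positivity
  have hc1' : 0 ≤ c1 := by rw [hc1]; linarith
  have hc2' : 0 ≤ c2 := by rw [hc2]; linarith
  rw [ENNReal.div_le_iff_le_mul (Or.inl (by rw [Ne, ENNReal.ofReal_eq_zero]; linarith))
        (Or.inl ENNReal.ofReal_ne_top), ← ENNReal.ofReal_mul (by positivity)]
  refine (cnt hw hh hγ hβ hr).trans (ENNReal.ofReal_le_ofReal (le_of_eq ?_))
  rw [hDe, hc1, hc2]
  field_simp
  ring

end Prc24
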