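import Pool.Agent.Prc24.Cont
import Pool.Agent.Prc24.LatD

/-!
# Translative and lattice piercing densities of two rectangles, supercritical case
-/

namespace Prc24

open Filter Classical

/-- the closed axis-parallel rectangle of width `w` and height `h` with lower left corner `a` -/
def rect (w h : ℝ) (a : ℝ × ℝ) : Set (ℝ × ℝ) :=
  Set.Icc a.1 (a.1 + w) ×ˢ Set.Icc a.2 (a.2 + h)

/-- `P` meets every translate of every rectangle `r.1 × r.2`, `r ∈ F` -/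
def Piercing (F : Set (ℝ × ℝ)) (P : Set (ℝ × ℝ)) : Prop :=
  ∀ r ∈ F, ∀ a : ℝ × ℝ, (P ∩ rect r.1 r.2 a).Nonempty

/-- upper density: `limsup |P ∩ [-r, r]²| / (4 r²)` -/
noncomputable def density (P : Set (ℝ × ℝ)) : ENNReal :=
  limsup (fun r : ℝ =>
    ((P ∩ (Set.Icc (-r) r ×ˢ Set.Icc (-r) r)).encard : ENNReal) / ENNReal.ofReal (4 * r ^ 2)) atTop

/-- `Λ = {i u + j v : i, j ∈ ℤ}` with `u, v` linearly independent -/
def IsLattice (Λ : Set (ℝ × ℝ)) : Prop :=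
  ∃ u v : ℝ × ℝ, u.1 * v.2 - u.2 * v.1 ≠ 0 ∧ Λ = {x | ∃ i j : ℤ, x = (i : ℝ) • u + (j : ℝ) • v}

/-- translative piercing density -/
noncomputable def piT (F : Set (ℝ × ℝ)) : ENNReal :=
  ⨅ P ∈ {P : Set (ℝ × ℝ) | Piercing F P}, density P

/-- lattice piercing density -/
noncomputable def piL (F : Set (ℝ × ℝ)) : ENNReal :=
  ⨅ Λ ∈ {Λ : Set (ℝ × ℝ) | IsLattice Λ ∧ Piercing F Λ}, density Λ

theorem lower {m : ℕ} (hm : 2 ≤ m) {w₁ h₁ w₂ h₂ ξ η : ℝ} (hw₂ : 0 < w₂) (hh₁ : 0 < h₁)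
    (hξ0 : 0 < ξ) (hξ1 : ξ < 1) (hη0 : 0 < η) (hη1 : η < 1)
    (hw : w₁ = (m + ξ) * w₂) (hh : h₂ = (m + η) * h₁) {P : Set (ℝ × ℝ)}
    (hP : Piercing {(w₁, h₁), (w₂, h₂)} P) :
    ENNReal.ofReal (1 / (Dm m ξ η * w₂ * h₁)) ≤ density P := by
  refine dens_lower hm hw₂ hh₁ hξ0 hξ1 hη0 hη1 hw hh ?_ ?_
  · intro a b
    obtain ⟨q, hq, hq2⟩ := hP (w₁, h₁) (by simp) (a, b)
    rw [rect, Set.mem_prod, Set.mem_Icc, Set.mem_Icc] at hq2
    exact ⟨q, hq, hq2.1.1, hq2.1.2, hq2.2.1, hq2.2.2⟩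
  · intro a b
    obtain ⟨q, hq, hq2⟩ := hP (w₂, h₂) (by simp) (a, b)
    rw [rect, Set.mem_prod, Set.mem_Icc, Set.mem_Icc] at hq2
    exact ⟨q, hq, hq2.1.1, hq2.1.2, hq2.2.1, hq2.2.2⟩

/-- in the supercritical region the maximum in `Dm` is the first term -/
lemma Dm_super {m : ℕ} (hm : 2 ≤ m) {ξ η : ℝ} 
    (hreg : 2 * (m - 1) * (1 - ξ) * (1 - η) ≤ m * ξ * η) :
    Dm m ξ η = 1 + (m - 1 + ξ) * (m - 1 + η) / m := by
  have hm' : (2 : ℝ) ≤ m := by exact_mod_cast hm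
  have hm0 : (0 : ℝ) < m := by linarith
  unfold Dm
  refine max_eq_left ?_
  rw [← sub_nonneg]
  have e : 1 + (m - 1 + ξ) * (m - 1 + η) / m - (m + ξ * η / 2)
      = (m * ξ * η - 2 * (m - 1) * (1 - ξ) * (1 - η)) / (2 * m) := by
    field_simp
    ring
  rw [e]
  exact div_nonneg (by linarith) (by positivity)

theorem equality (m : ℕ) (hm : 2 ≤ m) (w₁ h₁ w₂ h₂ ξ η : ℝ) (hw₂ : 0 < w₂) (hh₁ : 0 < h₁)
    (hξ0 : 0 < ξ) (hξ1 : ξ < 1) (hη0 : 0 < η) (hη1 : η < 1)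
    (hw : w₁ = (m + ξ) * w₂) (hh : h₂ = (m + η) * h₁)
    (hreg : 2 * (m - 1) * (1 - ξ) * (1 - η) ≤ m * ξ * η) :
    piT {(w₁, h₁), (w₂, h₂)} =
        ENNReal.ofReal (1 / ((1 + (m - 1 + ξ) * (m - 1 + η) / m) * w₂ * h₁)) ∧
      piL {(w₁, h₁), (w₂, h₂)} =
        ENNReal.ofReal (1 / ((1 + (m - 1 + ξ) * (m - 1 + η) / m) * w₂ * h₁)) := by
  have hm' : (2 : ℝ) ≤ m := by exact_mod_cast hm
  have hm0 : (0 : ℝ) < m := by linarith
  have low : ∀ P : Set (ℝ × ℝ), Piercing {(w₁, h₁), (w₂, h₂)} P →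
      ENNReal.ofReal (1 / ((1 + (m - 1 + ξ) * (m - 1 + η) / m) * w₂ * h₁)) ≤ density P := by
    intro P hP
    have := lower hm hw₂ hh₁ hξ0 hξ1 hη0 hη1 hw hh hP
    rwa [Dm_super hm hreg] at this
  have hlat : IsLattice (Lt m (m - 1 + ξ) (m - 1 + η) w₂ h₁) := by
    refine ⟨((m - 1 + ξ) / m * w₂, -h₁), (w₂, (m - 1 + η) * h₁), ?_, ?_⟩
    · have h1 : (0 : ℝ) ≤ (m - 1 + ξ) / m * w₂ * ((m - 1 + η) * h₁) := by
        have : (0 : ℝ) ≤ m - 1 := by linarith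
        positivity
      have h2 : 0 < w₂ * h₁ := by positivity
      simp only
      nlinarith
    · ext x
      constructor
      · rintro ⟨i, j, rfl⟩
        refine ⟨i, j, ?_⟩
        ext
        · simp
          ring
        · simp
          ring
      · rintro ⟨i, j, rfl⟩
        refine ⟨i, j, ?_⟩
        ext
        · simp
          ring
        · simp
          ring
  have hpier : Piercing {(w₁, h₁), (w₂, h₂)} (Lt m (m - 1 + ξ) (m - 1 + η) w₂ h₁) := by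
    intro r hr a
    simp only [Set.mem_insert_iff, Set.mem_singleton_iff] at hr
    rcases hr with rfl | rfl
    · obtain ⟨q, hq, q1, q2, q3, q4⟩ := lat_pierce1 (m := m) (α := m - 1 + ξ) (β := m - 1 + η)
        (by omega) hw₂ hh₁ (by linarith) (by linarith) (by linarith) (by linarith) a.1 a.2
      refine ⟨q, hq, ?_⟩
      rw [rect, Set.mem_prod, Set.mem_Icc, Set.mem_Icc]
      refine ⟨⟨q1, ?_⟩, q3, q4⟩
      simp only
      rw [hw]
      refine q2.trans (le_of_eq ?_)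
      ring
    · obtain ⟨q, hq, q1, q2, q3, q4⟩ := lat_pierce2 (m := m) (α := m - 1 + ξ) (β := m - 1 + η)
        (by omega) hw₂ hh₁ (by linarith) (by linarith) (by linarith) (by linarith) a.1 a.2
      refine ⟨q, hq, ?_⟩
      rw [rect, Set.mem_prod, Set.mem_Icc, Set.mem_Icc]
      refine ⟨⟨q1, q2⟩, q3, ?_⟩
      simp only
      rw [hh]
      refine q4.trans (le_of_eq ?_)
      ring
  have hdens : density (Lt m (m - 1 + ξ) (m - 1 + η) w₂ h₁) ≤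
      ENNReal.ofReal (1 / ((1 + (m - 1 + ξ) * (m - 1 + η) / m) * w₂ * h₁)) :=
    lat_density (m := m) (by omega) hw₂ hh₁ (by linarith) (by linarith)
  constructor
  · apply le_antisymm
    · exact (iInf₂_le (Lt m (m - 1 + ξ) (m - 1 + η) w₂ h₁) hpier).trans hdens
    · exact le_iInf₂ fun P hP => low P hP
  · apply le_antisymm
    · exact (iInf₂_le (Lt m (m - 1 + ξ) (m - 1 + η) w₂ h₁) ⟨hlat, hpier⟩).trans hdens
    · exact le_iInf₂ fun P hP => low P hP.2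

end Prc24
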