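import Pool.Agent.Prc24.Chain

/-!
# Full corners from a fitting neighbour

`NE_of_Rm`: let `q` be the point of `Rm`, `M = ct z` (not empty, `m` points), `ξ` the smallest abscissa of `M`,
`η` the smaller one of `q.2` and the smallest ordinate of `M`.  The inequalities on `M` follow from `col_ext`,
`row_ext` and `Rm`.  Let `ξ - A < x ≤ ξ`, `η - B < y ≤ η`.  All points of `M` and `q` have abscissa in
`[ξ, ξ + m K]` and ordinate in `[η, η + (m - 1) K]`, so they lie in the window `(x, y)`.  Let `Y1 ≤ η + (m-1) K`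
be the largest of the ordinates of `M` and of `q.2`; `h.hor x (Y1 + 1)` gives a point `e` with
`Y1 < e.2 ≤ Y1 + K ≤ η + m K < y + (m K + B)` and `x ≤ e.1 < x + (m K + A)`.  So the window contains `m + 2`
points (`M`, `q`, `e`; `q ∉ M` since `q.1` is larger than all abscissae of `M`).  The other seven statements
are obtained by reflections and by exchanging the coordinates.
-/

namespace Prc24

open Finset Classical

variable {P : Set Z2} {K A B : ℤ} {m : ℕ}

private lemma cnt_top (h : Prc P K A B m) {x y : ℤ} (S : Finset Z2) (hS : S.Nonempty) (hP : ∀ p ∈ S, p ∈ P)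
    (hx : ∀ p ∈ S, x ≤ p.1 ∧ p.1 < x + (m * K + A))
    (hy : ∀ p ∈ S, y ≤ p.2 ∧ p.2 + K < y + (m * K + B)) : S.card + 1 ≤ f P K A B m (x, y) := by
  have hK : 0 < K := lt_trans h.A0 h.AK
  obtain ⟨p1, hp1, hmax⟩ := Finset.exists_max_image S (fun p => p.2) hS
  obtain ⟨e, heP, E1, E2, E3, E4⟩ := h.hor x (p1.2 + 1)
  have hne : e ∉ S := fun he => by
    have := hmax e he
    linarith
  rw [← Finset.card_insert_of_notMem hne]
  apply Finset.card_le_card
  intro a ha
  rw [Finset.mem_insert] at ha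
  rcases ha with ha | ha
  · subst ha
    rw [mem_ct]
    have h1 := hy p1 hp1
    refine ⟨heP, E1, E2, ?_, ?_⟩
    · simp only
      linarith
    · simp only
      linarith
  · rw [mem_ct]
    have h1 := hx a ha
    have h2 := hy a ha
    exact ⟨hP a ha, h1.1, h1.2, h2.1, by simp only; linarith⟩

private lemma cnt_bot (h : Prc P K A B m) {x y : ℤ} (S : Finset Z2) (hS : S.Nonempty) (hP : ∀ p ∈ S, p ∈ P)
    (hx : ∀ p ∈ S, x ≤ p.1 ∧ p.1 < x + (m * K + A))
    (hy : ∀ p ∈ S, y + K ≤ p.2 ∧ p.2 < y + (m * K + B)) : S.card + 1 ≤ f P K A B m (x, y) := by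
  have hK : 0 < K := lt_trans h.A0 h.AK
  obtain ⟨p1, hp1, hmin⟩ := Finset.exists_min_image S (fun p => p.2) hS
  obtain ⟨e, heP, E1, E2, E3, E4⟩ := h.hor x (p1.2 - K)
  have hne : e ∉ S := fun he => by
    have := hmin e he
    linarith
  rw [← Finset.card_insert_of_notMem hne]
  apply Finset.card_le_card
  intro a ha
  rw [Finset.mem_insert] at ha
  rcases ha with ha | ha
  · subst ha
    rw [mem_ct]
    have h1 := hy p1 hp1
    refine ⟨heP, E1, E2, ?_, ?_⟩
    · simp only
      linarith
    · simp only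
      linarith
  · rw [mem_ct]
    have h1 := hx a ha
    have h2 := hy a ha
    exact ⟨hP a ha, h1.1, h1.2, by simp only; linarith, h2.2⟩

private lemma ne_ct (h : Prc P K A B m) {z : Z2} (hz : Gd P K A B m z) : (ct P K A B m z).Nonempty := by
  rw [← Finset.card_pos]
  have h1 : (ct P K A B m z).card = m := hz
  have h2 := h.m2
  omega

private lemma mulsub (h : Prc P K A B m) : (0 : ℤ) ≤ ((m : ℤ) - 1) * K := by
  have hK : 0 < K := lt_trans h.A0 h.AK
  apply mul_nonneg _ hK.le
  have : (2 : ℤ) ≤ m := by exact_mod_cast h.m2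
  linarith

private lemma m1K : ((m : ℤ) - 1) * K = m * K - K := by ring

/-- the lower end of the ordinates -/
private lemma lowY (h : Prc P K A B m) {z : Z2} (hz : Gd P K A B m z) (q : Z2)
    (hq : ∀ p ∈ ct P K A B m z, p.2 ≤ q.2 + (m - 1) * K ∧ q.2 ≤ p.2 + (m - 1) * K) :
    ∃ η : ℤ, (∀ p ∈ ct P K A B m z, η ≤ p.2 ∧ p.2 ≤ η + (m - 1) * K) ∧ η ≤ q.2 ∧ q.2 ≤ η + (m - 1) * K := by
  obtain ⟨p1, hp1, hmin⟩ := Finset.exists_min_image (ct P K A B m z) (fun p => p.2) (ne_ct h hz)
  have h0 := mulsub h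
  by_cases hc : q.2 ≤ p1.2
  · refine ⟨q.2, fun p hp => ⟨?_, (hq p hp).1⟩, le_refl _, by linarith⟩
    have := hmin p hp
    linarith
  · push Not at hc
    exact ⟨p1.2, fun p hp => ⟨hmin p hp, row_ext h hz hp1 hp⟩, hc.le, (hq p1 hp1).2⟩

/-- the upper end of the ordinates -/
private lemma highY (h : Prc P K A B m) {z : Z2} (hz : Gd P K A B m z) (q : Z2)
    (hq : ∀ p ∈ ct P K A B m z, p.2 ≤ q.2 + (m - 1) * K ∧ q.2 ≤ p.2 + (m - 1) * K) :
    ∃ η : ℤ, (∀ p ∈ ct P K A B m z, p.2 ≤ η ∧ η ≤ p.2 + (m - 1) * K) ∧ q.2 ≤ η ∧ η ≤ q.2 + (m - 1) * K := by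
  obtain ⟨p1, hp1, hmax⟩ := Finset.exists_max_image (ct P K A B m z) (fun p => p.2) (ne_ct h hz)
  have h0 := mulsub h
  by_cases hc : p1.2 ≤ q.2
  · refine ⟨q.2, fun p hp => ⟨?_, (hq p hp).2⟩, le_refl _, by linarith⟩
    have := hmax p hp
    linarith
  · push Not at hc
    exact ⟨p1.2, fun p hp => ⟨hmax p hp, row_ext h hz hp hp1⟩, hc.le, (hq p1 hp1).1⟩

private lemma cards (h : Prc P K A B m) {z : Z2} (hz : Gd P K A B m z) {q : Z2}
    (hq : q ∉ ct P K A B m z) : (insert q (ct P K A B m z)).card + 1 = m + 2 := by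
  rw [Finset.card_insert_of_notMem hq]
  have : (ct P K A B m z).card = m := hz
  omega

lemma NE_of_Rm (h : Prc P K A B m) {z : Z2} (hz : Gd P K A B m z) (hm : Rm P K A B m z) :
    NE P K A B m (ct P K A B m z) := by
  obtain ⟨q, hqP, hq⟩ := hm
  obtain ⟨p1, hp1, hmin⟩ := Finset.exists_min_image (ct P K A B m z) (fun p => p.1) (ne_ct h hz)
  obtain ⟨η, hη, hq1, hq2⟩ := lowY h hz q (fun p hp => (hq p hp).2.2)
  have hA := h.A0
  have hB := h.B0
  have hBK := h.BK
  have hM := @m1K K m
  have hqn : q ∉ ct P K A B m z := fun hc => by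
    have := (hq q hc).1
    linarith
  have h0 := mulsub h
  refine ⟨p1.1, η, fun p hp => ⟨hmin p hp, col_ext h hz hp1 hp, hη p hp⟩, ?_⟩
  intro x y hx1 hx2 hy1 hy2
  rw [← cards h hz hqn]
  apply cnt_top h
  · exact Finset.insert_nonempty _ _
  · intro p hp
    rw [Finset.mem_insert] at hp
    rcases hp with rfl | hp
    · exact hqP
    · exact (mem_ct.1 hp).1
  · intro p hp
    rw [Finset.mem_insert] at hp
    rcases hp with rfl | hp
    · have h1 := hq p1 hp1
      constructor <;> linarith
    · have h1 := hmin p hp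
      have h2 := col_ext h hz hp1 hp
      constructor <;> linarith
  · intro p hp
    rw [Finset.mem_insert] at hp
    rcases hp with rfl | hp
    · constructor <;> linarith
    · have h1 := hη p hp
      constructor <;> linarith

lemma SE_of_Rm (h : Prc P K A B m) {z : Z2} (hz : Gd P K A B m z) (hm : Rm P K A B m z) :
    SE P K A B m (ct P K A B m z) := by
  obtain ⟨q, hqP, hq⟩ := hm
  obtain ⟨p1, hp1, hmin⟩ := Finset.exists_min_image (ct P K A B m z) (fun p => p.1) (ne_ct h hz)
  obtain ⟨η, hη, hq1, hq2⟩ := highY h hz q (fun p hp => (hq p hp).2.2)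
  have hA := h.A0
  have hB := h.B0
  have hBK := h.BK
  have hM := @m1K K m
  have hqn : q ∉ ct P K A B m z := fun hc => by
    have := (hq q hc).1
    linarith
  have h0 := mulsub h
  refine ⟨p1.1, η, fun p hp => ⟨hmin p hp, col_ext h hz hp1 hp, hη p hp⟩, ?_⟩
  intro x y hx1 hx2 hy1 hy2
  rw [← cards h hz hqn]
  apply cnt_bot h
  · exact Finset.insert_nonempty _ _
  · intro p hp
    rw [Finset.mem_insert] at hp
    rcases hp with rfl | hp
    · exact hqP
    · exact (mem_ct.1 hp).1
  · intro p hp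
    rw [Finset.mem_insert] at hp
    rcases hp with rfl | hp
    · have h1 := hq p1 hp1
      constructor <;> linarith
    · have h1 := hmin p hp
      have h2 := col_ext h hz hp1 hp
      constructor <;> linarith
  · intro p hp
    rw [Finset.mem_insert] at hp
    rcases hp with rfl | hp
    · constructor <;> linarith
    · have h1 := hη p hp
      constructor <;> linarith

lemma NW_of_Lm (h : Prc P K A B m) {z : Z2} (hz : Gd P K A B m z) (hm : Lm P K A B m z) :
    NW P K A B m (ct P K A B m z) := by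
  obtain ⟨q, hqP, hq⟩ := hm
  obtain ⟨p1, hp1, hmax⟩ := Finset.exists_max_image (ct P K A B m z) (fun p => p.1) (ne_ct h hz)
  obtain ⟨η, hη, hq1, hq2⟩ := lowY h hz q (fun p hp => (hq p hp).2.2)
  have hA := h.A0
  have hB := h.B0
  have hBK := h.BK
  have hM := @m1K K m
  have hqn : q ∉ ct P K A B m z := fun hc => by
    have := (hq q hc).1
    linarith
  have h0 := mulsub h
  refine ⟨p1.1, η, fun p hp => ⟨hmax p hp, col_ext h hz hp hp1, hη p hp⟩, ?_⟩
  intro x y hx1 hx2 hy1 hy2
  rw [← cards h hz hqn]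
  apply cnt_top h
  · exact Finset.insert_nonempty _ _
  · intro p hp
    rw [Finset.mem_insert] at hp
    rcases hp with rfl | hp
    · exact hqP
    · exact (mem_ct.1 hp).1
  · intro p hp
    rw [Finset.mem_insert] at hp
    rcases hp with rfl | hp
    · have h1 := hq p1 hp1
      constructor <;> linarith
    · have h1 := hmax p hp
      have h2 := col_ext h hz hp hp1
      constructor <;> linarith
  · intro p hp
    rw [Finset.mem_insert] at hp
    rcases hp with rfl | hp
    · constructor <;> linarith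
    · have h1 := hη p hp
      constructor <;> linarith

lemma SW_of_Lm (h : Prc P K A B m) {z : Z2} (hz : Gd P K A B m z) (hm : Lm P K A B m z) :
    SW P K A B m (ct P K A B m z) := by
  obtain ⟨q, hqP, hq⟩ := hm
  obtain ⟨p1, hp1, hmax⟩ := Finset.exists_max_image (ct P K A B m z) (fun p => p.1) (ne_ct h hz)
  obtain ⟨η, hη, hq1, hq2⟩ := highY h hz q (fun p hp => (hq p hp).2.2)
  have hA := h.A0
  have hB := h.B0
  have hBK := h.BK
  have hM := @m1K K m
  have hqn : q ∉ ct P K A B m z := fun hc => by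
    have := (hq q hc).1
    linarith
  have h0 := mulsub h
  refine ⟨p1.1, η, fun p hp => ⟨hmax p hp, col_ext h hz hp hp1, hη p hp⟩, ?_⟩
  intro x y hx1 hx2 hy1 hy2
  rw [← cards h hz hqn]
  apply cnt_bot h
  · exact Finset.insert_nonempty _ _
  · intro p hp
    rw [Finset.mem_insert] at hp
    rcases hp with rfl | hp
    · exact hqP
    · exact (mem_ct.1 hp).1
  · intro p hp
    rw [Finset.mem_insert] at hp
    rcases hp with rfl | hp
    · have h1 := hq p1 hp1
      constructor <;> linarith
    · have h1 := hmax p hp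
      have h2 := col_ext h hz hp hp1
      constructor <;> linarith
  · intro p hp
    rw [Finset.mem_insert] at hp
    rcases hp with rfl | hp
    · constructor <;> linarith
    · have h1 := hη p hp
      constructor <;> linarith

end Prc24
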