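import Pool.Agent.Prc24.Cols

/-!
# The measure lemma

`A B μ{z good, NE full} ≤ (K - A)(K - B) μ{f ≥ m + 2}` for every invariant mean.

Proof.  For a content `M` with `NE M` choose `ξ`, `η` (depending only on `M`) and let
`rect M = (ξ - A, ξ] × (η - B, η]`.  If `z` is good with content `M`, then `z.1 ∈ (ξ - K, ξ - A]`,
`z.2 ∈ (η - K, η - B]`: the point in column slot `0` gives `ξ ≤ p.1 < z.1 + K`, the point in the last column slot gives
`z.1 + (m - 1) K + A ≤ p.1 ≤ ξ + (m - 1) K`.  Claim: if `z`, `z'` are good with `NE` full contents `M`, `M'` and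
`q ∈ rect M ∩ rect M'` then `M = M'`: `M ⊆ M'` since for `p ∈ M`: `z'.1 ≤ ξ' - A < q.1 ≤ ξ ≤ p.1`,
`p.1 ≤ ξ + (m-1) K < q.1 + A + (m-1) K ≤ ξ' + A + (m - 1) K < z'.1 + K + A + (m-1) K`, the same for the
ordinates; both have `m` elements.

Transport: `z` (good, `NE` full) sends mass `1` to every point of `rect (ct z)` (`A B` points, displacements in
`[1, K)²`).  A point `q` receives only from good `z` with one and the same content `M`, so from at most
`(K - A)(K - B)` points, and nothing if `f q < m + 2`.  Use `Prc92.Mean.transport` with index set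
`s = Icc 1 K ×ˢ Icc 1 K`, `f d z = if Gd z ∧ NE (ct z) ∧ z + d ∈ rect (ct z) then 1 else 0`.
-/

namespace Prc24

open Finset Classical

variable {P : Set Z2} {K A B : ℤ} {m : ℕ}

theorem ml_NE (μ : Prc92.Mean) (h : Prc P K A B m) :
    (A : ℝ) * B * ind μ (fun z => Gd P K A B m z ∧ NE P K A B m (ct P K A B m z)) ≤
      ((K : ℝ) - A) * (K - B) * ind μ (fun z => m + 2 ≤ f P K A B m z) := by
  have hA0 := h.A0
  have hAK := h.AK
  have hB0 := h.B0
  have hBK := h.BK
  have hm := h.m2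
  have hch : ∀ M : Finset Z2, NE P K A B m M → ∃ ξ η : ℤ,
      (∀ p ∈ M, ξ ≤ p.1 ∧ p.1 ≤ ξ + (m - 1) * K ∧ η ≤ p.2 ∧ p.2 ≤ η + (m - 1) * K) ∧
      ∀ x y : ℤ, ξ - A < x → x ≤ ξ → η - B < y → y ≤ η → m + 2 ≤ f P K A B m (x, y) :=
    fun M hM => hM
  choose! ξ η hN1 hN2 using hch
  -- position of a good window
  have hpos : ∀ z : Z2, Gd P K A B m z → NE P K A B m (ct P K A B m z) →
      ξ (ct P K A B m z) - K < z.1 ∧ z.1 ≤ ξ (ct P K A B m z) - A ∧
      η (ct P K A B m z) - K < z.2 ∧ z.2 ≤ η (ct P K A B m z) - B := by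
    intro z hz hNE
    have hm1 : ((m - 1 : ℕ) : ℤ) = (m : ℤ) - 1 := by omega
    obtain ⟨p, hp, hp1, hp2⟩ := col_ex h hz (i := 0) (by omega)
    obtain ⟨p', hp', hp1', hp2'⟩ := col_ex h hz (i := m - 1) (by omega)
    obtain ⟨r, hr, hr1, hr2⟩ := row_ex h hz (i := 0) (by omega)
    obtain ⟨r', hr', hr1', hr2'⟩ := row_ex h hz (i := m - 1) (by omega)
    have a1 := (hN1 _ hNE p hp).1
    have a2 := (hN1 _ hNE p' hp').2.1
    have a3 := (hN1 _ hNE r hr).2.2.1
    have a4 := (hN1 _ hNE r' hr').2.2.2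
    rw [hm1] at hp1' hr1'
    simp only [Nat.cast_zero, zero_mul, add_zero] at hp2 hr2
    refine ⟨by linarith, by linarith, by linarith, by linarith⟩
  -- the content is determined by a point of the rectangle
  have hsub : ∀ (z z' q : Z2), Gd P K A B m z → NE P K A B m (ct P K A B m z) →
      Gd P K A B m z' → NE P K A B m (ct P K A B m z') →
      (ξ (ct P K A B m z) - A < q.1 ∧ q.1 ≤ ξ (ct P K A B m z) ∧
        η (ct P K A B m z) - B < q.2 ∧ q.2 ≤ η (ct P K A B m z)) →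
      (ξ (ct P K A B m z') - A < q.1 ∧ q.1 ≤ ξ (ct P K A B m z') ∧
        η (ct P K A B m z') - B < q.2 ∧ q.2 ≤ η (ct P K A B m z')) →
      ct P K A B m z ⊆ ct P K A B m z' := by
    intro z z' q hz hNE hz' hNE' hq hq' p hp
    have hb := hN1 _ hNE p hp
    have hz1 := hpos z' hz' hNE'
    have hpP : p ∈ P := by
      unfold ct at hp
      exact (Finset.mem_filter.1 hp).2
    unfold ct bx
    rw [Finset.mem_filter, Finset.mem_product, Finset.mem_Ico, Finset.mem_Ico]
    obtain ⟨q1, q2, q3, q4⟩ := hq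
    obtain ⟨q1', q2', q3', q4'⟩ := hq'
    obtain ⟨b1, b2, b3, b4⟩ := hb
    obtain ⟨z1, z2, z3, z4⟩ := hz1
    refine ⟨⟨⟨by linarith, ?_⟩, ⟨by linarith, ?_⟩⟩, hpP⟩
    · have : ((m : ℤ) - 1) * K = m * K - K := by ring
      rw [this] at b2
      linarith
    · have : ((m : ℤ) - 1) * K = m * K - K := by ring
      rw [this] at b4
      linarith
  -- the transport
  obtain ⟨s, hs⟩ : ∃ s : Finset Z2, s = Icc (1 : ℤ) K ×ˢ Icc (1 : ℤ) K := ⟨_, rfl⟩
  obtain ⟨R, hR⟩ : ∃ R : Z2 → Z2 → Prop, R = fun d z => (Gd P K A B m z ∧ NE P K A B m (ct P K A B m z)) ∧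
      (ξ (ct P K A B m z) - A < (z + d).1 ∧ (z + d).1 ≤ ξ (ct P K A B m z) ∧
        η (ct P K A B m z) - B < (z + d).2 ∧ (z + d).2 ≤ η (ct P K A B m z)) := ⟨_, rfl⟩
  obtain ⟨g, hg⟩ : ∃ g : Z2 → Z2 → ℝ, g = fun d z => if R d z then 1 else 0 := ⟨_, rfl⟩
  have hgb : ∀ d ∈ s, Prc92.Bd (g d) := by
    intro d _
    refine Prc92.Bd.of_le 1 ?_ ?_
    · intro z
      rw [hg]
      dsimp only
      split_ifs <;> norm_num
    · intro z
      rw [hg]
      dsimp only
      split_ifs <;> norm_num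
  have htr := μ.transport s (f := g) (fun d => d) hgb
  have hAr : ((A.toNat : ℕ) : ℝ) = A := by
    exact_mod_cast Int.toNat_of_nonneg hA0.le
  have hBr : ((B.toNat : ℕ) : ℝ) = B := by
    exact_mod_cast Int.toNat_of_nonneg hB0.le
  have hKAr : (((K - A).toNat : ℕ) : ℝ) = (K : ℝ) - A := by
    have : (((K - A).toNat : ℕ) : ℤ) = K - A := Int.toNat_of_nonneg (by linarith)
    exact_mod_cast this
  have hKBr : (((K - B).toNat : ℕ) : ℝ) = (K : ℝ) - B := by
    have : (((K - B).toNat : ℕ) : ℤ) = K - B := Int.toNat_of_nonneg (by linarith)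
    exact_mod_cast this
  have hind : ∀ Q : Z2 → Prop, ∃ I : Z2 → ℝ, Prc92.Bd I ∧ (∀ z, Q z → I z = 1) ∧ (∀ z, ¬ Q z → I z = 0) ∧
      ind μ Q = μ.M I := by
    intro Q
    refine ⟨fun z => @ite ℝ (Q z) (propDecidable _) 1 0, Prc92.Bd.of_le 1 ?_ ?_, fun z hz => if_pos hz,
      fun z hz => if_neg hz, rfl⟩
    · intro z
      split_ifs <;> norm_num
    · intro z
      split_ifs <;> norm_num
  obtain ⟨I, hI, hI1, hI0, hIm⟩ := hind (fun z => Gd P K A B m z ∧ NE P K A B m (ct P K A B m z))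
  obtain ⟨J, hJ, hJ1, hJ0, hJm⟩ := hind (fun z => m + 2 ≤ f P K A B m z)
  -- outgoing mass
  have hout : (fun z => ∑ d ∈ s, g d z) = fun z => (A : ℝ) * B * I z := by
    funext z
    by_cases hQ : Gd P K A B m z ∧ NE P K A B m (ct P K A B m z)
    · rw [hI1 z hQ, mul_one]
      have hp := hpos z hQ.1 hQ.2
      rw [hg]
      dsimp only
      rw [Finset.sum_ite, Finset.sum_const_zero, add_zero, Finset.sum_const, nsmul_eq_mul, mul_one]
      have hfil : s.filter (fun d => R d z) =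
          Ioc (ξ (ct P K A B m z) - A - z.1) (ξ (ct P K A B m z) - z.1) ×ˢ
          Ioc (η (ct P K A B m z) - B - z.2) (η (ct P K A B m z) - z.2) := by
        ext d
        rw [Finset.mem_filter, hs, Finset.mem_product, Finset.mem_product, Finset.mem_Icc, Finset.mem_Icc,
          Finset.mem_Ioc, Finset.mem_Ioc, hR]
        simp only [hQ, Prod.fst_add, Prod.snd_add, true_and]
        constructor
        · rintro ⟨_, h1, h2, h3, h4⟩
          refine ⟨⟨by linarith, by linarith⟩, ⟨by linarith, by linarith⟩⟩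
        · rintro ⟨⟨h1, h2⟩, ⟨h3, h4⟩⟩
          refine ⟨⟨⟨?_, ?_⟩, ⟨?_, ?_⟩⟩, by linarith, by linarith, by linarith, by linarith⟩
          all_goals omega
      rw [hfil, Finset.card_product, Int.card_Ioc, Int.card_Ioc]
      have e1 : ξ (ct P K A B m z) - z.1 - (ξ (ct P K A B m z) - A - z.1) = A := by ring
      have e2 : η (ct P K A B m z) - z.2 - (η (ct P K A B m z) - B - z.2) = B := by ring
      rw [e1, e2, Nat.cast_mul, hAr, hBr]
    · rw [hI0 z hQ, mul_zero]
      refine Finset.sum_eq_zero fun d _ => ?_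
      rw [hg]
      dsimp only
      rw [if_neg]
      rw [hR]
      exact fun hh => hQ hh.1
  -- incoming mass
  have hin : ∀ q : Z2, ∑ d ∈ s, g d (q - d) ≤ ((K : ℝ) - A) * (K - B) * J q := by
    intro q
    have hKA0 : (0 : ℝ) ≤ (K : ℝ) - A := by
      rw [← hKAr]
      positivity
    have hKB0 : (0 : ℝ) ≤ (K : ℝ) - B := by
      rw [← hKBr]
      positivity
    by_cases hex : ∃ d₀ ∈ s, R d₀ (q - d₀)
    · obtain ⟨d₀, hd₀, hR₀⟩ := hex
      rw [hR] at hR₀
      rw [sub_add_cancel] at hR₀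
      obtain ⟨⟨hG₀, hNE₀⟩, hq₀⟩ := hR₀
      have hfq : m + 2 ≤ f P K A B m q := hN2 _ hNE₀ q.1 q.2 hq₀.1 hq₀.2.1 hq₀.2.2.1 hq₀.2.2.2
      rw [hJ1 q hfq, mul_one]
      rw [hg]
      dsimp only
      rw [Finset.sum_ite, Finset.sum_const_zero, add_zero, Finset.sum_const, nsmul_eq_mul, mul_one]
      have hfil : s.filter (fun d => R d (q - d)) ⊆
          Ico (q.1 - ξ (ct P K A B m (q - d₀)) + A) (q.1 - ξ (ct P K A B m (q - d₀)) + K) ×ˢ
          Ico (q.2 - η (ct P K A B m (q - d₀)) + B) (q.2 - η (ct P K A B m (q - d₀)) + K) := by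
        intro d hd
        rw [Finset.mem_filter, hR] at hd
        dsimp only at hd
        rw [sub_add_cancel] at hd
        obtain ⟨_, ⟨hG, hNE⟩, hq⟩ := hd
        have heq : ct P K A B m (q - d) = ct P K A B m (q - d₀) :=
          Finset.Subset.antisymm (hsub _ _ q hG hNE hG₀ hNE₀ hq hq₀) (hsub _ _ q hG₀ hNE₀ hG hNE hq₀ hq)
        have hp := hpos _ hG hNE
        rw [heq] at hp
        obtain ⟨p1, p2, p3, p4⟩ := hp
        rw [Prod.fst_sub] at p1 p2
        rw [Prod.snd_sub] at p3 p4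
        rw [Finset.mem_product, Finset.mem_Ico, Finset.mem_Ico]
        refine ⟨⟨by linarith, by linarith⟩, ⟨by linarith, by linarith⟩⟩
      have hcard := Finset.card_le_card hfil
      rw [Finset.card_product, Int.card_Ico, Int.card_Ico] at hcard
      have e1 : q.1 - ξ (ct P K A B m (q - d₀)) + K - (q.1 - ξ (ct P K A B m (q - d₀)) + A) = K - A := by ring
      have e2 : q.2 - η (ct P K A B m (q - d₀)) + K - (q.2 - η (ct P K A B m (q - d₀)) + B) = K - B := by ring
      rw [e1, e2] at hcard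
      rw [← hKAr, ← hKBr]
      exact_mod_cast hcard
    · push Not at hex
      rw [Finset.sum_eq_zero]
      · by_cases hfq : m + 2 ≤ f P K A B m q
        · rw [hJ1 q hfq, mul_one]
          exact mul_nonneg hKA0 hKB0
        · rw [hJ0 q hfq, mul_zero]
      · intro d hd
        rw [hg]
        dsimp only
        rw [if_neg (hex d hd)]
  rw [hIm, hJm, ← μ.smul _ _ hI, ← μ.smul _ _ hJ, ← hout, ← htr]
  exact μ.mono _ _ (Prc92.Bd.sum s fun d hd => (hgb d hd).comp fun z => z - d) (hJ.smul _) hin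

end Prc24
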