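import Pool.Agent.Prc24.Cols

/-!
# The measure lemma for the north west corner

The reflection of `ML` in a vertical axis, see also `ML2`.
-/

namespace Prc24

open Finset Classical

variable {P : Set Z2} {K A B : ℤ} {m : ℕ}

/-- a rectangle with `A` columns and `B` rows -/
private noncomputable def rct (A B : ℤ) (l : Z2) : Finset Z2 :=
  Ioc l.1 (l.1 + A) ×ˢ Ioc l.2 (l.2 + B)

private lemma rct_card {A B : ℤ} (hA : 0 ≤ A) (hB : 0 ≤ B) (l : Z2) :
    ((rct A B l).card : ℝ) = A * B := by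
  unfold rct
  rw [card_product, Int.card_Ioc, Int.card_Ioc, add_sub_cancel_left, add_sub_cancel_left]
  push_cast
  have h1 : ((A.toNat : ℤ) : ℝ) = A := by rw [Int.toNat_of_nonneg hA]
  have h2 : ((B.toNat : ℤ) : ℝ) = B := by rw [Int.toNat_of_nonneg hB]
  rw [← h1, ← h2]
  push_cast
  rfl

/-- the transport argument -/
private lemma gen_transport (μ : Prc92.Mean) {A B U V : ℤ} (hA : 0 ≤ A) (hB : 0 ≤ B) (hU : 0 ≤ U)
    (hV : 0 ≤ V) (G Q : Z2 → Prop) (ℓ : Z2 → Z2) (c : Z2) (D : Finset Z2)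
    (h1 : ∀ z, G z → ∀ q ∈ rct A B (ℓ z), q - z ∈ D ∧ Q q)
    (h2 : ∀ z z' q, G z → G z' → q ∈ rct A B (ℓ z) → q ∈ rct A B (ℓ z') → ℓ z = ℓ z')
    (h3 : ∀ z, G z → z ∈ rct U V (ℓ z + c)) :
    (A : ℝ) * B * ind μ G ≤ (U : ℝ) * V * ind μ Q := by
  set F : Z2 → Z2 → ℝ := fun d z => if G z ∧ z + d ∈ rct A B (ℓ z) then 1 else 0 with hF
  have hFb : ∀ d ∈ D, Prc92.Bd (F d) := fun d _ => Prc92.Bd.of_le 1
    (fun z => by rw [hF]; simp only; split_ifs <;> norm_num)
    (fun z => by rw [hF]; simp only; split_ifs <;> norm_num)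
  have hind : ∀ R : Z2 → Prop, Prc92.Bd (fun z => if R z then (1 : ℝ) else 0) := fun R =>
    Prc92.Bd.of_le 1 (fun z => by split_ifs <;> norm_num) (fun z => by split_ifs <;> norm_num)
  have e1 : (A : ℝ) * B * ind μ G ≤ μ.M (fun z => ∑ d ∈ D, F d z) := by
    unfold ind
    rw [← μ.smul _ _ (hind G)]
    refine μ.mono _ _ ((hind G).smul _) (Prc92.Bd.sum D hFb) fun z => ?_
    by_cases hG : G z
    · rw [if_pos hG, mul_one, ← rct_card hA hB (ℓ z)]
      have hinj : Function.Injective (fun q : Z2 => q - z) := fun a b hab => sub_left_inj.1 hab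
      have hsub : (rct A B (ℓ z)).image (fun q => q - z) ⊆ D := by
        intro d hd
        rw [mem_image] at hd
        obtain ⟨q, hq, rfl⟩ := hd
        exact (h1 z hG q hq).1
      calc ((rct A B (ℓ z)).card : ℝ)
          = (((rct A B (ℓ z)).image (fun q => q - z)).card : ℝ) := by
            rw [card_image_of_injective _ hinj]
        _ = ∑ d ∈ (rct A B (ℓ z)).image (fun q => q - z), (1 : ℝ) := by simp
        _ ≤ ∑ d ∈ (rct A B (ℓ z)).image (fun q => q - z), F d z := by
            refine sum_le_sum fun d hd => ?_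
            rw [mem_image] at hd
            obtain ⟨q, hq, rfl⟩ := hd
            rw [hF]
            simp only
            rw [if_pos ⟨hG, by rwa [add_sub_cancel]⟩]
        _ ≤ ∑ d ∈ D, F d z := by
            refine sum_le_sum_of_subset_of_nonneg hsub fun d _ _ => ?_
            rw [hF]
            simp only
            split_ifs <;> norm_num
    · rw [if_neg hG, mul_zero]
      refine sum_nonneg fun d _ => ?_
      rw [hF]
      simp only
      split_ifs <;> norm_num
  have e2 : μ.M (fun z => ∑ d ∈ D, F d (z - d)) ≤ (U : ℝ) * V * ind μ Q := by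
    unfold ind
    rw [← μ.smul _ _ (hind Q)]
    refine μ.mono _ _ (Prc92.Bd.sum D fun d hd => (hFb d hd).comp fun z => z - d)
      ((hind Q).smul _) fun q => ?_
    have hs : ∑ d ∈ D, F d (q - d) =
        ((D.filter fun d => G (q - d) ∧ q ∈ rct A B (ℓ (q - d))).card : ℝ) := by
      rw [hF]
      simp only [sub_add_cancel]
      rw [sum_boole]
    rw [hs]
    rcases (D.filter fun d => G (q - d) ∧ q ∈ rct A B (ℓ (q - d))).eq_empty_or_nonempty with
      he | ⟨d0, hd0⟩
    · rw [he, card_empty, Nat.cast_zero]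
      have hUV : (0 : ℝ) ≤ U * V := mul_nonneg (by exact_mod_cast hU) (by exact_mod_cast hV)
      split_ifs
      · rw [mul_one]
        exact hUV
      · rw [mul_zero]
    · rw [mem_filter] at hd0
      have hQ : Q q := (h1 _ hd0.2.1 q hd0.2.2).2
      rw [if_pos hQ, mul_one, ← rct_card hU hV (ℓ (q - d0) + c), Nat.cast_le]
      refine card_le_card_of_injOn (fun d => q - d) ?_ ?_
      · intro d hd
        have hd' := mem_filter.1 (mem_coe.1 hd)
        have e := h2 _ _ q hd'.2.1 hd0.2.1 hd'.2.2 hd0.2.2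
        have := h3 _ hd'.2.1
        rw [e] at this
        exact this
      · intro a _ b _ hab
        exact sub_right_inj.1 hab
  rw [μ.transport D (fun d => d) hFb] at e2
  exact e1.trans e2

/-- the lower left corner of the rectangle of a content -/
private noncomputable def crn (P : Set Z2) (K A B : ℤ) (m : ℕ) (M : Finset Z2) : Z2 :=
  if h : NW P K A B m M then (h.choose - m * K - A, h.choose_spec.choose - B) else 0

theorem ml_NW (μ : Prc92.Mean) (h : Prc P K A B m) :
    (A : ℝ) * B * ind μ (fun z => Gd P K A B m z ∧ NW P K A B m (ct P K A B m z)) ≤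
      ((K : ℝ) - A) * (K - B) * ind μ (fun z => m + 2 ≤ f P K A B m z) := by
  have hA := h.A0
  have hB := h.B0
  have hAK := h.AK
  have hBK := h.BK
  have hm : ((m - 1 : ℕ) : ℤ) = m - 1 := by
    have := h.m2
    push_cast [Nat.cast_sub (show 1 ≤ m by omega)]
    rfl
  -- the properties of the corner
  have key : ∀ z, Gd P K A B m z → NW P K A B m (ct P K A B m z) →
      (∀ p ∈ ct P K A B m z, p.1 ≤ (crn P K A B m (ct P K A B m z)).1 + m * K + A ∧
        (crn P K A B m (ct P K A B m z)).1 + K + A ≤ p.1 ∧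
        (crn P K A B m (ct P K A B m z)).2 + B ≤ p.2 ∧
        p.2 ≤ (crn P K A B m (ct P K A B m z)).2 + B + m * K - K) ∧
      (∀ q ∈ rct A B (crn P K A B m (ct P K A B m z)), m + 2 ≤ f P K A B m q) ∧
      (crn P K A B m (ct P K A B m z)).1 + A < z.1 ∧
      z.1 ≤ (crn P K A B m (ct P K A B m z)).1 + K ∧
      (crn P K A B m (ct P K A B m z)).2 + B - K < z.2 ∧
      z.2 ≤ (crn P K A B m (ct P K A B m z)).2 := by
    intro z hz hN
    have hc : crn P K A B m (ct P K A B m z) =
        (hN.choose - m * K - A, hN.choose_spec.choose - B) := by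
      unfold crn
      rw [dif_pos hN]
    have hs := hN.choose_spec.choose_spec
    generalize hN.choose_spec.choose = η at hc hs
    generalize hN.choose = ξ at hc hs
    obtain ⟨hs1, hs2⟩ := hs
    rw [hc]
    simp only
    have hp1 : ∀ p ∈ ct P K A B m z, p.1 ≤ ξ - m * K - A + m * K + A ∧
        ξ - m * K - A + K + A ≤ p.1 ∧ η - B + B ≤ p.2 ∧
        p.2 ≤ η - B + B + m * K - K := by
      intro p hp
      obtain ⟨a, b, c, d⟩ := hs1 p hp
      refine ⟨by linarith, by linarith, by linarith, by linarith⟩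
    obtain ⟨p0, hp0, h01, h02⟩ := col_ex h hz (i := 0) (by have := h.m2; omega)
    obtain ⟨p1, hp1', h11, h12⟩ := col_ex h hz (i := m - 1) (by have := h.m2; omega)
    obtain ⟨r0, hr0, g01, g02⟩ := row_ex h hz (i := 0) (by have := h.m2; omega)
    obtain ⟨r1, hr1, g11, g12⟩ := row_ex h hz (i := m - 1) (by have := h.m2; omega)
    rw [hm] at h11 h12 g11 g12
    push_cast at h01 h02 g01 g02
    have a0 := hp1 p0 hp0
    have a1 := hp1 p1 hp1'
    have b0 := hp1 r0 hr0
    have b1 := hp1 r1 hr1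
    refine ⟨hp1, ?_, ?_, ?_, ?_, ?_⟩
    · intro q hq
      unfold rct at hq
      rw [mem_product, mem_Ioc, mem_Ioc] at hq
      simp only at hq
      exact hs2 q.1 q.2 (by linarith [hq.1.1]) (by linarith [hq.1.2]) (by linarith [hq.2.1])
        (by linarith [hq.2.2])
    · linarith [a0.2.1]
    · linarith [a1.1]
    · linarith [b0.2.2.1]
    · linarith [b1.2.2.2]
  have main := gen_transport μ (U := K - A) (V := K - B) hA.le hB.le (by linarith) (by linarith)
    (fun z => Gd P K A B m z ∧ NW P K A B m (ct P K A B m z))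
    (fun z => m + 2 ≤ f P K A B m z) (fun z => crn P K A B m (ct P K A B m z)) (A, B - K)
    (Ioo (-K) 0 ×ˢ Ioo 0 K) ?_ ?_ ?_
  · push_cast at main
    exact main
  · rintro z ⟨hz, hN⟩ q hq
    obtain ⟨-, k2, k3, k4, k5, k6⟩ := key z hz hN
    refine ⟨?_, k2 q hq⟩
    unfold rct at hq
    rw [mem_product, mem_Ioc, mem_Ioc] at hq
    rw [mem_product, mem_Ioo, mem_Ioo]
    obtain ⟨⟨a, b⟩, c, d⟩ := hq
    refine ⟨⟨?_, ?_⟩, ?_, ?_⟩
    · rw [Prod.fst_sub]; linarith
    · rw [Prod.fst_sub]; linarith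
    · rw [Prod.snd_sub]; linarith
    · rw [Prod.snd_sub]; linarith
  · rintro z z' q ⟨hz, hN⟩ ⟨hz', hN'⟩ hq hq'
    obtain ⟨k1, -, k3, k4, k5, k6⟩ := key z hz hN
    obtain ⟨k1', -, k3', k4', k5', k6'⟩ := key z' hz' hN'
    unfold rct at hq hq'
    rw [mem_product, mem_Ioc, mem_Ioc] at hq hq'
    obtain ⟨⟨a, b⟩, c, d⟩ := hq
    obtain ⟨⟨a', b'⟩, c', d'⟩ := hq'
    have hsub : ct P K A B m z ⊆ ct P K A B m z' := by
      intro p hp
      obtain ⟨u1, u2, u3, u4⟩ := k1 p hp
      unfold ct bx at hp ⊢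
      rw [mem_filter] at hp ⊢
      refine ⟨?_, hp.2⟩
      rw [mem_product, mem_Ico, mem_Ico]
      refine ⟨⟨?_, ?_⟩, ?_, ?_⟩ <;> linarith
    have hcard : (ct P K A B m z').card ≤ (ct P K A B m z).card := by
      have e1 : (ct P K A B m z).card = m := hz
      have e2 : (ct P K A B m z').card = m := hz'
      rw [e1, e2]
    rw [eq_of_subset_of_card_le hsub hcard]
  · rintro z ⟨hz, hN⟩
    obtain ⟨-, -, k3, k4, k5, k6⟩ := key z hz hN
    unfold rct
    rw [mem_product, mem_Ioc, mem_Ioc, Prod.fst_add, Prod.snd_add]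
    simp only
    refine ⟨⟨?_, ?_⟩, ?_, ?_⟩ <;> linarith

end Prc24
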