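import Pool.Agent.Prc24.Cols

/-!
# The measure lemma for the south west corner

The point reflection of `ML`, see also `ML2`.
-/

namespace Prc24

open Finset Classical

variable {P : Set Z2} {K A B : ℤ} {m : ℕ}

/-- the transport argument common to all corners -/
private lemma ml4_core (μ : Prc92.Mean) (hA : 0 < A) (hAK : A < K) (hB : 0 < B) (hBK : B < K)
    (Q H : Z2 → Prop) (c : Z2 → Finset Z2) (x0 y0 : Finset Z2 → ℤ) (x1 y1 : Finset Z2 → ℤ)
    (hloc : ∀ z, Q z → x1 (c z) < z.1 ∧ z.1 ≤ x1 (c z) + (K - A) ∧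
      y1 (c z) < z.2 ∧ z.2 ≤ y1 (c z) + (K - B))
    (hD : ∀ z, Q z → ∀ q : Z2, x0 (c z) < q.1 → q.1 ≤ x0 (c z) + A → y0 (c z) < q.2 →
      q.2 ≤ y0 (c z) + B → -K ≤ q.1 - z.1 ∧ q.1 - z.1 ≤ K ∧ -K ≤ q.2 - z.2 ∧ q.2 - z.2 ≤ K)
    (hH : ∀ z, Q z → ∀ q : Z2, x0 (c z) < q.1 → q.1 ≤ x0 (c z) + A → y0 (c z) < q.2 →
      q.2 ≤ y0 (c z) + B → H q)
    (hEq : ∀ z z', Q z → Q z' → ∀ q : Z2, x0 (c z) < q.1 → q.1 ≤ x0 (c z) + A → y0 (c z) < q.2 →
      q.2 ≤ y0 (c z) + B → x0 (c z') < q.1 → q.1 ≤ x0 (c z') + A → y0 (c z') < q.2 →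
      q.2 ≤ y0 (c z') + B → c z = c z') :
    (A : ℝ) * B * ind μ Q ≤ ((K : ℝ) - A) * (K - B) * ind μ H := by
  set R : Z2 → Z2 → Prop := fun z q => x0 (c z) < q.1 ∧ q.1 ≤ x0 (c z) + A ∧ y0 (c z) < q.2 ∧
      q.2 ≤ y0 (c z) + B with hR
  set D : Finset Z2 := Icc (-K) K ×ˢ Icc (-K) K with hDdef
  set F : Z2 → Z2 → ℝ := fun d z => if Q z ∧ R z (z + d) then 1 else 0 with hF
  have hFb : ∀ d ∈ D, Prc92.Bd (F d) := by
    intro d _
    refine ⟨1, fun z => ?_⟩
    rw [hF]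
    simp only
    split_ifs
    · rw [abs_one]
    · rw [abs_zero]
      exact zero_le_one
  have hQb : Prc92.Bd (fun z => if Q z then (1 : ℝ) else 0) := by
    refine ⟨1, fun z => ?_⟩
    beta_reduce
    split_ifs
    · rw [abs_one]
    · rw [abs_zero]
      exact zero_le_one
  have hHb : Prc92.Bd (fun z => if H z then (1 : ℝ) else 0) := by
    refine ⟨1, fun z => ?_⟩
    beta_reduce
    split_ifs
    · rw [abs_one]
    · rw [abs_zero]
      exact zero_le_one
  have h1 : ∀ z, ∑ d ∈ D, F d z = (A : ℝ) * B * (if Q z then 1 else 0) := by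
    intro z
    by_cases hz : Q z
    · rw [if_pos hz, mul_one]
      have e1 : ∑ d ∈ D, F d z = ((D.filter fun d => Q z ∧ R z (z + d)).card : ℝ) := by
        rw [hF, Finset.card_filter]
        push_cast
        rfl
      have e2 : (D.filter fun d => Q z ∧ R z (z + d)) =
          Ioc (x0 (c z) - z.1) (x0 (c z) - z.1 + A) ×ˢ Ioc (y0 (c z) - z.2) (y0 (c z) - z.2 + B) := by
        ext d
        rw [Finset.mem_filter, hDdef, Finset.mem_product, Finset.mem_product, Finset.mem_Icc,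
          Finset.mem_Icc, Finset.mem_Ioc, Finset.mem_Ioc]
        constructor
        · rintro ⟨_, _, a1, a2, a3, a4⟩
          simp only [Prod.fst_add, Prod.snd_add] at a1 a2 a3 a4
          refine ⟨⟨?_, ?_⟩, ?_, ?_⟩ <;> omega
        · rintro ⟨⟨a1, a2⟩, a3, a4⟩
          have b1 : x0 (c z) < (z + d).1 := by simp only [Prod.fst_add]; omega
          have b2 : (z + d).1 ≤ x0 (c z) + A := by simp only [Prod.fst_add]; omega
          have b3 : y0 (c z) < (z + d).2 := by simp only [Prod.snd_add]; omega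
          have b4 : (z + d).2 ≤ y0 (c z) + B := by simp only [Prod.snd_add]; omega
          obtain ⟨c1, c2, c3, c4⟩ := hD z hz (z + d) b1 b2 b3 b4
          simp only [Prod.fst_add, Prod.snd_add] at c1 c2 c3 c4
          refine ⟨⟨⟨?_, ?_⟩, ?_, ?_⟩, hz, b1, b2, b3, b4⟩ <;> omega
      rw [e1, e2, Finset.card_product, Int.card_Ioc, Int.card_Ioc]
      have g1 : ((x0 (c z) - z.1 + A - (x0 (c z) - z.1)).toNat : ℤ) = A := by
        rw [Int.toNat_of_nonneg (by omega)]
        omega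
      have g2 : ((y0 (c z) - z.2 + B - (y0 (c z) - z.2)).toNat : ℤ) = B := by
        rw [Int.toNat_of_nonneg (by omega)]
        omega
      push_cast
      have g1' : ((x0 (c z) - z.1 + A - (x0 (c z) - z.1)).toNat : ℝ) = A := by exact_mod_cast g1
      have g2' : ((y0 (c z) - z.2 + B - (y0 (c z) - z.2)).toNat : ℝ) = B := by exact_mod_cast g2
      rw [g1', g2']
    · rw [if_neg hz, mul_zero]
      refine Finset.sum_eq_zero fun d _ => ?_
      rw [hF]
      simp only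
      rw [if_neg]
      exact fun hh => hz hh.1
  have hKA : (0 : ℝ) ≤ (K : ℝ) - A := by
    have : (A : ℝ) ≤ K := by exact_mod_cast hAK.le
    linarith
  have hKB : (0 : ℝ) ≤ (K : ℝ) - B := by
    have : (B : ℝ) ≤ K := by exact_mod_cast hBK.le
    linarith
  have h2 : ∀ q, ∑ d ∈ D, F d (q - d) ≤ ((K : ℝ) - A) * (K - B) * (if H q then 1 else 0) := by
    intro q
    have e1 : ∑ d ∈ D, F d (q - d) = ((D.filter fun d => Q (q - d) ∧ R (q - d) q).card : ℝ) := by
      rw [hF, Finset.card_filter]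
      push_cast
      refine Finset.sum_congr rfl fun d _ => ?_
      simp only [sub_add_cancel]
    rw [e1]
    by_cases hex : ∃ d ∈ D, Q (q - d) ∧ R (q - d) q
    · obtain ⟨d0, _, hQ0, a1, a2, a3, a4⟩ := hex
      have hHq : H q := hH _ hQ0 q a1 a2 a3 a4
      rw [if_pos hHq, mul_one]
      have hsub : (D.filter fun d => Q (q - d) ∧ R (q - d) q) ⊆
          Ico (q.1 - x1 (c (q - d0)) - (K - A)) (q.1 - x1 (c (q - d0))) ×ˢ
            Ico (q.2 - y1 (c (q - d0)) - (K - B)) (q.2 - y1 (c (q - d0))) := by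
        intro d hd
        rw [Finset.mem_filter] at hd
        obtain ⟨_, hQd, b1, b2, b3, b4⟩ := hd
        have hc := hEq _ _ hQ0 hQd q a1 a2 a3 a4 b1 b2 b3 b4
        obtain ⟨c1, c2, c3, c4⟩ := hloc _ hQd
        rw [← hc] at c1 c2 c3 c4
        simp only [Prod.fst_sub, Prod.snd_sub] at c1 c2 c3 c4
        rw [Finset.mem_product, Finset.mem_Ico, Finset.mem_Ico]
        refine ⟨⟨?_, ?_⟩, ?_, ?_⟩ <;> omega
      have hcard := Finset.card_le_card hsub
      rw [Finset.card_product, Int.card_Ico, Int.card_Ico] at hcard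
      have g1 : ((q.1 - x1 (c (q - d0)) - (q.1 - x1 (c (q - d0)) - (K - A))).toNat : ℤ) =
          K - A := by
        rw [Int.toNat_of_nonneg (by omega)]
        omega
      have g2 : ((q.2 - y1 (c (q - d0)) - (q.2 - y1 (c (q - d0)) - (K - B))).toNat : ℤ) =
          K - B := by
        rw [Int.toNat_of_nonneg (by omega)]
        omega
      have g1' : ((q.1 - x1 (c (q - d0)) - (q.1 - x1 (c (q - d0)) - (K - A))).toNat : ℝ) =
          (K : ℝ) - A := by exact_mod_cast g1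
      have g2' : ((q.2 - y1 (c (q - d0)) - (q.2 - y1 (c (q - d0)) - (K - B))).toNat : ℝ) =
          (K : ℝ) - B := by exact_mod_cast g2
      rw [← g1', ← g2']
      exact_mod_cast hcard
    · have hempty : (D.filter fun d => Q (q - d) ∧ R (q - d) q) = ∅ := by
        rw [Finset.filter_eq_empty_iff]
        intro d hd hh
        exact hex ⟨d, hd, hh⟩
      rw [hempty, Finset.card_empty, Nat.cast_zero]
      split_ifs
      · rw [mul_one]
        exact mul_nonneg hKA hKB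
      · rw [mul_zero]
  calc (A : ℝ) * B * ind μ Q = μ.M (fun z => (A : ℝ) * B * (if Q z then 1 else 0)) :=
        (μ.smul _ _ hQb).symm
    _ = μ.M (fun z => ∑ d ∈ D, F d z) := by
        congr 1
        funext z
        exact (h1 z).symm
    _ = μ.M (fun z => ∑ d ∈ D, F d (z - d)) := (μ.transport D (fun d => d) hFb).symm
    _ ≤ μ.M (fun z => ((K : ℝ) - A) * (K - B) * (if H z then 1 else 0)) :=
        μ.mono _ _ (Prc92.Bd.sum D fun d hd => (hFb d hd).comp fun z => z - d)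
          (Prc92.Bd.smul _ hHb) h2
    _ = ((K : ℝ) - A) * (K - B) * ind μ H := μ.smul _ _ hHb

theorem ml_SW (μ : Prc92.Mean) (h : Prc P K A B m) :
    (A : ℝ) * B * ind μ (fun z => Gd P K A B m z ∧ SW P K A B m (ct P K A B m z)) ≤
      ((K : ℝ) - A) * (K - B) * ind μ (fun z => m + 2 ≤ f P K A B m z) := by
  have hA := h.A0
  have hAK := h.AK
  have hB := h.B0
  have hBK := h.BK
  have hm := h.m2
  set ξ : Finset Z2 → ℤ := fun M => if hM : SW P K A B m M then hM.choose else 0 with hξdef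
  set η : Finset Z2 → ℤ := fun M => if hM : SW P K A B m M then hM.choose_spec.choose else 0
    with hηdef
  have hsp : ∀ M, SW P K A B m M →
      (∀ p ∈ M, p.1 ≤ ξ M ∧ ξ M ≤ p.1 + (m - 1) * K ∧ p.2 ≤ η M ∧ η M ≤ p.2 + (m - 1) * K) ∧
      ∀ x y : ℤ, ξ M - m * K - A < x → x ≤ ξ M - m * K → η M - m * K - B < y → y ≤ η M - m * K →
        m + 2 ≤ f P K A B m (x, y) := by
    intro M hM
    have := hM.choose_spec.choose_spec
    rw [hξdef, hηdef]
    simp only [dif_pos hM]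
    exact this
  have hm1 : (((m - 1 : ℕ) : ℤ)) = (m : ℤ) - 1 := by omega
  have hloc : ∀ z, Gd P K A B m z ∧ SW P K A B m (ct P K A B m z) →
      ξ (ct P K A B m z) - m * K < z.1 ∧ z.1 ≤ ξ (ct P K A B m z) - m * K + (K - A) ∧
      η (ct P K A B m z) - m * K < z.2 ∧ z.2 ≤ η (ct P K A B m z) - m * K + (K - B) := by
    rintro z ⟨hz, hS⟩
    obtain ⟨hs, -⟩ := hsp _ hS
    obtain ⟨p, hp, p1, p2⟩ := col_ex h hz (i := 0) (by omega)
    obtain ⟨q, hq, q1, q2⟩ := col_ex h hz (i := m - 1) (by omega)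
    obtain ⟨r, hr, r1, r2⟩ := row_ex h hz (i := 0) (by omega)
    obtain ⟨t, ht, t1, t2⟩ := row_ex h hz (i := m - 1) (by omega)
    obtain ⟨sp1, sp2, sp3, sp4⟩ := hs p hp
    obtain ⟨sq1, sq2, sq3, sq4⟩ := hs q hq
    obtain ⟨sr1, sr2, sr3, sr4⟩ := hs r hr
    obtain ⟨st1, st2, st3, st4⟩ := hs t ht
    rw [hm1] at q1 t1
    push_cast at p2 r2
    refine ⟨?_, ?_, ?_, ?_⟩ <;> linarith
  refine ml4_core μ hA hAK hB hBK _ _ (ct P K A B m) (fun M => ξ M - m * K - A)
    (fun M => η M - m * K - B) (fun M => ξ M - m * K) (fun M => η M - m * K) hloc ?_ ?_ ?_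
  · intro z hz q a1 a2 a3 a4
    obtain ⟨c1, c2, c3, c4⟩ := hloc z hz
    refine ⟨?_, ?_, ?_, ?_⟩ <;> linarith
  · intro z hz q a1 a2 a3 a4
    exact (hsp _ hz.2).2 q.1 q.2 a1 (by linarith) a3 (by linarith)
  · intro z z' hz hz' q a1 a2 a3 a4 b1 b2 b3 b4
    obtain ⟨c1, c2, c3, c4⟩ := hloc z hz
    obtain ⟨d1, d2, d3, d4⟩ := hloc z' hz'
    obtain ⟨hs, -⟩ := hsp _ hz.2
    refine Finset.eq_of_subset_of_card_le ?_ ?_
    · intro p hp
      obtain ⟨s1, s2, s3, s4⟩ := hs p hp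
      rw [mem_ct] at hp ⊢
      refine ⟨hp.1, ?_, ?_, ?_, ?_⟩ <;> linarith
    · have e1 : (ct P K A B m z).card = m := hz.1
      have e2 : (ct P K A B m z').card = m := hz'.1
      rw [e1, e2]

end Prc24

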