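import Pool.Agent.Prc24.Cols

/-!
# Sums over windows and sums over points

`trans`: for a bounded `g`, the mean over good windows `z` of `∑ p ∈ ct z, g z p` equals the mean over `p ∈ P` of
`∑ u ∈ UU, ∑ s ∈ S p u, g (zz p u s) p`.

Proof.  Let `D = Ico 0 (m K + A) ×ˢ Ico 0 (m K + B)`.  The first function is
`z ↦ ∑ d ∈ D, F d z`, `F d z = if Gd z ∧ z + d ∈ P then g z (z + d) else 0`.  By `Prc92.Mean.transport` its mean is the mean of
`p ↦ ∑ d ∈ D, F d (p - d) = ∑ d ∈ D, if Gd (p - d) ∧ p ∈ P then g (p - d) p else 0`.  For fixed `p ∈ P`: if `Gd (p - d)`,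
`d ∈ D`, then `p ∈ ct (p - d)` lies in a column slot `i` and a row slot `j`, which means that
`p - d = zz p u (i, j)` with `u ∈ UU` (`u.1 = p.1 - d.1 - p.1 + (i + 1) K = (i+1) K - d.1`, `i K + A ≤ d.1 < i K + K`).
So the sum over `d ∈ D` is the sum over `(u, s) ∈ UU × (range m × range m)`, via the injection
`(u, s) ↦ ((s.1 + 1) K - u.1, (s.2 + 1) K - u.2)`.
-/

namespace Prc24

open Finset Classical

variable {P : Set Z2} {K A B : ℤ} {m : ℕ}

/-- the differences of points and corners of windows -/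
private noncomputable def trD (K A B : ℤ) (m : ℕ) : Finset Z2 :=
  Ico 0 (m * K + A) ×ˢ Ico 0 (m * K + B)

/-- the contribution of the difference `d` -/
private noncomputable def trF (P : Set Z2) (K A B : ℤ) (m : ℕ) (g : Z2 → Z2 → ℝ) (d p : Z2) : ℝ :=
  if p ∈ P ∧ Gd P K A B m (p - d) then g (p - d) p else 0

private theorem tr_ct_sum (z : Z2) (g : Z2 → Z2 → ℝ) : ∑ p ∈ ct P K A B m z, g z p =
    ∑ d ∈ trD K A B m, if z + d ∈ P then g z (z + d) else 0 := by
  unfold ct
  rw [Finset.sum_filter]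
  symm
  refine Finset.sum_nbij' (fun d => z + d) (fun p => p - z) ?_ ?_ ?_ ?_ ?_
  · intro d hd
    unfold trD at hd
    unfold bx
    rw [Finset.mem_product, Finset.mem_Ico, Finset.mem_Ico] at hd ⊢
    simp only [Prod.fst_add, Prod.snd_add]
    omega
  · intro p hp
    unfold bx at hp
    unfold trD
    rw [Finset.mem_product, Finset.mem_Ico, Finset.mem_Ico] at hp ⊢
    simp only [Prod.fst_sub, Prod.snd_sub]
    omega
  · intro d _
    exact add_sub_cancel_left z d
  · intro p _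
    exact add_sub_cancel z p
  · intro d _
    rfl

/-- the product with `K` -/
private theorem tr_mul {K : ℤ} (hK : 0 < K) {a b : ℕ} (hab : a < b) :
    (a : ℤ) * K + K ≤ b * K := by
  have h1 : (a : ℤ) + 1 ≤ b := by exact_mod_cast hab
  nlinarith

private theorem tr_inj {K L : ℤ} (hK : 0 < K) (hL : L < K) {a b : ℕ} {u v : ℤ} (hu : 1 ≤ u)
    (hu' : u ≤ L) (hv : 1 ≤ v) (hv' : v ≤ L)
    (h : ((a : ℤ) + 1) * K - u = ((b : ℤ) + 1) * K - v) : a = b ∧ u = v := by
  have h1 : (a : ℤ) * K + K - u = (b : ℤ) * K + K - v := by linarith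
  rcases lt_trichotomy a b with h2 | h2 | h2
  · have := tr_mul hK h2
    exfalso
    linarith
  · subst h2
    exact ⟨rfl, by linarith⟩
  · have := tr_mul hK h2
    exfalso
    linarith

private theorem tr_point (h : Prc P K A B m) (g : Z2 → Z2 → ℝ) {p : Z2} (hp : p ∈ P) :
    ∑ d ∈ trD K A B m, trF P K A B m g d p =
      ∑ u ∈ UU K A B, ∑ s ∈ S P K A B m p u, g (zz K p u s) p := by
  have hK : 0 < K := h.A0.trans h.AK
  have e1 : ∑ d ∈ trD K A B m, trF P K A B m g d p =
      ∑ d ∈ (trD K A B m).filter (fun d => Gd P K A B m (p - d)), g (p - d) p := by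
    rw [Finset.sum_filter]
    refine Finset.sum_congr rfl fun d _ => ?_
    unfold trF
    simp only [hp, true_and]
  have e2 : ∑ u ∈ UU K A B, ∑ s ∈ S P K A B m p u, g (zz K p u s) p =
      ∑ x ∈ (UU K A B ×ˢ (range m ×ˢ range m)).filter (fun x => Gd P K A B m (zz K p x.1 x.2)),
        g (zz K p x.1 x.2) p := by
    rw [Finset.sum_filter, Finset.sum_product]
    refine Finset.sum_congr rfl fun u _ => ?_
    unfold S
    rw [Finset.sum_filter]
  rw [e1, e2]
  symm
  have key : ∀ x : Z2 × (ℕ × ℕ),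
      p - (((x.2.1 : ℤ) + 1) * K - x.1.1, ((x.2.2 : ℤ) + 1) * K - x.1.2) = zz K p x.1 x.2 := by
    intro x
    unfold zz
    refine Prod.ext ?_ ?_
    · simp only [Prod.fst_sub]
      ring
    · simp only [Prod.snd_sub]
      ring
  refine Finset.sum_bij (fun x _ => (((x.2.1 : ℤ) + 1) * K - x.1.1, ((x.2.2 : ℤ) + 1) * K - x.1.2))
    ?_ ?_ ?_ ?_
  · rintro ⟨u, s⟩ hx
    unfold UU at hx
    rw [Finset.mem_filter, Finset.mem_product, Finset.mem_product, Finset.mem_product,
      Finset.mem_Icc, Finset.mem_Icc, Finset.mem_range, Finset.mem_range] at hx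
    obtain ⟨⟨⟨⟨hu1, hu2⟩, hu3, hu4⟩, hs1, hs2⟩, hG⟩ := hx
    rw [Finset.mem_filter, key]
    refine ⟨?_, hG⟩
    unfold trD
    rw [Finset.mem_product, Finset.mem_Ico, Finset.mem_Ico]
    simp only at hu1 hu2 hu3 hu4 hs1 hs2 ⊢
    have m1 := tr_mul hK hs1
    have m2 := tr_mul hK hs2
    have m3 : (0 : ℤ) ≤ s.1 * K := mul_nonneg (Int.natCast_nonneg _) hK.le
    have m4 : (0 : ℤ) ≤ s.2 * K := mul_nonneg (Int.natCast_nonneg _) hK.le
    have hA0 := h.A0
    have hB0 := h.B0
    refine ⟨⟨?_, ?_⟩, ?_, ?_⟩ <;> linarith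
  · rintro ⟨u, s⟩ hx ⟨v, t⟩ hy hxy
    unfold UU at hx hy
    rw [Finset.mem_filter, Finset.mem_product, Finset.mem_product, Finset.mem_product,
      Finset.mem_Icc, Finset.mem_Icc, Finset.mem_range, Finset.mem_range] at hx hy
    obtain ⟨⟨⟨⟨hu1, hu2⟩, hu3, hu4⟩, hs1, hs2⟩, -⟩ := hx
    obtain ⟨⟨⟨⟨hv1, hv2⟩, hv3, hv4⟩, ht1, ht2⟩, -⟩ := hy
    simp only [Prod.mk.injEq] at hxy
    have hA0 := h.A0
    have hB0 := h.B0
    obtain ⟨a1, a2⟩ := tr_inj hK (L := K - A) (by linarith) hu1 hu2 hv1 hv2 hxy.1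
    obtain ⟨b1, b2⟩ := tr_inj hK (L := K - B) (by linarith) hu3 hu4 hv3 hv4 hxy.2
    exact Prod.ext (Prod.ext a2 b2) (Prod.ext a1 b1)
  · intro d hd
    rw [Finset.mem_filter] at hd
    obtain ⟨hd, hG⟩ := hd
    unfold trD at hd
    rw [Finset.mem_product, Finset.mem_Ico, Finset.mem_Ico] at hd
    obtain ⟨⟨hd1, hd2⟩, hd3, hd4⟩ := hd
    have hct : p ∈ ct P K A B m (p - d) := by
      rw [mem_ct]
      simp only [Prod.fst_sub, Prod.snd_sub]
      refine ⟨hp, ?_, ?_, ?_, ?_⟩ <;> linarith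
    obtain ⟨i, hi, hi1, hi2⟩ := col_slot h hG hct
    obtain ⟨j, hj, hj1, hj2⟩ := row_slot h hG hct
    simp only [Prod.fst_sub, Prod.snd_sub] at hi1 hi2 hj1 hj2
    refine ⟨((((i : ℤ) + 1) * K - d.1, ((j : ℤ) + 1) * K - d.2), (i, j)), ?_, ?_⟩
    · rw [Finset.mem_filter, ← key]
      refine ⟨?_, ?_⟩
      · unfold UU
        rw [Finset.mem_product, Finset.mem_product, Finset.mem_product, Finset.mem_Icc,
          Finset.mem_Icc, Finset.mem_range, Finset.mem_range]
        simp only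
        refine ⟨⟨⟨?_, ?_⟩, ?_, ?_⟩, hi, hj⟩
        · have : d.1 < (i : ℤ) * K + K := by linarith
          have e : ((i : ℤ) + 1) * K - d.1 = (i : ℤ) * K + K - d.1 := by ring
          rw [e]
          omega
        · linarith
        · have : d.2 < (j : ℤ) * K + K := by linarith
          have e : ((j : ℤ) + 1) * K - d.2 = (j : ℤ) * K + K - d.2 := by ring
          rw [e]
          omega
        · linarith
      · have e : p - (((i : ℤ) + 1) * K - (((i : ℤ) + 1) * K - d.1),
            ((j : ℤ) + 1) * K - (((j : ℤ) + 1) * K - d.2)) = p - d := by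
          congr 1
          exact Prod.ext (by simp) (by simp)
        show Gd P K A B m (p - (((i : ℤ) + 1) * K - (((i : ℤ) + 1) * K - d.1),
            ((j : ℤ) + 1) * K - (((j : ℤ) + 1) * K - d.2)))
        rw [e]
        exact hG
    · exact Prod.ext (by simp) (by simp)
  · intro x _
    rw [key]

theorem trans (μ : Prc92.Mean) (h : Prc P K A B m) {g : Z2 → Z2 → ℝ} {C : ℝ}
    (hg : ∀ z p, |g z p| ≤ C) :
    μ.M (fun z => if Gd P K A B m z then ∑ p ∈ ct P K A B m z, g z p else 0) =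
      μ.M (fun p => if p ∈ P then ∑ u ∈ UU K A B, ∑ s ∈ S P K A B m p u, g (zz K p u s) p else 0) := by
  have h1 : ∀ z, (if Gd P K A B m z then ∑ p ∈ ct P K A B m z, g z p else 0) =
      ∑ d ∈ trD K A B m, trF P K A B m g d (z - (-d)) := by
    intro z
    by_cases hz : Gd P K A B m z
    · rw [if_pos hz, tr_ct_sum]
      refine Finset.sum_congr rfl fun d _ => ?_
      rw [sub_neg_eq_add]
      unfold trF
      rw [add_sub_cancel_right]
      simp only [hz, and_true]
    · rw [if_neg hz]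
      symm
      refine Finset.sum_eq_zero fun d _ => ?_
      rw [sub_neg_eq_add]
      unfold trF
      rw [add_sub_cancel_right]
      simp only [hz, and_false, if_false]
  have hb : ∀ d ∈ trD K A B m, Prc92.Bd (trF P K A B m g d) := by
    intro d _
    refine ⟨max C 0, fun z => ?_⟩
    unfold trF
    split_ifs
    · exact (hg _ _).trans (le_max_left _ _)
    · rw [abs_zero]
      exact le_max_right _ _
  have h2 := μ.transport (trD K A B m) (f := trF P K A B m g) (fun d => -d) hb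
  rw [show (fun z => if Gd P K A B m z then ∑ p ∈ ct P K A B m z, g z p else 0) =
    fun z => ∑ d ∈ trD K A B m, trF P K A B m g d (z - (-d)) from funext h1, h2]
  congr 1
  funext p
  by_cases hp : p ∈ P
  · rw [if_pos hp]
    exact tr_point h g hp
  · rw [if_neg hp]
    refine Finset.sum_eq_zero fun d _ => ?_
    unfold trF
    simp only [hp, false_and, if_false]

/-- the mean of `f` -/
theorem mean_f (μ : Prc92.Mean) (h : Prc P K A B m) :
    μ.M (fun z => (f P K A B m z : ℝ)) =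
      ((m : ℝ) * K + A) * (m * K + B) * ind μ (· ∈ P) := by
  have h1 : ∀ z, (f P K A B m z : ℝ) =
      ∑ d ∈ trD K A B m, (fun (_ : Z2) (p : Z2) => if p ∈ P then (1 : ℝ) else 0) d (z - (-d)) := by
    intro z
    have h2 := tr_ct_sum (P := P) (K := K) (A := A) (B := B) (m := m) z (fun _ _ => (1 : ℝ))
    unfold f
    rw [Finset.card_eq_sum_ones]
    push_cast
    rw [h2]
    refine Finset.sum_congr rfl fun d _ => ?_
    rw [sub_neg_eq_add]
  have hb : Prc92.Bd (fun p : Z2 => if p ∈ P then (1 : ℝ) else 0) := by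
    refine ⟨1, fun z => ?_⟩
    beta_reduce
    split_ifs <;> norm_num
  rw [show (fun z => (f P K A B m z : ℝ)) = fun z => ∑ d ∈ trD K A B m,
    (fun (_ : Z2) (p : Z2) => if p ∈ P then (1 : ℝ) else 0) d (z - (-d)) from funext h1,
    μ.transport (trD K A B m) (f := fun (_ : Z2) (p : Z2) => if p ∈ P then (1 : ℝ) else 0)
      (fun d => -d) (fun _ _ => hb),
    μ.sum (trD K A B m) (f := fun (_ : Z2) (p : Z2) => if p ∈ P then (1 : ℝ) else 0)
      (fun _ _ => hb)]
  rw [Finset.sum_const, nsmul_eq_mul]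
  have hK : 0 < K := h.A0.trans h.AK
  have hmK : (0 : ℤ) ≤ m * K := mul_nonneg (Int.natCast_nonneg m) hK.le
  have hA : (((m : ℤ) * K + A).toNat : ℤ) = m * K + A := Int.toNat_of_nonneg (by linarith [h.A0])
  have hB : (((m : ℤ) * K + B).toNat : ℤ) = m * K + B := Int.toNat_of_nonneg (by linarith [h.B0])
  have hA' : (((m : ℤ) * K + A).toNat : ℝ) = m * K + A := by
    have : ((((m : ℤ) * K + A).toNat : ℤ) : ℝ) = ((m * K + A : ℤ) : ℝ) := by rw [hA]
    push_cast at this
    exact this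
  have hB' : (((m : ℤ) * K + B).toNat : ℝ) = m * K + B := by
    have : ((((m : ℤ) * K + B).toNat : ℤ) : ℝ) = ((m * K + B : ℤ) : ℝ) := by rw [hB]
    push_cast at this
    exact this
  unfold trD ind
  rw [Finset.card_product, Int.card_Ico, Int.card_Ico, sub_zero, sub_zero, Nat.cast_mul, hA', hB']

end Prc24
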