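import Pool.Agent.Prc24.Vertex
import Pool.Agent.Prc24.Comb
import Pool.Agent.Prc24.ML
import Pool.Agent.Prc24.ML2
import Pool.Agent.Prc24.ML3
import Pool.Agent.Prc24.ML4
import Pool.Agent.Prc24.Trans

/-!
# The key inequality for grid sets
-/

namespace Prc24

open Finset Classical

variable {P : Set Z2} {K A B : ℤ} {m : ℕ}

private lemma helper23_bd_ind (Q : Z2 → Prop) : Prc92.Bd (fun z => if Q z then (1 : ℝ) else 0) := by
  refine ⟨1, fun z => ?_⟩
  by_cases hq : Q z <;> simp [hq]

private lemma helper23_bd_ite {Q : Z2 → Prop} {g : Z2 → ℝ} {C : ℝ} (hC : 0 ≤ C)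
    (hg : ∀ z, Q z → |g z| ≤ C) : Prc92.Bd (fun z => if Q z then g z else 0) := by
  refine ⟨C, fun z => ?_⟩
  by_cases hq : Q z
  · simp only [hq, if_true]
    exact hg z hq
  · simp only [hq, if_false, abs_zero]
    exact hC

private lemma helper23_ind_mul (μ : Prc92.Mean) (Q : Z2 → Prop) (c : ℝ) :
    μ.M (fun z => if Q z then c else 0) = c * ind μ Q := by
  unfold ind
  rw [← μ.smul c _ (helper23_bd_ind Q)]
  congr 1
  funext z
  by_cases hq : Q z <;> simp [hq]

private lemma helper23_card_UU (h : Prc P K A B m) :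
    ((UU K A B).card : ℝ) = ((K : ℝ) - A) * (K - B) := by
  have h1 : ((UU K A B).card : ℤ) = (K - A) * (K - B) := by
    unfold UU
    rw [card_product, Int.card_Icc, Int.card_Icc]
    push_cast
    have e1 : ((K - A + 1 - 1).toNat : ℤ) = K - A := by
      rw [Int.toNat_of_nonneg] <;> linarith [h.AK]
    have e2 : ((K - B + 1 - 1).toNat : ℤ) = K - B := by
      rw [Int.toNat_of_nonneg] <;> linarith [h.BK]
    rw [e1, e2]
  have h2 : (((UU K A B).card : ℤ) : ℝ) = (((K - A) * (K - B) : ℤ) : ℝ) := by rw [h1]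
  push_cast at h2
  exact h2

private lemma helper23_S_card (p u : Z2) : (S P K A B m p u).card ≤ m * m := by
  unfold S
  refine (card_filter_le _ _).trans ?_
  rw [card_product, card_range]

private lemma helper23_cost_le (z p : Z2) : cost P K A B m z p ≤ 6 := by
  unfold cost
  split_ifs <;> norm_num

private lemma helper23_f_le (z : Z2) :
    (f P K A B m z : ℝ) ≤ ((m * K + A).toNat * (m * K + B).toNat : ℕ) := by
  have h1 : f P K A B m z ≤ (m * K + A).toNat * (m * K + B).toNat := by
    unfold f ct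
    refine (card_filter_le _ _).trans ?_
    unfold bx
    rw [card_product, Int.card_Ico, Int.card_Ico]
    have e1 : z.1 + (m * K + A) - z.1 = m * K + A := by ring
    have e2 : z.2 + (m * K + B) - z.2 = m * K + B := by ring
    rw [e1, e2]
  exact_mod_cast h1

/-- `m` times the density of good windows, counted from the points -/
private lemma helper23_gd (μ : Prc92.Mean) (h : Prc P K A B m) :
    (m : ℝ) * ind μ (Gd P K A B m) =
      μ.M (fun p => if p ∈ P then ∑ u ∈ UU K A B, ((S P K A B m p u).card : ℝ) else 0) := by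
  have h1 := trans μ h (g := fun _ _ => (1 : ℝ)) (C := 1) (fun _ _ => by simp)
  have e1 : (fun p : Z2 => if p ∈ P then ∑ u ∈ UU K A B, ∑ _s ∈ S P K A B m p u, (1 : ℝ) else 0) =
      (fun p => if p ∈ P then ∑ u ∈ UU K A B, ((S P K A B m p u).card : ℝ) else 0) := by
    funext p
    simp
  have e2 : (fun z : Z2 => if Gd P K A B m z then ∑ _p ∈ ct P K A B m z, (1 : ℝ) else 0) =
      (fun z => if Gd P K A B m z then (m : ℝ) else 0) := by
    funext z
    by_cases hz : Gd P K A B m z
    · have hz' : (ct P K A B m z).card = m := hz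
      simp [hz, hz']
    · simp [hz]
  rw [e1] at h1
  rw [e2, helper23_ind_mul] at h1
  exact h1

private lemma helper23_key0 (μ : Prc92.Mean) (h : Prc P K A B m) :
    2 * ((m : ℝ) * ind μ (Gd P K A B m)) ≤ 2 * ((UU K A B).card * ind μ (· ∈ P)) +
      μ.M (fun p => if p ∈ P then ∑ u ∈ UU K A B, ∑ s ∈ S P K A B m p u,
        (cost P K A B m (zz K p u s) p : ℝ) else 0) := by
  have hb1 : Prc92.Bd (fun p : Z2 => if p ∈ P then ∑ u ∈ UU K A B, ((S P K A B m p u).card : ℝ) else 0) := by
    refine helper23_bd_ite (C := (UU K A B).card * (m * m : ℕ)) (by positivity) fun p _ => ?_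
    rw [abs_of_nonneg (sum_nonneg fun _ _ => Nat.cast_nonneg _)]
    refine (sum_le_sum fun u _ => (Nat.cast_le (α := ℝ)).2 (helper23_S_card p u)).trans ?_
    rw [sum_const, nsmul_eq_mul]
  have hb2 : Prc92.Bd (fun p : Z2 => if p ∈ P then ∑ u ∈ UU K A B, ∑ s ∈ S P K A B m p u,
        (cost P K A B m (zz K p u s) p : ℝ) else 0) := by
    refine helper23_bd_ite (C := (UU K A B).card * ((m * m : ℕ) * 6)) (by positivity) fun p _ => ?_
    rw [abs_of_nonneg (sum_nonneg fun _ _ => sum_nonneg fun _ _ => Nat.cast_nonneg _)]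
    have h1 : ∀ u ∈ UU K A B, ∑ s ∈ S P K A B m p u, (cost P K A B m (zz K p u s) p : ℝ) ≤
        (m * m : ℕ) * 6 := by
      intro u _
      have h2 : ∀ s ∈ S P K A B m p u, (cost P K A B m (zz K p u s) p : ℝ) ≤ 6 := by
        intro s _
        exact_mod_cast helper23_cost_le (zz K p u s) p
      refine (sum_le_sum h2).trans ?_
      rw [sum_const, nsmul_eq_mul]
      exact mul_le_mul_of_nonneg_right ((Nat.cast_le (α := ℝ)).2 (helper23_S_card p u)) (by norm_num)
    refine (sum_le_sum h1).trans ?_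
    rw [sum_const, nsmul_eq_mul]
  have hb3 : Prc92.Bd (fun p : Z2 => if p ∈ P then ((UU K A B).card : ℝ) else 0) :=
    helper23_bd_ite (C := (UU K A B).card) (by positivity) fun p _ => by simp
  rw [helper23_gd μ h, ← helper23_ind_mul, ← μ.smul 2 _ hb1, ← μ.smul 2 _ hb3,
    ← μ.add _ _ (hb3.smul 2) hb2]
  refine μ.mono _ _ (hb1.smul 2) ((hb3.smul 2).add hb2) fun p => ?_
  by_cases hp : p ∈ P
  · simp only [hp, if_true]
    rw [mul_sum, card_eq_sum_ones, Nat.cast_sum, mul_sum, ← sum_add_distrib]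
    refine sum_le_sum fun u hu => ?_
    have h3 := comb h hp hu
    have h4 : (((2 * (S P K A B m p u).card : ℕ)) : ℝ) ≤
      ((2 + ∑ s ∈ S P K A B m p u, cost P K A B m (zz K p u s) p : ℕ) : ℝ) := by exact_mod_cast h3
    push_cast at h4 ⊢
    linarith
  · simp [hp]

private lemma helper23_phi (M : Finset Z2) : (φ P K A B m M : ℝ) =
    (if NE P K A B m M then 1 else 0) + (if NW P K A B m M then 1 else 0) +
    (if SE P K A B m M then 1 else 0) + (if SW P K A B m M then 1 else 0) := by
  unfold φ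
  push_cast
  rfl

private lemma helper23_and {Q R : Prop} : (if Q ∧ R then (1 : ℝ) else 0) =
    if Q then (if R then 1 else 0) else 0 := by
  by_cases hq : Q <;> by_cases hr : R <;> simp [hq, hr]

private lemma helper23_cost (μ : Prc92.Mean) (h : Prc P K A B m) :
    μ.M (fun p => if p ∈ P then ∑ u ∈ UU K A B, ∑ s ∈ S P K A B m p u,
        (cost P K A B m (zz K p u s) p : ℝ) else 0) ≤
      (m - 1) * (ind μ (fun z => Gd P K A B m z ∧ NE P K A B m (ct P K A B m z)) +
        ind μ (fun z => Gd P K A B m z ∧ NW P K A B m (ct P K A B m z)) +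
        ind μ (fun z => Gd P K A B m z ∧ SE P K A B m (ct P K A B m z)) +
        ind μ (fun z => Gd P K A B m z ∧ SW P K A B m (ct P K A B m z))) := by
  have h1 := trans μ h (g := fun z p => (cost P K A B m z p : ℝ)) (C := 6) (fun z p => by
    rw [abs_of_nonneg (Nat.cast_nonneg _)]
    exact_mod_cast helper23_cost_le z p)
  rw [← h1]
  unfold ind
  rw [← μ.add _ _ (helper23_bd_ind _) (helper23_bd_ind _),
    ← μ.add _ _ ((helper23_bd_ind _).add (helper23_bd_ind _)) (helper23_bd_ind _),
    ← μ.add _ _ (((helper23_bd_ind _).add (helper23_bd_ind _)).add (helper23_bd_ind _))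
      (helper23_bd_ind _),
    ← μ.smul ((m : ℝ) - 1) _ ((((helper23_bd_ind _).add (helper23_bd_ind _)).add
      (helper23_bd_ind _)).add (helper23_bd_ind _))]
  have hbL : Prc92.Bd (fun z : Z2 => if Gd P K A B m z then
      ∑ p ∈ ct P K A B m z, (cost P K A B m z p : ℝ) else 0) := by
    refine helper23_bd_ite (C := m * 6) (by positivity) fun z hz => ?_
    rw [abs_of_nonneg (sum_nonneg fun _ _ => Nat.cast_nonneg _)]
    have h2 : ∀ p ∈ ct P K A B m z, (cost P K A B m z p : ℝ) ≤ 6 := by
      intro p _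
      exact_mod_cast helper23_cost_le z p
    refine (sum_le_sum h2).trans ?_
    rw [sum_const, nsmul_eq_mul]
    have hz' : (ct P K A B m z).card = m := hz
    rw [hz']
  refine μ.mono _ _ hbL (((((helper23_bd_ind _).add (helper23_bd_ind _)).add
      (helper23_bd_ind _)).add (helper23_bd_ind _)).smul _) fun z => ?_
  by_cases hz : Gd P K A B m z
  · have h3 := vertex h hz
    have h4 : ((∑ p ∈ ct P K A B m z, cost P K A B m z p : ℕ) : ℝ) ≤
        (((m - 1) * φ P K A B m (ct P K A B m z) : ℕ) : ℝ) := by exact_mod_cast h3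
    have hm : 1 ≤ m := le_trans (by norm_num) h.m2
    rw [Nat.cast_sum, Nat.cast_mul, Nat.cast_sub hm, Nat.cast_one, helper23_phi] at h4
    simp only [hz, if_true, true_and]
    exact h4
  · simp [hz]

/-- Proof: `m μ(Gd)` is the mean of `z ↦ if Gd z then ∑ p ∈ ct z, 1 else 0`; by `trans` it is the mean of
`p ↦ if p ∈ P then ∑ u, (S p u).card else 0`; use `comb` and `trans` (with `g = cost`, bounded by `6`) again, and
`vertex`. `UU.card = (K - A) (K - B)`. -/
theorem key1 (μ : Prc92.Mean) (h : Prc P K A B m) :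
    2 * (m : ℝ) * ind μ (Gd P K A B m) ≤ 2 * (((K : ℝ) - A) * (K - B)) * ind μ (· ∈ P) +
      (m - 1) * (ind μ (fun z => Gd P K A B m z ∧ NE P K A B m (ct P K A B m z)) +
        ind μ (fun z => Gd P K A B m z ∧ NW P K A B m (ct P K A B m z)) +
        ind μ (fun z => Gd P K A B m z ∧ SE P K A B m (ct P K A B m z)) +
        ind μ (fun z => Gd P K A B m z ∧ SW P K A B m (ct P K A B m z))) := by
  have h1 := helper23_key0 μ h
  have h2 := helper23_cost μ h
  rw [helper23_card_UU h] at h1
  linarith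

theorem key3 (μ : Prc92.Mean) (h : Prc P K A B m) :
    ind μ (Gd P K A B m) ≤ m * (((K : ℝ) - A) * (K - B)) * ind μ (· ∈ P) := by
  have h1 := helper23_gd μ h
  have hb1 : Prc92.Bd (fun p : Z2 => if p ∈ P then ∑ u ∈ UU K A B, ((S P K A B m p u).card : ℝ) else 0) := by
    refine helper23_bd_ite (C := (UU K A B).card * (m * m : ℕ)) (by positivity) fun p _ => ?_
    rw [abs_of_nonneg (sum_nonneg fun _ _ => Nat.cast_nonneg _)]
    refine (sum_le_sum fun u _ => (Nat.cast_le (α := ℝ)).2 (helper23_S_card p u)).trans ?_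
    rw [sum_const, nsmul_eq_mul]
  have hb3 : Prc92.Bd (fun p : Z2 => if p ∈ P then (((UU K A B).card : ℝ) * (m * m : ℕ)) else 0) :=
    helper23_bd_ite (C := (UU K A B).card * (m * m : ℕ)) (by positivity) fun p _ => by
      rw [abs_of_nonneg (by positivity)]
  have h2 : μ.M (fun p => if p ∈ P then ∑ u ∈ UU K A B, ((S P K A B m p u).card : ℝ) else 0) ≤
      ((UU K A B).card * (m * m : ℕ)) * ind μ (· ∈ P) := by
    rw [← helper23_ind_mul]
    refine μ.mono _ _ hb1 hb3 fun p => ?_
    by_cases hp : p ∈ P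
    · simp only [hp, if_true]
      refine (sum_le_sum fun u _ => (Nat.cast_le (α := ℝ)).2 (helper23_S_card p u)).trans ?_
      rw [sum_const, nsmul_eq_mul]
    · simp [hp]
  rw [← h1, helper23_card_UU h] at h2
  have hm : (0 : ℝ) < m := by
    have := h.m2
    exact_mod_cast (lt_of_lt_of_le (by norm_num) this)
  push_cast at h2
  have h3 : (m : ℝ) * ind μ (Gd P K A B m) ≤
      m * (m * (((K : ℝ) - A) * (K - B)) * ind μ (· ∈ P)) := by
    nlinarith [h2]
  exact le_of_mul_le_mul_left h3 hm

theorem key2 (μ : Prc92.Mean) (h : Prc P K A B m) :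
    (A : ℝ) * B * (m * ind μ (Gd P K A B m)) ≤ (((K : ℝ) - A) * (K - B)) *
      ((A : ℝ) * B * ind μ (· ∈ P) + 2 * (m - 1) * ind μ (fun z => m + 2 ≤ f P K A B m z)) := by
  have h1 := key1 μ h
  have e1 : (A : ℝ) * B * ind μ (fun z => Gd P K A B m z ∧ NE P K A B m (ct P K A B m z)) ≤
    ((K : ℝ) - A) * (K - B) * ind μ (fun z => m + 2 ≤ f P K A B m z) := ml_NE μ h
  have e2 : (A : ℝ) * B * ind μ (fun z => Gd P K A B m z ∧ NW P K A B m (ct P K A B m z)) ≤
    ((K : ℝ) - A) * (K - B) * ind μ (fun z => m + 2 ≤ f P K A B m z) := ml_NW μ h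
  have e3 : (A : ℝ) * B * ind μ (fun z => Gd P K A B m z ∧ SE P K A B m (ct P K A B m z)) ≤
    ((K : ℝ) - A) * (K - B) * ind μ (fun z => m + 2 ≤ f P K A B m z) := ml_SE μ h
  have e4 : (A : ℝ) * B * ind μ (fun z => Gd P K A B m z ∧ SW P K A B m (ct P K A B m z)) ≤
    ((K : ℝ) - A) * (K - B) * ind μ (fun z => m + 2 ≤ f P K A B m z) := ml_SW μ h
  have hA : (0 : ℝ) < A := by exact_mod_cast h.A0
  have hB : (0 : ℝ) < B := by exact_mod_cast h.B0
  have hm : (2 : ℝ) ≤ m := by exact_mod_cast h.m2
  have hm1 : (0 : ℝ) ≤ m - 1 := by linarith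
  have h2 := mul_le_mul_of_nonneg_left h1 (mul_pos hA hB).le
  have h3 := mul_le_mul_of_nonneg_left (add_le_add (add_le_add e1 e2) (add_le_add e3 e4)) hm1
  generalize ind μ (fun z => Gd P K A B m z ∧ NE P K A B m (ct P K A B m z)) = x1 at *
  generalize ind μ (fun z => Gd P K A B m z ∧ NW P K A B m (ct P K A B m z)) = x2 at *
  generalize ind μ (fun z => Gd P K A B m z ∧ SE P K A B m (ct P K A B m z)) = x3 at *
  generalize ind μ (fun z => Gd P K A B m z ∧ SW P K A B m (ct P K A B m z)) = x4 at *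
  generalize ind μ (fun z => m + 2 ≤ f P K A B m z) = t at *
  generalize ind μ (Gd P K A B m) = g at *
  generalize ind μ (· ∈ P) = n at *
  nlinarith [h2, h3]

theorem ident (μ : Prc92.Mean) (h : Prc P K A B m) :
    (m : ℝ) + 1 + ind μ (fun z => m + 2 ≤ f P K A B m z) ≤
      ((m : ℝ) * K + A) * (m * K + B) * ind μ (· ∈ P) + ind μ (Gd P K A B m) := by
  rw [← mean_f μ h]
  have hbf : Prc92.Bd (fun z => (f P K A B m z : ℝ)) :=
    Prc92.Bd.of_le _ (fun z => Nat.cast_nonneg _) (fun z => helper23_f_le z)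
  have hc : μ.M (fun _ => (m : ℝ) + 1) = (m : ℝ) + 1 := μ.const _
  obtain ⟨Q, hQ⟩ : ∃ Q : Z2 → Prop, Q = fun z => m + 2 ≤ f P K A B m z := ⟨_, rfl⟩
  rw [← hQ]
  unfold ind
  rw [← μ.add _ _ hbf (helper23_bd_ind _)]
  calc (m : ℝ) + 1 + μ.M (fun z => if Q z then 1 else 0)
      = μ.M (fun z => ((m : ℝ) + 1) + (if Q z then 1 else 0)) := by
        rw [μ.add _ _ (Prc92.Bd.const _) (helper23_bd_ind _), hc]
    _ ≤ _ := by
        refine μ.mono _ _ ((Prc92.Bd.const _).add (helper23_bd_ind _))
          (hbf.add (helper23_bd_ind _)) fun z => ?_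
        have h1 := le_f h z
        have hQz : Q z ↔ m + 2 ≤ f P K A B m z := by rw [hQ]
        by_cases hz : Gd P K A B m z
        · have hz' : f P K A B m z = m := hz
          have h2 : ¬ Q z := by rw [hQz]; omega
          simp only [hz, h2, if_true, if_false]
          rw [hz']
          linarith
        · have hz' : f P K A B m z ≠ m := hz
          by_cases h2 : Q z
          · simp only [hz, h2, if_true, if_false]
            have h3 : ((m + 2 : ℕ) : ℝ) ≤ f P K A B m z := by exact_mod_cast hQz.1 h2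
            push_cast at h3
            linarith
          · have h3 : f P K A B m z = m + 1 := by
              rw [hQz] at h2
              omega
            simp only [hz, h2, if_false]
            rw [h3]
            push_cast
            linarith

end Prc24
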