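import Mathlib

/-!
# The extremal lattice pierces both rectangles

`Lt m α β w h` is the lattice generated by `(α / m * w, -h)` and `(w, β h)`.
Here `α = w₁ / w₂ - 1`, `β = h₂ / h₁ - 1`, `m - 1 ≤ α, β ≤ m`.

`lat_pierce2` (rectangle `w × (β + 1) h` with corner `(x, y)`): for `i ∈ ℤ` let `j i = ⌈x / w - i α / m⌉` and
`t i = - i + j i β`.  The point `(i α / m + j i) w` lies in `[x, x + w]`.  As `0 ≤ α / m ≤ 1`, `j (i + 1) - j i ∈ {0, -1}`, so
`t (i + 1) ≤ t i`, `t i ≤ t (i + 1) + 1 + β`; `t i → -∞` for `i → ∞` and `t i → ∞` for `i → -∞`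
(`t i = - i + O(1) + ...`, note `t i ≤ - i + (x / w - i α / m + 1) β` for ..).  So some `i` has `y / h ≤ t i ≤ y / h + 1 + β`
(the largest `i` with `y / h ≤ t i`).

`lat_pierce1` (rectangle `(α + 1) w × h`): for `j ∈ ℤ` let `i j = ⌊j β - y / h⌋`, so `- i j + j β ∈ [y / h, y / h + 1)`.
`i (j + 1) - i j ∈ {m - 1, m}` (`m - 1 ≤ β ≤ m`), `s j = i j α / m + j` increases by at most `α + 1` (and at least `1`) in each step.
So some `j` has `x / w ≤ s j ≤ x / w + α + 1`.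
-/

namespace Prc24

/-- the lattice -/
def Lt (m α β w h : ℝ) : Set (ℝ × ℝ) :=
  {q | ∃ i j : ℤ, q = ((i * (α / m) + j) * w, (-i + j * β) * h)}

private lemma up {s : ℤ → ℝ} (h1 : ∀ j, s j + 1 ≤ s (j + 1)) (n : ℕ) (j : ℤ) :
    s j + n ≤ s (j + n) := by
  induction n with
  | zero => simp
  | succ n ih =>
    have h := h1 (j + n)
    have e : j + (n : ℤ) + 1 = j + ((n + 1 : ℕ) : ℤ) := by push_cast; ring
    rw [e] at h
    push_cast at h ⊢
    linarith

private lemma step {s : ℤ → ℝ} {c : ℝ} (h1 : ∀ j, s j + 1 ≤ s (j + 1))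
    (h2 : ∀ j, s (j + 1) ≤ s j + c) (X : ℝ) : ∃ j, X ≤ s j ∧ s j ≤ X + c := by
  obtain ⟨j, hj, hmin⟩ := Int.exists_least_of_bdd (P := fun j => X ≤ s j)
    (by
      refine ⟨min 0 ⌊X - s 0⌋, fun z hz => ?_⟩
      rcases le_or_gt 0 z with h | h
      · exact (min_le_left _ _).trans h
      · refine (min_le_right _ _).trans ?_
        have hz1 := up h1 z.natAbs z
        have e : ((z.natAbs : ℕ) : ℤ) = -z := by omega
        have e2 : ((z.natAbs : ℕ) : ℝ) = -(z : ℝ) := by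
          have : (((z.natAbs : ℕ) : ℤ) : ℝ) = ((-z : ℤ) : ℝ) := by rw [e]
          simpa using this
        rw [e, e2, add_neg_cancel] at hz1
        have h3 : X - s 0 ≤ z := by linarith
        have h4 : (⌊X - s 0⌋ : ℝ) ≤ z := (Int.floor_le _).trans h3
        exact_mod_cast h4)
    (by
      refine ⟨((⌈X - s 0⌉.toNat : ℕ) : ℤ), ?_⟩
      have hz1 := up h1 ⌈X - s 0⌉.toNat 0
      rw [zero_add] at hz1
      have h3 : X - s 0 ≤ ((⌈X - s 0⌉.toNat : ℕ) : ℝ) := by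
        have h4 : ⌈X - s 0⌉ ≤ ((⌈X - s 0⌉.toNat : ℕ) : ℤ) := Int.self_le_toNat _
        have h5 : ((⌈X - s 0⌉ : ℤ) : ℝ) ≤ (((⌈X - s 0⌉.toNat : ℕ) : ℤ) : ℝ) := Int.cast_le.2 h4
        rw [Int.cast_natCast] at h5
        exact (Int.le_ceil _).trans h5
      linarith)
  refine ⟨j, hj, ?_⟩
  have h3 : s (j - 1) < X := by
    by_contra hcon
    have := hmin (j - 1) (not_lt.1 hcon)
    omega
  have h4 := h2 (j - 1)
  rw [sub_add_cancel] at h4
  linarith

lemma lat_pierce1 {m : ℕ} {α β w h : ℝ} (hm : 1 ≤ m) (hw : 0 < w) (hh : 0 < h)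
    (hα0 : m - 1 ≤ α) (hα1 : α ≤ m) (hβ0 : m - 1 ≤ β) (hβ1 : β ≤ m) (x y : ℝ) :
    ∃ q ∈ Lt m α β w h, x ≤ q.1 ∧ q.1 ≤ x + (α + 1) * w ∧ y ≤ q.2 ∧ q.2 ≤ y + h := by
  have hm1 : (1 : ℝ) ≤ m := by exact_mod_cast hm
  have hα : 0 ≤ α := by linarith
  have hr0 : 0 ≤ α / m := by positivity
  have hrm : m * (α / m) = α := by field_simp
  set I : ℤ → ℤ := fun j => ⌊j * β - y / h⌋ with hI
  have hd1 : ∀ j, I (j + 1) ≤ I j + m := by
    intro j
    have a1 := Int.floor_le (((j + 1 : ℤ) : ℝ) * β - y / h)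
    have a2 := Int.lt_floor_add_one ((j : ℝ) * β - y / h)
    have : (I (j + 1) : ℝ) < I j + m + 1 := by
      simp only [hI]
      push_cast at a1 a2 ⊢
      nlinarith
    have : I (j + 1) < I j + m + 1 := by exact_mod_cast this
    omega
  have hd2 : ∀ j, I j ≤ I (j + 1) := by
    intro j
    refine Int.floor_le_floor ?_
    push_cast
    nlinarith
  obtain ⟨j, hj1, hj2⟩ := step (s := fun j => I j * (α / m) + j) (c := α + 1)
    (by
      intro j
      have : (I j : ℝ) ≤ I (j + 1) := by exact_mod_cast hd2 j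
      push_cast
      nlinarith)
    (by
      intro j
      have : (I (j + 1) : ℝ) ≤ I j + m := by exact_mod_cast hd1 j
      push_cast
      nlinarith) (x / w)
  refine ⟨_, ⟨I j, j, rfl⟩, ?_, ?_, ?_, ?_⟩
  · exact (div_le_iff₀ hw).1 hj1
  · have h3 := mul_le_mul_of_nonneg_right hj2 hw.le
    rw [add_mul (x / w), div_mul_cancel₀ _ hw.ne'] at h3
    exact h3
  · have a1 := Int.floor_le ((j : ℝ) * β - y / h)
    have h3 : y / h ≤ -(I j : ℝ) + j * β := by simp only [hI]; linarith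
    exact (div_le_iff₀ hh).1 h3
  · have a1 := Int.lt_floor_add_one ((j : ℝ) * β - y / h)
    have h3 : -(I j : ℝ) + j * β ≤ y / h + 1 := by simp only [hI]; linarith
    have h4 := mul_le_mul_of_nonneg_right h3 hh.le
    rw [add_mul (y / h), div_mul_cancel₀ _ hh.ne', one_mul] at h4
    exact h4

lemma lat_pierce2 {m : ℕ} {α β w h : ℝ} (hm : 1 ≤ m) (hw : 0 < w) (hh : 0 < h)
    (hα0 : m - 1 ≤ α) (hα1 : α ≤ m) (hβ0 : m - 1 ≤ β) (hβ1 : β ≤ m) (x y : ℝ) :
    ∃ q ∈ Lt m α β w h, x ≤ q.1 ∧ q.1 ≤ x + w ∧ y ≤ q.2 ∧ q.2 ≤ y + (β + 1) * h := by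
  have hm1 : (1 : ℝ) ≤ m := by exact_mod_cast hm
  have hm0 : (0 : ℝ) < m := by linarith
  have hα : 0 ≤ α := by linarith
  have hβ : 0 ≤ β := by linarith
  have hr0 : 0 ≤ α / m := by positivity
  have hr1 : α / m ≤ 1 := (div_le_one hm0).2 hα1
  -- `J i = ⌈x / w + i α / m⌉`, index `-i`
  set J : ℤ → ℤ := fun i => ⌈x / w + i * (α / m)⌉ with hJ
  have hd1 : ∀ i, J (i + 1) ≤ J i + 1 := by
    intro i
    have a1 := Int.le_ceil (x / w + (i : ℝ) * (α / m))
    refine Int.ceil_le.2 ?_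
    simp only [hJ]
    push_cast
    nlinarith
  have hd2 : ∀ i, J i ≤ J (i + 1) := by
    intro i
    refine Int.ceil_le_ceil ?_
    push_cast
    nlinarith
  obtain ⟨i, hi1, hi2⟩ := step (s := fun i => i + J i * β) (c := β + 1)
    (by
      intro i
      have : (J i : ℝ) ≤ J (i + 1) := by exact_mod_cast hd2 i
      push_cast
      nlinarith)
    (by
      intro i
      have : (J (i + 1) : ℝ) ≤ J i + 1 := by exact_mod_cast hd1 i
      push_cast
      nlinarith) (y / h)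
  refine ⟨_, ⟨-i, J i, rfl⟩, ?_, ?_, ?_, ?_⟩
  · have a1 := Int.le_ceil (x / w + (i : ℝ) * (α / m))
    have h3 : x / w ≤ ((-i : ℤ) : ℝ) * (α / m) + J i := by
      simp only [hJ]
      push_cast
      linarith
    exact (div_le_iff₀ hw).1 h3
  · have a1 := Int.ceil_lt_add_one (x / w + (i : ℝ) * (α / m))
    have h3 : ((-i : ℤ) : ℝ) * (α / m) + J i ≤ x / w + 1 := by
      simp only [hJ]
      push_cast
      linarith
    have h4 := mul_le_mul_of_nonneg_right h3 hw.le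
    rw [add_mul (x / w), div_mul_cancel₀ _ hw.ne', one_mul] at h4
    exact h4
  · have h3 : y / h ≤ -((-i : ℤ) : ℝ) + J i * β := by
      push_cast
      rw [neg_neg]
      exact hi1
    exact (div_le_iff₀ hh).1 h3
  · have h3 : -((-i : ℤ) : ℝ) + J i * β ≤ y / h + (β + 1) := by
      push_cast
      rw [neg_neg]
      exact hi2
    have h4 := mul_le_mul_of_nonneg_right h3 hh.le
    rw [add_mul (y / h), div_mul_cancel₀ _ hh.ne'] at h4
    exact h4

end Prc24
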