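import Pool.Agent.Prc24.Defs

/-!
# Row slots of a good window

Proof.  Put `Y = z.2`.  The `m` horizontal strips `[Y + i K, Y + (i + 1) K)`, `i < m`, are contained in the
window and each of them contains a point (`h.hor z.1 (Y + i K)`), so `m ≤ f z`.  Let `z` be good and let
`c t` be the number of points of `ct z` with `p.2 < t`.  The strips below give `c (Y + i K) ≥ i` for
`i ≤ m`; the strips `[Y + B + i K, Y + B + (i + 1) K)` give at least `m - i` points with
`p.2 ≥ Y + B + i K`, hence `c (Y + i K + B) ≤ i`.  As `c` is monotone, `c (Y + i K) = c (Y + i K + B) = i`,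
so no point has `Y + i K ≤ p.2 < Y + i K + B` (`i ≤ m`) and exactly one point has
`Y + i K ≤ p.2 < Y + (i + 1) K` (`i < m`).
-/

namespace Prc24

open Finset Classical

variable {P : Set Z2} {K A B : ℤ} {m : ℕ}

lemma mem_ct {z p : Z2} : p ∈ ct P K A B m z ↔ p ∈ P ∧ z.1 ≤ p.1 ∧ p.1 < z.1 + (m * K + A) ∧
    z.2 ≤ p.2 ∧ p.2 < z.2 + (m * K + B) := by
  unfold ct bx
  rw [Finset.mem_filter, Finset.mem_product, Finset.mem_Ico, Finset.mem_Ico]
  tauto

private lemma rows_strip (i j : ℕ) (K : ℤ) (hK : 0 < K) (Y y : ℤ) (h1 : Y + i * K ≤ y)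
    (h2 : y < Y + i * K + K) (h3 : Y + j * K ≤ y) (h4 : y < Y + j * K + K) : i = j := by
  rcases lt_trichotomy i j with h | h | h
  · exfalso
    have h5 : ((i : ℤ) + 1) * K ≤ j * K := by
      apply mul_le_mul_of_nonneg_right _ hK.le
      exact_mod_cast h
    linarith
  · exact h
  · exfalso
    have h5 : ((j : ℤ) + 1) * K ≤ i * K := by
      apply mul_le_mul_of_nonneg_right _ hK.le
      exact_mod_cast h
    linarith

private lemma rows_pt (h : Prc P K A B m) (z : Z2) (e : ℤ) (he0 : 0 ≤ e) (heB : e ≤ B) (j : ℕ)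
    (hj : j < m) : ∃ p ∈ ct P K A B m z, z.2 + e + j * K ≤ p.2 ∧ p.2 < z.2 + e + j * K + K := by
  obtain ⟨p, hp, h1, h2, h3, h4⟩ := h.hor z.1 (z.2 + e + j * K)
  have hK : 0 < K := lt_trans h.A0 h.AK
  have h5 : ((j : ℤ) + 1) * K ≤ m * K := by
    apply mul_le_mul_of_nonneg_right _ hK.le
    exact_mod_cast hj
  have h6 : 0 ≤ (j : ℤ) * K := by positivity
  exact ⟨p, mem_ct.2 ⟨hp, h1, h2, by linarith, by linarith⟩, h3, h4⟩

private lemma rows_low (h : Prc P K A B m) (z : Z2) (e : ℤ) (he0 : 0 ≤ e) (heB : e ≤ B) (a b : ℕ)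
    (hb : b ≤ m) (M : Finset Z2)
    (hM : ∀ p ∈ ct P K A B m z, z.2 + e + a * K ≤ p.2 → p.2 < z.2 + e + b * K → p ∈ M) :
    b - a ≤ M.card := by
  have hK : 0 < K := lt_trans h.A0 h.AK
  choose! g hg using fun j (hj : j < m) => rows_pt h z e he0 heB j hj
  rw [← Nat.card_Ico]
  apply Finset.card_le_card_of_injOn g
  · intro j hj
    have hj' := Finset.mem_Ico.1 (Finset.mem_coe.1 hj)
    obtain ⟨h1, h2, h3⟩ := hg j (by omega)
    have h5 : ((j : ℤ) + 1) * K ≤ b * K := by
      apply mul_le_mul_of_nonneg_right _ hK.le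
      exact_mod_cast hj'.2
    have h6 : (a : ℤ) * K ≤ j * K := by
      apply mul_le_mul_of_nonneg_right _ hK.le
      exact_mod_cast hj'.1
    exact Finset.mem_coe.2 (hM _ h1 (by linarith) (by linarith))
  · intro j hj j' hj' hjj
    have hj1 := Finset.mem_Ico.1 (Finset.mem_coe.1 hj)
    have hj2 := Finset.mem_Ico.1 (Finset.mem_coe.1 hj')
    obtain ⟨h1, h2, h3⟩ := hg j (by omega)
    obtain ⟨h4, h5, h6⟩ := hg j' (by omega)
    rw [← hjj] at h5 h6
    exact rows_strip j j' K hK _ _ h2 h3 h5 h6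

private lemma rows_split (M : Finset Z2) (s t : ℤ) (hst : s ≤ t) :
    (M.filter fun p => p.2 < s).card + (M.filter fun p => s ≤ p.2 ∧ p.2 < t).card +
      (M.filter fun p => t ≤ p.2).card = M.card := by
  rw [Finset.card_filter, Finset.card_filter, Finset.card_filter, ← Finset.sum_add_distrib,
    ← Finset.sum_add_distrib, Finset.card_eq_sum_ones]
  refine Finset.sum_congr rfl fun p _ => ?_
  split_ifs <;> omega

lemma le_f (h : Prc P K A B m) (z : Z2) : m ≤ f P K A B m z := by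
  have h1 := rows_low h z 0 le_rfl h.B0.le 0 m le_rfl (ct P K A B m z) (fun p hp _ _ => hp)
  unfold f
  omega

private lemma rows_a (h : Prc P K A B m) (z : Z2) (i : ℕ) (hi : i ≤ m) :
    i ≤ ((ct P K A B m z).filter fun p => p.2 < z.2 + i * K).card := by
  have h1 := rows_low h z 0 le_rfl h.B0.le 0 i hi
    ((ct P K A B m z).filter fun p => p.2 < z.2 + i * K) (fun p hp _ h2 =>
      Finset.mem_filter.2 ⟨hp, by linarith⟩)
  omega

private lemma rows_b (h : Prc P K A B m) (z : Z2) (i : ℕ) (t : ℤ) (ht : t ≤ z.2 + i * K + B) :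
    m - i ≤ ((ct P K A B m z).filter fun p => t ≤ p.2).card := by
  exact rows_low h z B h.B0.le le_rfl i m le_rfl
    ((ct P K A B m z).filter fun p => t ≤ p.2) (fun p hp h1 _ =>
      Finset.mem_filter.2 ⟨hp, by linarith⟩)

/-- the gaps are empty -/
private lemma rows_gap (h : Prc P K A B m) {z : Z2} (hz : Gd P K A B m z) {p : Z2}
    (hp : p ∈ ct P K A B m z) (i : ℕ) (hi : i ≤ m) (h1 : z.2 + i * K ≤ p.2) :
    z.2 + i * K + B ≤ p.2 := by
  by_contra hcon
  have ha := rows_a h z i hi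
  have hb := rows_b h z i (z.2 + i * K + B) le_rfl
  have hs := rows_split (ct P K A B m z) (z.2 + i * K) (z.2 + i * K + B)
    (by linarith [h.B0])
  have hpos : 0 < ((ct P K A B m z).filter fun p => z.2 + i * K ≤ p.2 ∧
      p.2 < z.2 + i * K + B).card :=
    Finset.card_pos.2 ⟨p, Finset.mem_filter.2 ⟨hp, h1, by linarith⟩⟩
  have hc : (ct P K A B m z).card = m := hz
  omega

/-- every point of a good window lies in a row slot -/
lemma row_slot (h : Prc P K A B m) {z : Z2} (hz : Gd P K A B m z) {p : Z2}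
    (hp : p ∈ ct P K A B m z) :
    ∃ i : ℕ, i < m ∧ z.2 + i * K + B ≤ p.2 ∧ p.2 < z.2 + i * K + K := by
  have hK : 0 < K := lt_trans h.A0 h.AK
  obtain ⟨_, _, _, h1, h2⟩ := mem_ct.1 hp
  obtain ⟨i, hi⟩ := Int.eq_ofNat_of_zero_le (Int.ediv_nonneg (sub_nonneg.2 h1) hK.le)
  have h3 := Int.ediv_mul_le (p.2 - z.2) hK.ne'
  have h4 := Int.lt_ediv_add_one_mul_self (p.2 - z.2) hK
  rw [hi] at h3 h4
  have h5 : z.2 + i * K ≤ p.2 := by linarith
  have h6 : p.2 < z.2 + i * K + K := by linarith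
  have him : i ≤ m := by
    by_contra hcon
    have h7 : ((m : ℤ) + 1) * K ≤ i * K := by
      apply mul_le_mul_of_nonneg_right _ hK.le
      exact_mod_cast (by omega : m + 1 ≤ i)
    linarith [h.BK]
  have h8 := rows_gap h hz hp i him h5
  refine ⟨i, ?_, h8, h6⟩
  rcases Nat.lt_or_eq_of_le him with h9 | h9
  · exact h9
  · exfalso
    rw [h9] at h8
    linarith

/-- every row slot contains a point -/
lemma row_ex (h : Prc P K A B m) {z : Z2} (hz : Gd P K A B m z) {i : ℕ} (hi : i < m) :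
    ∃ p ∈ ct P K A B m z, z.2 + i * K + B ≤ p.2 ∧ p.2 < z.2 + i * K + K := by
  obtain ⟨p, hp, h1, h2⟩ := rows_pt h z 0 le_rfl h.B0.le i hi
  rw [add_zero] at h1 h2
  exact ⟨p, hp, rows_gap h hz hp i hi.le h1, h2⟩

/-- a row slot contains only one point -/
lemma row_inj (h : Prc P K A B m) {z : Z2} (hz : Gd P K A B m z) {i : ℕ} {p q : Z2}
    (hp : p ∈ ct P K A B m z) (hq : q ∈ ct P K A B m z)
    (hp1 : z.2 + i * K ≤ p.2) (hp2 : p.2 < z.2 + i * K + K)
    (hq1 : z.2 + i * K ≤ q.2) (hq2 : q.2 < z.2 + i * K + K) : p = q := by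
  have hK : 0 < K := lt_trans h.A0 h.AK
  have him : i < m := by
    obtain ⟨i', h1, h2, h3⟩ := row_slot h hz hp
    have h4 := rows_strip i i' K hK z.2 p.2 hp1 hp2 (by linarith [h.B0]) h3
    omega
  have ha := rows_a h z i him.le
  have hb := rows_b h z (i + 1) (z.2 + i * K + K) (by
    push_cast
    linarith [h.B0])
  have hs := rows_split (ct P K A B m z) (z.2 + i * K) (z.2 + i * K + K) (by linarith)
  have hc : (ct P K A B m z).card = m := hz
  have h1 : ((ct P K A B m z).filter fun p => z.2 + i * K ≤ p.2 ∧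
      p.2 < z.2 + i * K + K).card ≤ 1 := by omega
  exact Finset.card_le_one.1 h1 p (Finset.mem_filter.2 ⟨hp, hp1, hp2⟩) q
    (Finset.mem_filter.2 ⟨hq, hq1, hq2⟩)

end Prc24
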